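import Mathlib

/-!
# Sums over consecutive pairs of a list
-/

namespace Pool.Agent.H29.KConv

/-- the sum of `F x y` over all pairs of consecutive entries `x`, `y` of a list -/
def adj {α : Type*} (F : α → α → ℕ) : List α → ℕ
  | [] => 0
  | [_] => 0
  | x :: y :: l => F x y + adj F (y :: l)

/-- indicator of `x ≠ y` -/
def neq {α : Type*} [DecidableEq α] (x y : α) : ℕ := if x = y then 0 else 1

/-- number of changes in a list -/
def chg {α : Type*} [DecidableEq α] (l : List α) : ℕ := adj neq l

section adj

variable {α : Type*}

@[simp] lemma adj_nil (F : α → α → ℕ) : adj F [] = 0 := rfl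

@[simp] lemma adj_singleton (F : α → α → ℕ) (x : α) : adj F [x] = 0 := rfl

@[simp] lemma adj_cons_cons (F : α → α → ℕ) (x y : α) (l : List α) :
    adj F (x :: y :: l) = F x y + adj F (y :: l) := rfl

lemma adj_mono {F G : α → α → ℕ} : ∀ (l : List α),
    (∀ x ∈ l, ∀ y ∈ l, F x y ≤ G x y) → adj F l ≤ adj G l
  | [], _ => le_rfl
  | [_], _ => le_rfl
  | x :: y :: l, h => by
    rw [adj_cons_cons, adj_cons_cons]
    have h1 := h x (by simp) y (by simp)
    have h2 := adj_mono (y :: l) (fun a ha b hb =>
      h a (List.mem_cons_of_mem _ ha) b (List.mem_cons_of_mem _ hb))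
    omega

lemma adj_add (F G : α → α → ℕ) : ∀ (l : List α),
    adj (fun x y => F x y + G x y) l = adj F l + adj G l
  | [] => rfl
  | [_] => rfl
  | x :: y :: l => by
    have ih := adj_add F G (y :: l)
    simp only [adj_cons_cons, ih]
    omega

lemma adj_zero : ∀ (l : List α), adj (fun _ _ : α => 0) l = 0
  | [] => rfl
  | [_] => rfl
  | x :: y :: l => by
    have ih := adj_zero (y :: l)
    rw [adj_cons_cons, ih]

lemma adj_mul (c : ℕ) (F : α → α → ℕ) : ∀ (l : List α),
    adj (fun x y => c * F x y) l = c * adj F l
  | [] => by simp
  | [_] => by simp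
  | x :: y :: l => by
    have ih := adj_mul c F (y :: l)
    simp only [adj_cons_cons, ih, mul_add]

lemma adj_sum {ι : Type*} (s : Finset ι) (F : ι → α → α → ℕ) (l : List α) :
    adj (fun x y => ∑ i ∈ s, F i x y) l = ∑ i ∈ s, adj (F i) l := by
  classical
  induction s using Finset.induction_on with
  | empty => simp [adj_zero]
  | insert a s ha ih =>
    simp only [Finset.sum_insert ha]
    rw [adj_add, ih]

lemma adj_list_sum {ι : Type*} (s : List ι) (F : ι → α → α → ℕ) (l : List α) :
    adj (fun x y => (s.map fun i => F i x y).sum) l = (s.map fun i => adj (F i) l).sum := by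
  induction s with
  | nil => simp [adj_zero]
  | cons a s ih =>
    simp only [List.map_cons, List.sum_cons]
    rw [adj_add, ih]

lemma adj_map {β : Type*} (F : β → β → ℕ) (g : α → β) : ∀ (l : List α),
    adj F (l.map g) = adj (fun x y => F (g x) (g y)) l
  | [] => rfl
  | [_] => rfl
  | x :: y :: l => by
    have ih := adj_map F g (y :: l)
    simp only [List.map_cons, adj_cons_cons] at ih ⊢
    rw [ih]

lemma adj_congr {F G : α → α → ℕ} {l : List α}
    (h : ∀ x ∈ l, ∀ y ∈ l, F x y = G x y) : adj F l = adj G l :=
  le_antisymm (adj_mono l fun x hx y hy => (h x hx y hy).le)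
    (adj_mono l fun x hx y hy => (h x hx y hy).ge)

end adj

section chg

variable {α : Type*} [DecidableEq α]

@[simp] lemma neq_self (x : α) : neq x x = 0 := by simp [neq]

lemma neq_of_ne {x y : α} (h : x ≠ y) : neq x y = 1 := by simp [neq, h]

lemma neq_le_one (x y : α) : neq x y ≤ 1 := by
  unfold neq
  split_ifs <;> omega

lemma neq_comm (x y : α) : neq x y = neq y x := by
  unfold neq
  simp only [eq_comm]

lemma neq_triangle (x y z : α) : neq x z ≤ neq x y + neq y z := by
  by_cases h1 : x = y
  · subst h1
    simp
  · rw [neq_of_ne h1]
    have := neq_le_one x z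
    omega

@[simp] lemma chg_nil : chg ([] : List α) = 0 := rfl

@[simp] lemma chg_singleton (x : α) : chg [x] = 0 := rfl

@[simp] lemma chg_cons_cons (x y : α) (l : List α) :
    chg (x :: y :: l) = neq x y + chg (y :: l) := rfl

lemma chg_cons_le (x : α) (l : List α) : chg (x :: l) ≤ 1 + chg l := by
  cases l with
  | nil => simp
  | cons y l =>
    rw [chg_cons_cons]
    have := neq_le_one x y
    omega

lemma chg_le_cons (x : α) (l : List α) : chg l ≤ chg (x :: l) := by
  cases l with
  | nil => simp
  | cons y l =>
    rw [chg_cons_cons]
    omega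

/-- inserting an element does not decrease the number of changes -/
lemma chg_cons_le_cons_cons (x y : α) (l : List α) : chg (x :: l) ≤ chg (x :: y :: l) := by
  cases l with
  | nil => simp
  | cons z l =>
    simp only [chg_cons_cons]
    have := neq_triangle x y z
    omega

lemma chg_cons_sublist {l l' : List α} (h : l.Sublist l') :
    ∀ x : α, chg (x :: l) ≤ chg (x :: l') := by
  induction h with
  | slnil => intro x; exact le_rfl
  | cons y h ih =>
    intro x
    exact (ih x).trans (chg_cons_le_cons_cons x y _)
  | cons_cons y h ih =>
    intro x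
    have := ih y
    simp only [chg_cons_cons]
    omega

/-- the number of changes of a sublist is at most that of the list -/
lemma chg_sublist {l l' : List α} (h : l.Sublist l') : chg l ≤ chg l' := by
  induction h with
  | slnil => exact le_rfl
  | cons y h ih => exact ih.trans (chg_le_cons y _)
  | cons_cons y h ih => exact chg_cons_sublist h y

lemma chg_append_le (l l' : List α) : chg (l ++ l') ≤ chg l + 1 + chg l' := by
  induction l with
  | nil => simp
  | cons x l ih =>
    cases l with
    | nil =>
      simp only [List.cons_append, List.nil_append, chg_singleton, zero_add]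
      exact chg_cons_le x l'
    | cons y l =>
      simp only [List.cons_append, chg_cons_cons] at ih ⊢
      omega

/-- a constant list has no change -/
lemma chg_of_forall_eq {c : α} : ∀ (l : List α), (∀ x ∈ l, x = c) → chg l = 0
  | [], _ => rfl
  | [_], _ => rfl
  | x :: y :: l, h => by
    rw [chg_cons_cons, chg_of_forall_eq (y :: l) (fun a ha => h a (List.mem_cons_of_mem _ ha)),
      h x (by simp), h y (by simp)]
    simp

/-- constant blocks equal to the boundary value can be removed -/
lemma chg_cons_append_const {c : α} (l l' : List α) (h : ∀ x ∈ l, x = c) :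
    chg (c :: (l ++ l')) = chg (c :: l') := by
  induction l with
  | nil => rfl
  | cons x l ih =>
    have hx : x = c := h x (by simp)
    subst hx
    rw [List.cons_append, chg_cons_cons, neq_self, zero_add]
    exact ih (fun a ha => h a (List.mem_cons_of_mem _ ha))

lemma chg_append_const {c : α} (l l' : List α) (h : ∀ x ∈ l', x = c) :
    chg (l ++ (l' ++ [c])) = chg (l ++ [c]) := by
  induction l with
  | nil =>
    rw [List.nil_append, List.nil_append, chg_singleton]
    apply chg_of_forall_eq (c := c)
    intro x hx
    rw [List.mem_append] at hx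
    rcases hx with hx | hx
    · exact h x hx
    · simpa using hx
  | cons x l ih =>
    cases l with
    | nil =>
      simp only [List.cons_append, List.nil_append]
      cases l' with
      | nil => rfl
      | cons y l' =>
        have hy : y = c := h y (by simp)
        subst hy
        rw [List.cons_append, chg_cons_cons, chg_cons_cons]
        rw [chg_of_forall_eq (c := y)]
        · simp
        · intro a ha
          rw [List.mem_cons, List.mem_append] at ha
          rcases ha with ha | ha | ha
          · exact ha
          · exact h a (List.mem_cons_of_mem _ ha)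
          · simpa using ha
    | cons y l =>
      simp only [List.cons_append, chg_cons_cons] at ih ⊢
      rw [ih]

/-- the number of distinct values is at most one more than the number of changes -/
lemma card_le_adj {β : Type*} (g : β → α) : ∀ (l : List β),
    ((l.map g).toFinset).card ≤ adj (fun x y => neq (g x) (g y)) l + 1
  | [] => by simp
  | [x] => by simp
  | x :: y :: l => by
    have ih := card_le_adj g (y :: l)
    rw [adj_cons_cons]
    by_cases h : g x = g y
    · have : ((x :: y :: l).map g).toFinset = ((y :: l).map g).toFinset := by
        ext a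
        simp only [List.map_cons, List.toFinset_cons, h, Finset.mem_insert]
        tauto
      rw [this]
      omega
    · rw [neq_of_ne h]
      have : (((x :: y :: l).map g).toFinset).card ≤ ((y :: l).map g).toFinset.card + 1 := by
        rw [List.map_cons, List.toFinset_cons]
        exact Finset.card_insert_le _ _
      omega

end chg

/-- sum over consecutive pairs of `List.ofFn` is at most the cyclic sum -/
lemma adj_ofFn_eq {α : Type*} (F : α → α → ℕ) : ∀ (m : ℕ) (v : Fin (m + 1) → α),
    adj F (List.ofFn v) = ∑ i : Fin m, F (v i.castSucc) (v i.succ)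
  | 0, v => by simp
  | m + 1, v => by
    have ih := adj_ofFn_eq F m (fun i => v i.succ)
    rw [List.ofFn_succ, Fin.sum_univ_succ]
    rw [List.ofFn_succ] at ih ⊢
    rw [adj_cons_cons, ih]
    rfl

lemma adj_ofFn_le {α : Type*} (F : α → α → ℕ) {n : ℕ} (v : Fin n → α) :
    adj F (List.ofFn v) ≤ ∑ i : Fin n, F (v i) (v (finRotate n i)) := by
  cases n with
  | zero => simp
  | succ m =>
    rw [adj_ofFn_eq, Fin.sum_univ_castSucc]
    have : ∀ i : Fin m, finRotate (m + 1) i.castSucc = i.succ := by
      intro i
      rw [finRotate_apply]
      exact Fin.coeSucc_eq_succ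
    simp only [this]
    omega

end Pool.Agent.H29.KConv
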