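import Pool.Agent.H29.KConv.Labels

/-!
# Large sets of labels contain long alternating patterns
-/

namespace Pool.Agent.H29.KConv

/-- `L` contains `u` and a sublist of length `2 F` whose entries are alternately smaller and
greater than `u`. -/
def Alt (L : List ℕ) (F : ℕ) : Prop :=
  ∃ u ∈ L, ∃ Z : List ℕ, Z.Sublist L ∧
    Z.map (fun x : ℕ => decide (u < x)) = altl false (2 * F) ∧ ∀ x ∈ Z, x ≠ u

lemma alt_zero {L : List ℕ} (h : L ≠ []) : Alt L 0 := by
  obtain ⟨u, hu⟩ := List.exists_mem_of_ne_nil L h
  exact ⟨u, hu, [], List.nil_sublist _, rfl, by simp⟩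

lemma Alt.sublist {L L' : List ℕ} {F : ℕ} (h : Alt L F) (hL : L.Sublist L') : Alt L' F := by
  obtain ⟨u, hu, Z, hZ, h1, h2⟩ := h
  exact ⟨u, hL.subset hu, Z, hZ.trans hL, h1, h2⟩

lemma Alt.map_add {L : List ℕ} {F : ℕ} (h : Alt L F) (c : ℕ) :
    Alt (L.map fun x => x + c) F := by
  obtain ⟨u, hu, Z, hZ, h1, h2⟩ := h
  refine ⟨u + c, List.mem_map_of_mem hu, Z.map fun x => x + c, hZ.map _, ?_, ?_⟩
  · rw [List.map_map, ← h1]
    apply List.map_congr_left
    intro x _
    simp
  · intro x hx
    rw [List.mem_map] at hx
    obtain ⟨y, hy, rfl⟩ := hx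
    have := h2 y hy
    omega

/-- a sublist of a concatenation of blocks -/
lemma sublist_flatMap_range {α : Type*} (blk : ℕ → List α) : ∀ (m : ℕ) (L : List α),
    L.Sublist ((List.range m).flatMap blk) →
    ∃ g : ℕ → List α, (∀ d, (g d).Sublist (blk d)) ∧ L = (List.range m).flatMap g
  | 0, L, h => by
    refine ⟨fun _ => [], fun d => List.nil_sublist _, ?_⟩
    simpa using h
  | m + 1, L, h => by
    rw [List.range_succ, List.flatMap_append, List.sublist_append_iff] at h
    obtain ⟨L1, L2, rfl, h1, h2⟩ := h
    obtain ⟨g, hg, hL1⟩ := sublist_flatMap_range blk m L1 h1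
    refine ⟨fun d => if d < m then g d else if d = m then L2 else [], ?_, ?_⟩
    · intro d
      simp only
      split_ifs with h3 h4
      · exact hg d
      · subst h4
        simpa using h2
      · exact List.nil_sublist _
    · rw [List.range_succ, List.flatMap_append]
      congr 1
      · rw [hL1]
        apply List.flatMap_congr
        intro d hd
        rw [List.mem_range] at hd
        simp [hd]
      · simp

lemma sublist_flatMap_of_mem {α : Type*} (g : ℕ → List α) {m d : ℕ} (hd : d < m) :
    (g d).Sublist ((List.range m).flatMap g) := by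
  have h : ([d] : List ℕ).Sublist (List.range m) := by
    rw [List.singleton_sublist]
    exact List.mem_range.2 hd
  have := h.flatMap g
  simpa using this

lemma pair_sublist_range {m d d' : ℕ} (h : d < d') (h' : d' < m) :
    ([d, d'] : List ℕ).Sublist (List.range m) := by
  obtain ⟨b, rfl⟩ : ∃ b, m = d' + b := ⟨m - d', by omega⟩
  rw [List.range_add]
  have e : ([d, d'] : List ℕ) = [d] ++ [d'] := rfl
  rw [e]
  apply List.Sublist.append
  · rw [List.singleton_sublist]
    exact List.mem_range.2 h
  · rw [List.singleton_sublist, List.mem_map]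
    exact ⟨0, List.mem_range.2 (by omega), by simp⟩

lemma sublist_flatMap_of_lt {α : Type*} (g : ℕ → List α) {m d d' : ℕ} (h : d < d') (h' : d' < m) :
    (g d ++ g d').Sublist ((List.range m).flatMap g) := by
  have := (pair_sublist_range h h').flatMap g
  simpa using this

/-- length bound when all blocks after the first nonempty one are small -/
lemma length_flatMap_le {α : Type*} (g : ℕ → List α) (a b : ℕ) : ∀ (m : ℕ),
    (∀ d < m, (g d).length ≤ a) →
    (∀ d < m, ∀ d' < d, g d' ≠ [] → (g d).length ≤ b) →
    ((List.range m).flatMap g).length ≤ a + m * b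
  | 0, _, _ => by simp
  | m + 1, h1, h2 => by
    have ih := length_flatMap_le g a b m (fun d hd => h1 d (by omega))
      (fun d hd => h2 d (by omega))
    rw [List.range_succ, List.flatMap_append, List.length_append]
    have e : ([m] : List ℕ).flatMap g = g m := by simp
    rw [e]
    by_cases hex : ∃ d' < m, g d' ≠ []
    · obtain ⟨d', hd', hne⟩ := hex
      have := h2 m (by omega) d' hd' hne
      nlinarith
    · push Not at hex
      have : (List.range m).flatMap g = [] := by
        rw [List.flatMap_eq_nil_iff]
        intro d hd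
        exact hex d (List.mem_range.1 hd)
      rw [this]
      have := h1 m (by omega)
      simp only [List.length_nil, zero_add]
      nlinarith [Nat.zero_le ((m + 1) * b)]

lemma length_flatMap_le' {α : Type*} (g : ℕ → List α) (a : ℕ) : ∀ (m : ℕ),
    (∀ d < m, (g d).length ≤ a) → ((List.range m).flatMap g).length ≤ m * a
  | 0, _ => by simp
  | m + 1, h1 => by
    have ih := length_flatMap_le' g a m (fun d hd => h1 d (by omega))
    rw [List.range_succ, List.flatMap_append, List.length_append]
    have e : ([m] : List ℕ).flatMap g = g m := by simp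
    rw [e]
    have := h1 m (by omega)
    nlinarith

/-- the bound -/
def nb (m R : ℕ) : ℕ → ℕ
  | 0 => 0
  | F + 1 => 3 ^ R * m ^ (R + F)

theorem length_le_of_not_alt {m : ℕ} (hm : 1 ≤ m) : ∀ (R F : ℕ) (L : List ℕ),
    L.Sublist (labs m R) → ¬ Alt L F → L.length ≤ nb m R F
  | R, 0, L, _, h => by
    have : L = [] := by
      by_contra hne
      exact h (alt_zero hne)
    simp [this]
  | 0, F + 1, L, hL, _ => by
    have h1 := hL.length_le
    simp only [labs, List.length_singleton] at h1
    refine h1.trans ?_
    simp only [nb, pow_zero, one_mul, zero_add]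
    exact Nat.one_le_pow _ _ hm
  | R + 1, F + 1, L, hL, hnot => by
    simp only [labs] at hL
    obtain ⟨g1, hg1, hL1⟩ := sublist_flatMap_range _ m L hL
    have hex := fun d1 => sublist_flatMap_range _ m (g1 d1) (hg1 d1)
    choose g2 hg2 hg12 using hex
    -- properties of the blocks
    have hmemblk : ∀ d1 d2, ∀ x ∈ g2 d1 d2, (d1 * m + (m - 1 - d2)) * m ^ (2 * R) ≤ x ∧
        x < (d1 * m + (m - 1 - d2) + 1) * m ^ (2 * R) := by
      intro d1 d2 x hx
      have hx' := (hg2 d1 d2).subset hx
      rw [List.mem_map] at hx'
      obtain ⟨y, hy, rfl⟩ := hx'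
      have := labs_lt m R y hy
      rw [add_mul _ 1, one_mul]
      omega
    have hsub2 : ∀ d1 < m, ∀ d2 < m, (g2 d1 d2).Sublist L := by
      intro d1 h1 d2 h2
      have e1 : (g2 d1 d2).Sublist (g1 d1) := by
        rw [hg12 d1]
        exact sublist_flatMap_of_mem _ h2
      have e2 : (g1 d1).Sublist L := by
        rw [hL1]
        exact sublist_flatMap_of_mem _ h1
      exact e1.trans e2
    have hblk : ∀ F' d1 d2, ¬ Alt (g2 d1 d2) F' → (g2 d1 d2).length ≤ nb m R F' := by
      intro F' d1 d2 hna
      have h := hg2 d1 d2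
      rw [List.sublist_map_iff] at h
      obtain ⟨L', hL', heq⟩ := h
      rw [heq, List.length_map]
      apply length_le_of_not_alt hm R F' L' hL'
      intro hA
      apply hna
      rw [heq]
      exact hA.map_add _
    have hi : ∀ d1 < m, ∀ d2 < m, (g2 d1 d2).length ≤ nb m R (F + 1) := by
      intro d1 h1 d2 h2
      apply hblk
      intro hA
      exact hnot (hA.sublist (hsub2 d1 h1 d2 h2))
    have hii : ∀ d1 < m, ∀ d1' < d1, g1 d1' ≠ [] → ∀ d2 < m, ∀ d2' < d2, g2 d1 d2' ≠ [] →
        (g2 d1 d2).length ≤ nb m R F := by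
      intro d1 h1 d1' h1' hne1 d2 h2 d2' h2' hne2
      apply hblk
      intro hA
      apply hnot
      obtain ⟨u, hu, Z, hZ, hZ1, hZ2⟩ := hA
      obtain ⟨z, hz⟩ := List.exists_mem_of_ne_nil _ hne1
      obtain ⟨z', hz'⟩ := List.exists_mem_of_ne_nil _ hne2
      have hu' := hmemblk d1 d2 u hu
      have hz'' := hmemblk d1 d2' z' hz'
      have hzu : z < u := by
        rw [hg12 d1', List.mem_flatMap] at hz
        obtain ⟨d2'', hd2'', hz⟩ := hz
        rw [List.mem_range] at hd2''
        have hz3 := hmemblk d1' d2'' z hz
        have hlt : d1' * m + (m - 1 - d2'') + 1 ≤ d1 * m + (m - 1 - d2) := by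
          have : d1' * m + m ≤ d1 * m := by
            have := Nat.mul_le_mul_right m (show d1' + 1 ≤ d1 from h1')
            nlinarith
          omega
        have := Nat.mul_le_mul_right (m ^ (2 * R)) hlt
        omega
      have huz' : u < z' := by
        have hlt : d1 * m + (m - 1 - d2) + 1 ≤ d1 * m + (m - 1 - d2') := by omega
        have := Nat.mul_le_mul_right (m ^ (2 * R)) hlt
        omega
      refine ⟨u, (hsub2 d1 h1 d2 h2).subset hu, z :: z' :: Z, ?_, ?_, ?_⟩
      · have e1 : (z' :: Z).Sublist (g1 d1) := by
          have e2 : (g2 d1 d2' ++ g2 d1 d2).Sublist (g1 d1) := by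
            rw [hg12 d1]
            exact sublist_flatMap_of_lt _ h2' h2
          refine List.Sublist.trans ?_ e2
          have : z' :: Z = [z'] ++ Z := rfl
          rw [this]
          exact List.Sublist.append (List.singleton_sublist.2 hz') hZ
        have e3 : (g1 d1' ++ g1 d1).Sublist L := by
          rw [hL1]
          exact sublist_flatMap_of_lt _ h1' h1
        refine List.Sublist.trans ?_ e3
        have : z :: z' :: Z = [z] ++ (z' :: Z) := rfl
        rw [this]
        exact List.Sublist.append (List.singleton_sublist.2 hz) e1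
      · have e : 2 * (F + 1) = 2 * F + 1 + 1 := by ring
        rw [e]
        simp only [List.map_cons, altl, Bool.not_false, Bool.not_true, hZ1]
        congr 1
        · simp only [decide_eq_false_iff_not]
          omega
        · congr 1
          simp only [decide_eq_true_eq]
          exact huz'
      · intro x hx
        rw [List.mem_cons, List.mem_cons] at hx
        rcases hx with rfl | rfl | hx
        · omega
        · omega
        · exact hZ2 x hx
    have hiii : ∀ d1 < m, (g1 d1).length ≤ m * nb m R (F + 1) := by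
      intro d1 h1
      rw [hg12 d1]
      exact length_flatMap_le' _ _ m (hi d1 h1)
    have hiv : ∀ d1 < m, ∀ d1' < d1, g1 d1' ≠ [] →
        (g1 d1).length ≤ nb m R (F + 1) + m * nb m R F := by
      intro d1 h1 d1' h1' hne
      rw [hg12 d1]
      exact length_flatMap_le _ _ _ m (hi d1 h1) (hii d1 h1 d1' h1' hne)
    have hv : L.length ≤ m * nb m R (F + 1) + m * (nb m R (F + 1) + m * nb m R F) := by
      rw [hL1]
      exact length_flatMap_le _ _ _ m hiii hiv
    refine hv.trans ?_
    cases F with
    | zero =>
      simp only [nb, mul_zero, add_zero]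
      have : 3 ^ (R + 1) * m ^ (R + 1) = 3 * (m * (3 ^ R * m ^ R)) := by ring
      rw [this]
      omega
    | succ F =>
      simp only [nb]
      have : 3 ^ (R + 1) * m ^ (R + 1 + (F + 1)) = 3 * (m * (3 ^ R * m ^ (R + (F + 1)))) := by
        ring
      rw [this]
      have : m * (m * (3 ^ R * m ^ (R + F))) = m * (3 ^ R * m ^ (R + (F + 1))) := by ring
      rw [mul_add, this]
      omega

end Pool.Agent.H29.KConv
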