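import Pool.Agent.H29.KConv.Adj

/-!
# An averaging argument for cyclic orders on the leaves of a complete binary tree
-/

namespace Pool.Agent.H29.KConv

/-- all lists of `n` bits, in lexicographic order -/
def allB : ℕ → List (List Bool)
  | 0 => [[]]
  | n + 1 => (allB n).map (List.cons false) ++ (allB n).map (List.cons true)

lemma mem_allB : ∀ (n : ℕ) (b : List Bool), b ∈ allB n ↔ b.length = n
  | 0, b => by
    simp only [allB, List.mem_singleton]
    exact List.length_eq_zero_iff.symm
  | n + 1, [] => by
    simp [allB]
  | n + 1, x :: b => by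
    have ih := mem_allB n b
    simp only [allB, List.mem_append, List.mem_map, List.cons.injEq, List.length_cons]
    cases x <;> simp [ih]

lemma length_allB : ∀ (n : ℕ), (allB n).length = 2 ^ n
  | 0 => rfl
  | n + 1 => by
    simp only [allB, List.length_append, List.length_map, length_allB n]
    ring

lemma nodup_allB : ∀ (n : ℕ), (allB n).Nodup
  | 0 => by simp [allB]
  | n + 1 => by
    have ih := nodup_allB n
    simp only [allB]
    rw [List.nodup_append]
    refine ⟨ih.map (fun a b h => by simpa using h), ih.map (fun a b h => by simpa using h), ?_⟩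
    intro a ha b hb hab
    simp only [List.mem_map] at ha hb
    obtain ⟨a', _, rfl⟩ := ha
    obtain ⟨b', _, rfl⟩ := hb
    simp at hab

/-- the colour of `a` as seen from `a0`, for the sign sequence `es` -/
def col : List Bool → List Bool → List Bool → Bool
  | e :: es, x :: a0, y :: a => if x = y then col es a0 a else (y == e)
  | _, _, _ => false

/-- alternating list -/
def altl : Bool → ℕ → List Bool
  | _, 0 => []
  | b, n + 1 => b :: altl (!b) n

/-- weight of a pair of leaves -/
def wt (D : ℕ) (p q : List Bool) : ℕ :=
  ∑ l ∈ Finset.range D, 2 ^ (D - 1 - l) * neq (p.take l) (q.take l)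

/-- number of mismatches of a pair of leaves -/
def beta (D : ℕ) (b : Bool) (p q : List Bool) : ℕ :=
  ((allB D).map fun a0 => neq (col (List.replicate D true) a0 p) (col (List.replicate D true) a0 q)
    + neq (col (altl b D) a0 p) (col (altl b D) a0 q)).sum

lemma two_pow_sum (D : ℕ) : ∑ i ∈ Finset.range D, 2 ^ i + 1 = 2 ^ D := by
  induction D with
  | zero => simp
  | succ D ih =>
    rw [Finset.sum_range_succ, pow_succ]
    omega

lemma two_pow_sum' (D : ℕ) : ∑ i ∈ Finset.range D, 2 ^ (D - 1 - i) + 1 = 2 ^ D := by
  rw [Finset.sum_range_reflect (fun i => 2 ^ i) D]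
  exact two_pow_sum D

lemma wt_succ (D : ℕ) (x y : Bool) (p q : List Bool) :
    wt (D + 1) (x :: p) (y :: q) =
      ∑ l ∈ Finset.range D, 2 ^ (D - 1 - l) * neq (x :: p.take l) (y :: q.take l) := by
  unfold wt
  rw [Finset.sum_range_succ']
  simp only [List.take_zero, neq_self, mul_zero, add_zero, List.take_succ_cons]
  apply Finset.sum_congr rfl
  intro l _
  congr 2
  omega

lemma wt_cons (D : ℕ) (x : Bool) (p q : List Bool) :
    wt (D + 1) (x :: p) (x :: q) = wt D p q := by
  rw [wt_succ]
  unfold wt
  apply Finset.sum_congr rfl
  intro l _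
  congr 1
  unfold neq
  simp

lemma wt_le (D : ℕ) (x y : Bool) (p q : List Bool) :
    wt (D + 1) (x :: p) (y :: q) + 1 ≤ 2 ^ D := by
  rw [wt_succ]
  have h1 : ∑ l ∈ Finset.range D, 2 ^ (D - 1 - l) * neq (x :: p.take l) (y :: q.take l) ≤
      ∑ l ∈ Finset.range D, 2 ^ (D - 1 - l) := by
    apply Finset.sum_le_sum
    intro l _
    have := neq_le_one (x :: p.take l) (y :: q.take l)
    calc 2 ^ (D - 1 - l) * neq (x :: p.take l) (y :: q.take l) ≤ 2 ^ (D - 1 - l) * 1 :=
          Nat.mul_le_mul_left _ this
      _ = _ := by ring
  have := two_pow_sum' D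
  omega

lemma length_le_sum {α : Type*} (l : List α) (F : α → ℕ) (h : ∀ a ∈ l, 1 ≤ F a) :
    l.length ≤ (l.map F).sum := by
  induction l with
  | nil => simp
  | cons a l ih =>
    simp only [List.length_cons, List.map_cons, List.sum_cons]
    have h1 := h a (by simp)
    have h2 := ih (fun b hb => h b (List.mem_cons_of_mem _ hb))
    omega

lemma quarter1 (D : ℕ) (b x x' y : Bool) (p' q a : List Bool) (hxy : ¬ x = y) :
    1 ≤ neq (col (List.replicate (D + 1 + 1) true) (x :: (!x') :: a) (x :: x' :: p'))
        (col (List.replicate (D + 1 + 1) true) (x :: (!x') :: a) (y :: q))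
      + neq (col (altl b (D + 1 + 1)) (x :: (!x') :: a) (x :: x' :: p'))
        (col (altl b (D + 1 + 1)) (x :: (!x') :: a) (y :: q)) := by
  have hy : y = !x := by
    cases x <;> cases y <;> simp_all
  subst hy
  clear hxy
  cases x <;> cases x' <;> cases b <;> simp [col, altl, List.replicate_succ, neq]

lemma quarter2 (D : ℕ) (b x y y' : Bool) (p q' a : List Bool) (hxy : ¬ x = y) :
    1 ≤ neq (col (List.replicate (D + 1 + 1) true) (y :: (!y') :: a) (x :: p))
        (col (List.replicate (D + 1 + 1) true) (y :: (!y') :: a) (y :: y' :: q'))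
      + neq (col (altl b (D + 1 + 1)) (y :: (!y') :: a) (x :: p))
        (col (altl b (D + 1 + 1)) (y :: (!y') :: a) (y :: y' :: q')) := by
  have hy : y = !x := by
    cases x <;> cases y <;> simp_all
  subst hy
  clear hxy
  cases x <;> cases y' <;> cases b <;> simp [col, altl, List.replicate_succ, neq]

lemma wt_le_beta : ∀ (D : ℕ) (b : Bool) (p q : List Bool), p.length = D → q.length = D →
    wt D p q ≤ beta D b p q
  | 0, b, p, q, _, _ => by simp [wt]
  | D + 1, b, [], q, hp, _ => by simp at hp
  | D + 1, b, _ :: _, [], _, hq => by simp at hq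
  | D + 1, b, x :: p, y :: q, hp, hq => by
    simp only [List.length_cons, add_left_inj] at hp hq
    by_cases hxy : x = y
    · subst hxy
      rw [wt_cons]
      refine (wt_le_beta D (!b) p q hp hq).trans ?_
      unfold beta
      rw [allB, List.map_append, List.map_map, List.map_map, List.sum_append]
      cases x
      · refine le_trans (le_of_eq ?_) (Nat.le_add_right _ _)
        congr 1
      · refine le_trans (le_of_eq ?_) (Nat.le_add_left _ _)
        congr 1
    · rcases D with _ | D
      · have := wt_le 0 x y p q
        omega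
      · obtain ⟨x', p', rfl⟩ : ∃ x' p', p = x' :: p' := by
          cases p with
          | nil => simp at hp
          | cons a l => exact ⟨a, l, rfl⟩
        obtain ⟨y', q', rfl⟩ : ∃ y' q', q = y' :: q' := by
          cases q with
          | nil => simp at hq
          | cons a l => exact ⟨a, l, rfl⟩
        have h1 := wt_le (D + 1) x y (x' :: p') (y' :: q')
        refine le_trans (Nat.le_of_succ_le h1) ?_
        -- two of the four quarters contribute
        have hq1 : 2 ^ D ≤ (((allB D).map (List.cons (!x'))).map (List.cons x) |>.map fun a0 =>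
            neq (col (List.replicate (D + 1 + 1) true) a0 (x :: x' :: p'))
              (col (List.replicate (D + 1 + 1) true) a0 (y :: y' :: q'))
            + neq (col (altl b (D + 1 + 1)) a0 (x :: x' :: p'))
              (col (altl b (D + 1 + 1)) a0 (y :: y' :: q'))).sum := by
          rw [← length_allB D, List.map_map, List.map_map]
          apply length_le_sum
          intro a _
          exact quarter1 D b x x' y p' (y' :: q') a hxy
        have hq2 : 2 ^ D ≤ (((allB D).map (List.cons (!y'))).map (List.cons y) |>.map fun a0 =>
            neq (col (List.replicate (D + 1 + 1) true) a0 (x :: x' :: p'))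
              (col (List.replicate (D + 1 + 1) true) a0 (y :: y' :: q'))
            + neq (col (altl b (D + 1 + 1)) a0 (x :: x' :: p'))
              (col (altl b (D + 1 + 1)) a0 (y :: y' :: q'))).sum := by
          rw [← length_allB D, List.map_map, List.map_map]
          apply length_le_sum
          intro a _
          exact quarter2 D b x y y' (x' :: p') q' a hxy
        unfold beta
        rw [allB, List.map_append, List.sum_append, allB]
        simp only [List.map_append, List.sum_append]
        have hpow : 2 ^ (D + 1) = 2 ^ D + 2 ^ D := by ring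
        have hy : y = !x := by
          cases x <;> cases y <;> simp_all
        subst hy
        cases x <;> cases x' <;> cases y' <;>
          simp only [Bool.not_true, Bool.not_false] at hq1 hq2 ⊢ <;> omega

/-- Averaging: if a list visits all leaves of the complete binary tree of depth `D ≥ 8 j + 2`,
then for one of the two sign sequences some leaf sees more than `2 j` colour changes. -/
theorem averaging {D j : ℕ} (b : Bool) (hD : 8 * j + 2 ≤ D) (La : List (List Bool))
    (hcov : ∀ a ∈ allB D, a ∈ La) (hlen : ∀ a ∈ La, a.length = D)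
    (h1 : ∀ a0 ∈ allB D, chg (La.map (col (List.replicate D true) a0)) ≤ 2 * j)
    (h2 : ∀ a0 ∈ allB D, chg (La.map (col (altl b D) a0)) ≤ 2 * j) : False := by
  classical
  -- upper bound for the total number of mismatches
  have hup : adj (beta D b) La ≤ 2 ^ D * (4 * j) := by
    have e1 : adj (beta D b) La = ((allB D).map fun a0 =>
        chg (La.map (col (List.replicate D true) a0)) + chg (La.map (col (altl b D) a0))).sum := by
      unfold beta
      rw [adj_list_sum]
      congr 1
      apply List.map_congr_left
      intro a0 _
      rw [adj_add]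
      unfold chg
      rw [adj_map, adj_map]
    rw [e1]
    have e2 : ((allB D).map fun a0 =>
        chg (La.map (col (List.replicate D true) a0)) + chg (La.map (col (altl b D) a0))).sum ≤
        ((allB D).map fun a0 => chg (La.map (col (List.replicate D true) a0)) +
          chg (La.map (col (altl b D) a0))).length * (4 * j) := by
      apply List.sum_le_card_nsmul
      intro x hx
      simp only [List.mem_map] at hx
      obtain ⟨a0, ha0, rfl⟩ := hx
      have := h1 a0 ha0
      have := h2 a0 ha0
      omega
    rw [List.length_map, length_allB] at e2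
    exact e2
  -- lower bound
  have hlow : adj (wt D) La ≤ adj (beta D b) La :=
    adj_mono La fun p hp q hq => wt_le_beta D b p q (hlen p hp) (hlen q hq)
  have hwt : adj (wt D) La = ∑ l ∈ Finset.range D, 2 ^ (D - 1 - l) *
      adj (fun p q : List Bool => neq (p.take l) (q.take l)) La := by
    unfold wt
    rw [adj_sum]
    apply Finset.sum_congr rfl
    intro l _
    rw [adj_mul]
  have hN : ∀ l ∈ Finset.range D, 2 ^ l ≤
      adj (fun p q : List Bool => neq (p.take l) (q.take l)) La + 1 := by
    intro l hl
    rw [Finset.mem_range] at hl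
    refine le_trans ?_ (card_le_adj (fun p : List Bool => p.take l) La)
    rw [← length_allB l, ← List.toFinset_card_of_nodup (nodup_allB l)]
    apply Finset.card_le_card
    intro a ha
    rw [List.mem_toFinset, mem_allB] at ha
    rw [List.mem_toFinset, List.mem_map]
    refine ⟨a ++ List.replicate (D - l) false, ?_, ?_⟩
    · apply hcov
      rw [mem_allB, List.length_append, List.length_replicate]
      omega
    · rw [List.take_append_of_le_length (by omega), ← ha, List.take_length]
  have hsum : ∑ l ∈ Finset.range D, 2 ^ (D - 1 - l) * 2 ^ l ≤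
      ∑ l ∈ Finset.range D, 2 ^ (D - 1 - l) *
        (adj (fun p q : List Bool => neq (p.take l) (q.take l)) La + 1) :=
    Finset.sum_le_sum fun l hl => Nat.mul_le_mul_left _ (hN l hl)
  have e3 : ∑ l ∈ Finset.range D, 2 ^ (D - 1 - l) * 2 ^ l = D * 2 ^ (D - 1) := by
    rw [Finset.sum_congr rfl (g := fun _ => 2 ^ (D - 1))]
    · simp
    · intro l hl
      rw [Finset.mem_range] at hl
      rw [← pow_add]
      congr 1
      omega
  have e4 : ∑ l ∈ Finset.range D, 2 ^ (D - 1 - l) *
        (adj (fun p q : List Bool => neq (p.take l) (q.take l)) La + 1) =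
      adj (wt D) La + ∑ l ∈ Finset.range D, 2 ^ (D - 1 - l) := by
    rw [hwt, ← Finset.sum_add_distrib]
    apply Finset.sum_congr rfl
    intro l _
    ring
  have e5 := two_pow_sum' D
  have hpow : 2 ^ D = 2 * 2 ^ (D - 1) := by
    obtain ⟨d, rfl⟩ : ∃ d, D = d + 1 := ⟨D - 1, by omega⟩
    simp [pow_succ]
    ring
  have hfin : (8 * j + 2) * 2 ^ (D - 1) ≤ D * 2 ^ (D - 1) := Nat.mul_le_mul_right _ hD
  rw [e3, e4] at hsum
  have : 2 ^ D * (4 * j) + 2 ^ D = (8 * j + 2) * 2 ^ (D - 1) := by
    rw [hpow]
    ring
  omega

end Pool.Agent.H29.KConv
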