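import Pool.Agent.H29.KConv.Points

/-!
# Lines cross the leaf sequence only a bounded number of times
-/

namespace Pool.Agent.H29.KConv

/-- for every leaf, is the leaf on or below the line `y = σ x + τ`? -/
noncomputable def TL (B σ τ : ℝ) (L : List ℕ) : List Bool :=
  (allB L.length).map fun b => decide (val B σ b L ≤ τ)

/-- signs of the slopes -/
noncomputable def sg (σ : ℝ) (L : List ℕ) : List Bool := L.map fun x : ℕ => decide (σ < (x : ℝ))

lemma TL_cons (B σ τ : ℝ) (s : ℕ) (L : List ℕ) :
    TL B σ τ (s :: L) = TL B σ τ L ++ TL B σ (τ - B ^ L.length * ((s : ℝ) - σ)) L := by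
  unfold TL
  rw [List.length_cons, allB, List.map_append, List.map_map, List.map_map]
  congr 1
  · apply List.map_congr_left
    intro b _
    simp [val]
  · apply List.map_congr_left
    intro b _
    simp only [Function.comp_apply, val, if_true]
    congr 1
    apply propext
    constructor <;> intro h <;> linarith

lemma chg_switch (e : Bool) (X : List Bool) :
    chg (e :: (X ++ [!e])) ≤ chg ((!e) :: (X ++ [e])) + 2 := by
  have h1 := chg_cons_le e (X ++ [!e])
  have h2 := chg_append_le X [!e]
  have h3 : chg X ≤ chg ((!e) :: (X ++ [e])) := by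
    apply chg_sublist
    exact (List.sublist_append_left X [e]).cons _
  simp only [chg_singleton] at h2
  omega

/-- a dominant weight does not increase the number of changes -/
lemma chg_dominant {T : ℕ} {σ : ℝ} {s : ℕ} {L : List ℕ} (hs : s < T) (hL : ∀ x ∈ L, x < T)
    (hσ : 1 / 2 ≤ |(s : ℝ) - σ|) (e : Bool) (he : e = decide (σ < (s : ℝ))) (C : ℕ)
    (hC : ∀ τ, chg (e :: (TL (base T) σ τ L ++ [!e])) ≤ C) (τ : ℝ) :
    chg (e :: (TL (base T) σ τ (s :: L) ++ [!e])) ≤ C := by
  set m := L.length with hm
  set K : ℝ := |(s : ℝ) - σ| + T with hK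
  have hT0 : (0 : ℝ) ≤ T := Nat.cast_nonneg T
  have hK0 : 0 ≤ K := by positivity
  have hG0 := G_nonneg (base_nonneg T) m
  have hG := G_lt T m
  have hbound : ∀ x ∈ L, |(x : ℝ) - σ| ≤ K := by
    intro x hx
    have h1 : |(x : ℝ) - σ| ≤ |(x : ℝ) - s| + |(s : ℝ) - σ| := by
      have : (x : ℝ) - σ = ((x : ℝ) - s) + ((s : ℝ) - σ) := by ring
      rw [this]
      exact abs_add_le _ _
    have h2 : |(x : ℝ) - s| ≤ T := by
      have hx' : (x : ℝ) < T := by exact_mod_cast hL x hx
      have hs' : (s : ℝ) < T := by exact_mod_cast hs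
      rw [abs_le]
      constructor
      · have : (0 : ℝ) ≤ x := Nat.cast_nonneg x
        linarith
      · have : (0 : ℝ) ≤ s := Nat.cast_nonneg s
        linarith
    linarith
  have hval : ∀ b, |val (base T) σ b L| ≤ K * G (base T) m := fun b =>
    abs_val_le (base_nonneg T) hK0 b L hbound
  have hdom : 2 * (K * G (base T) m) < |(s : ℝ) - σ| * base T ^ m := by
    have h1 : K ≤ (1 + 2 * T) * |(s : ℝ) - σ| := by
      have := mul_le_mul_of_nonneg_left hσ (show (0 : ℝ) ≤ 2 * T by positivity)
      rw [hK]
      linarith
    have h2 : 2 * (K * G (base T) m) ≤ 2 * ((1 + 2 * T) * |(s : ℝ) - σ| * G (base T) m) := by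
      have := mul_le_mul_of_nonneg_right h1 hG0
      linarith
    have h3 : 0 < |(s : ℝ) - σ| := by linarith
    have h4 := mul_lt_mul_of_pos_left hG h3
    have h5 : 0 ≤ |(s : ℝ) - σ| * G (base T) m := mul_nonneg h3.le hG0
    nlinarith
  rw [TL_cons]
  have hpow : 0 < base T ^ m := pow_pos (base_pos T) _
  by_cases hpos : σ < (s : ℝ)
  · have he' : e = true := by rw [he]; simpa using hpos
    subst he'
    have hw : base T ^ m * ((s : ℝ) - σ) = |(s : ℝ) - σ| * base T ^ m := by
      rw [abs_of_pos (by linarith)]
      ring
    rw [← hm, hw]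
    by_cases hτ : K * G (base T) m ≤ τ
    · have hall : ∀ x ∈ TL (base T) σ τ L, x = true := by
        intro x hx
        unfold TL at hx
        rw [List.mem_map] at hx
        obtain ⟨b, _, rfl⟩ := hx
        have := (abs_le.1 (hval b)).2
        simp only [decide_eq_true_eq]
        linarith
      rw [List.append_assoc, chg_cons_append_const _ _ hall]
      exact hC _
    · rw [not_le] at hτ
      have hall : ∀ x ∈ TL (base T) σ (τ - |(s : ℝ) - σ| * base T ^ m) L, x = false := by
        intro x hx
        unfold TL at hx
        rw [List.mem_map] at hx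
        obtain ⟨b, _, rfl⟩ := hx
        have := (abs_le.1 (hval b)).1
        simp only [decide_eq_false_iff_not, not_le]
        linarith
      rw [List.append_assoc, ← List.cons_append]
      rw [Bool.not_true, chg_append_const _ _ hall]
      exact hC _
  · have he' : e = false := by rw [he]; simpa using hpos
    subst he'
    have hw : base T ^ m * ((s : ℝ) - σ) = - (|(s : ℝ) - σ| * base T ^ m) := by
      rw [abs_of_nonpos (by linarith)]
      ring
    rw [← hm, hw]
    by_cases hτ : τ < - (K * G (base T) m)
    · have hall : ∀ x ∈ TL (base T) σ τ L, x = false := by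
        intro x hx
        unfold TL at hx
        rw [List.mem_map] at hx
        obtain ⟨b, _, rfl⟩ := hx
        have := (abs_le.1 (hval b)).1
        simp only [decide_eq_false_iff_not, not_le]
        linarith
      rw [List.append_assoc, chg_cons_append_const _ _ hall]
      exact hC _
    · rw [not_lt] at hτ
      have hall : ∀ x ∈ TL (base T) σ (τ - - (|(s : ℝ) - σ| * base T ^ m)) L, x = true := by
        intro x hx
        unfold TL at hx
        rw [List.mem_map] at hx
        obtain ⟨b, _, rfl⟩ := hx
        have := (abs_le.1 (hval b)).2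
        simp only [decide_eq_true_eq]
        linarith
      rw [List.append_assoc, ← List.cons_append]
      rw [Bool.not_false, chg_append_const _ _ hall]
      exact hC _

lemma chg_TL_of_far {T : ℕ} {σ : ℝ} : ∀ (L : List ℕ), (∀ x ∈ L, x < T) →
    (∀ x ∈ L, 1 / 2 ≤ |(x : ℝ) - σ|) → ∀ (e : Bool) (τ : ℝ),
    chg (e :: (TL (base T) σ τ L ++ [!e])) ≤ 1 + 2 * chg (e :: sg σ L)
  | [], _, _, e, τ => by
    have : TL (base T) σ τ [] = [decide (0 ≤ τ)] := by
      simp [TL, allB, val]
    rw [this]
    cases e <;> by_cases h : 0 ≤ τ <;> simp [h, sg, neq]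
  | s :: L, h1, h2, e, τ => by
    have hs := h1 s (by simp)
    have hL : ∀ x ∈ L, x < T := fun x hx => h1 x (List.mem_cons_of_mem _ hx)
    have hfar : ∀ x ∈ L, 1 / 2 ≤ |(x : ℝ) - σ| := fun x hx => h2 x (List.mem_cons_of_mem _ hx)
    have ih := chg_TL_of_far L hL hfar
    have hdom := fun e' he' C hC => chg_dominant (T := T) (σ := σ) hs hL (h2 s (by simp)) e' he' C hC τ
    by_cases he : e = decide (σ < (s : ℝ))
    · have := hdom e he _ (ih e)
      refine this.trans ?_
      simp only [sg, List.map_cons, chg_cons_cons, ← he, neq_self, zero_add]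
      exact le_rfl
    · have he' : (!e) = decide (σ < (s : ℝ)) := by
        cases e <;> cases h : decide (σ < (s : ℝ)) <;> simp_all
      have h3 := hdom (!e) he' _ (ih (!e))
      have h4 := chg_switch e (TL (base T) σ τ (s :: L))
      rw [Bool.not_not] at h3
      have h5 : chg (e :: sg σ (s :: L)) = 1 + chg ((!e) :: sg σ L) := by
        simp only [sg, List.map_cons, chg_cons_cons, ← he']
        rw [neq_of_ne (by simp)]
      omega

lemma chg_TL {T : ℕ} {σ : ℝ} : ∀ (L : List ℕ), L.Nodup → (∀ x ∈ L, x < T) →
    ∀ (e : Bool) (τ : ℝ),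
    chg (e :: (TL (base T) σ τ L ++ [!e])) ≤ 3 + 4 * chg (e :: sg σ L)
  | [], _, _, e, τ => by
    have h := chg_TL_of_far (T := T) (σ := σ) [] (by simp) (by simp) e τ
    omega
  | s :: L, hnd, h1, e, τ => by
    have hs := h1 s (by simp)
    have hL : ∀ x ∈ L, x < T := fun x hx => h1 x (List.mem_cons_of_mem _ hx)
    rw [List.nodup_cons] at hnd
    by_cases hfar : 1 / 2 ≤ |(s : ℝ) - σ|
    · have ih := chg_TL (T := T) (σ := σ) L hnd.2 hL
      have hdom := fun e' he' C hC => chg_dominant (T := T) (σ := σ) hs hL hfar e' he' C hC τ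
      by_cases he : e = decide (σ < (s : ℝ))
      · have := hdom e he _ (ih e)
        refine this.trans ?_
        simp only [sg, List.map_cons, chg_cons_cons, ← he, neq_self, zero_add]
        exact le_rfl
      · have he' : (!e) = decide (σ < (s : ℝ)) := by
          cases e <;> cases h : decide (σ < (s : ℝ)) <;> simp_all
        have h3 := hdom (!e) he' _ (ih (!e))
        have h4 := chg_switch e (TL (base T) σ τ (s :: L))
        rw [Bool.not_not] at h3
        have h5 : chg (e :: sg σ (s :: L)) = 1 + chg ((!e) :: sg σ L) := by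
          simp only [sg, List.map_cons, chg_cons_cons, ← he']
          rw [neq_of_ne (by simp)]
        omega
    · rw [not_le] at hfar
      have hfar' : ∀ x ∈ L, 1 / 2 ≤ |(x : ℝ) - σ| := by
        intro x hx
        have hne : x ≠ s := by
          rintro rfl
          exact hnd.1 hx
        have h2 : (1 : ℝ) ≤ |(x : ℝ) - s| := by
          rcases lt_or_gt_of_ne hne with h | h
          · have h' : (x : ℝ) + 1 ≤ s := by exact_mod_cast h
            rw [abs_of_nonpos (by linarith)]
            linarith
          · have h' : (s : ℝ) + 1 ≤ x := by exact_mod_cast h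
            rw [abs_of_nonneg (by linarith)]
            linarith
        have h3 : |(x : ℝ) - s| ≤ |(x : ℝ) - σ| + |(s : ℝ) - σ| := by
          have e1 : (x : ℝ) - s = ((x : ℝ) - σ) - ((s : ℝ) - σ) := by ring
          rw [e1]
          exact abs_sub _ _
        linarith
      have hT := chg_TL_of_far (T := T) (σ := σ) L hL hfar' e
      rw [TL_cons]
      set w := base T ^ L.length * ((s : ℝ) - σ)
      have h4 := hT τ
      have h5 := hT (τ - w)
      have h6 := chg_append_le (e :: TL (base T) σ τ L) (TL (base T) σ (τ - w) L ++ [!e])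
      have h7 : chg (e :: TL (base T) σ τ L) ≤ chg (e :: (TL (base T) σ τ L ++ [!e])) := by
        rw [← List.cons_append]
        exact chg_sublist (List.sublist_append_left _ _)
      have h8 := chg_le_cons e (TL (base T) σ (τ - w) L ++ [!e])
      have h9 : chg (e :: sg σ L) ≤ chg (e :: sg σ (s :: L)) := by
        simp only [sg, List.map_cons]
        exact chg_cons_le_cons_cons _ _ _
      rw [List.append_assoc, ← List.cons_append]
      omega

/-- The number of changes along the leaf sequence for the labels `labs m R`. -/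
theorem chg_TL_labs {m R T : ℕ} (hT : T = m ^ (2 * R)) (σ τ : ℝ) :
    chg (TL (base T) σ τ (labs m R)) ≤ 3 + 16 * R := by
  have h1 := fun e => chg_TL (T := T) (σ := σ) (labs m R) (labs_nodup m R)
    (fun x hx => hT ▸ labs_lt m R x hx) e τ
  obtain ⟨e, he⟩ : ∃ e, chg (e :: sg σ (labs m R)) = chg (sg σ (labs m R)) := by
    cases h : sg σ (labs m R) with
    | nil => exact ⟨true, rfl⟩
    | cons x l => exact ⟨x, by rw [chg_cons_cons, neq_self, zero_add]⟩
  have h2 := h1 e
  have h3 : chg (sg σ (labs m R)) ≤ 4 * R := chg_labs m R σ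
  have h4 : chg (TL (base T) σ τ (labs m R)) ≤
      chg (e :: (TL (base T) σ τ (labs m R) ++ [!e])) := by
    apply chg_sublist
    exact (List.sublist_append_left _ _).cons _
  omega

/-! ### Runs -/

/-- number of rises -/
def rise : List Bool → ℕ := adj fun x y => if x = false ∧ y = true then 1 else 0

lemma two_rise_le : ∀ (x : Bool) (l : List Bool),
    2 * rise (x :: l) ≤ chg (x :: l) + (if x then 0 else 1)
  | x, [] => by simp [rise]
  | x, y :: l => by
    have ih := two_rise_le y l
    unfold rise at ih ⊢
    rw [adj_cons_cons, chg_cons_cons]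
    cases x <;> cases y <;> simp [neq] at ih ⊢ <;> omega

/-- the set of starts of runs of `true` -/
def starts (x : Bool) (l : List Bool) : Set ℕ :=
  {i | l.getD i false = true ∧ (if i = 0 then x = false else l.getD (i - 1) false = false)}

lemma starts_finite_ncard : ∀ (x : Bool) (l : List Bool),
    (starts x l).Finite ∧ (starts x l).ncard ≤ rise (x :: l)
  | x, [] => by
    have : starts x [] = ∅ := by
      ext i
      simp [starts]
    rw [this]
    simp
  | x, y :: l => by
    obtain ⟨ih1, ih2⟩ := starts_finite_ncard y l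
    have hsub : starts x (y :: l) ⊆ (if x = false ∧ y = true then {0} else ∅) ∪
        Nat.succ '' starts y l := by
      rintro i ⟨h1, h2⟩
      cases i with
      | zero =>
        left
        simp only [List.getD_cons_zero, if_true] at h1 h2
        rw [if_pos ⟨h2, h1⟩]
        rfl
      | succ i =>
        right
        refine ⟨i, ⟨?_, ?_⟩, rfl⟩
        · simpa using h1
        · simp only [Nat.succ_ne_zero, if_false, Nat.succ_sub_one] at h2
          cases i with
          | zero => simpa using h2
          | succ i => simpa using h2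
    have hfin : ((if x = false ∧ y = true then {0} else ∅) ∪ Nat.succ '' starts y l :
        Set ℕ).Finite := by
      apply Set.Finite.union
      · split_ifs <;> simp
      · exact ih1.image _
    refine ⟨hfin.subset hsub, ?_⟩
    refine (Set.ncard_le_ncard hsub hfin).trans ?_
    refine (Set.ncard_union_le _ _).trans ?_
    unfold rise at ih2 ⊢
    rw [adj_cons_cons]
    have h3 : (Nat.succ '' starts y l).ncard ≤ (starts y l).ncard := Set.ncard_image_le ih1
    have h4 : (if x = false ∧ y = true then {0} else ∅ : Set ℕ).ncard ≤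
        (if x = false ∧ y = true then 1 else 0) := by
      split_ifs <;> simp
    omega

end Pool.Agent.H29.KConv
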