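import Pool.Agent.H29.KConv.Defs

/-!
# A generic line crosses at most `2 k` edges of a `k`-convex polygon
-/

namespace Pool.Agent.H29.KConv

open Set

/-- The linear functional with coefficients `a`, `b`. -/
def lin (a b : ℝ) (x : Pt) : ℝ := a * x.1 + b * x.2

lemma lin_add_smul (a b : ℝ) (x w : Pt) (t : ℝ) :
    lin a b (x + t • w) = lin a b x + t * lin a b w := by
  simp only [lin, Prod.fst_add, Prod.snd_add, Prod.smul_fst, Prod.smul_snd, smul_eq_mul]
  ring

lemma continuous_lin (a b : ℝ) : Continuous (lin a b) := by
  unfold lin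
  fun_prop

/-- local analysis of a closed set near a point of its frontier, where the frontier is contained
in a line -/
lemma exists_side {S : Set Pt} (hS : IsClosed S) {x d u : Pt} {r : ℝ} (hr : 0 < r)
    (hx : x ∈ frontier S)
    (hloc : ∀ y ∈ Metric.ball x r, y ∈ frontier S →
      d.1 * (y.2 - x.2) - d.2 * (y.1 - x.1) = 0)
    (hdu : d.1 * u.2 - d.2 * u.1 ≠ 0) :
    ∃ σ : Bool, ∃ δ > 0, ∀ ε : ℝ, 0 < ε → ε < δ →
      x + ((if σ then 1 else -1 : ℝ) * ε) • u ∉ S := by
  -- the functional
  set m : Pt → ℝ := fun y => d.1 * (y.2 - x.2) - d.2 * (y.1 - x.1) with hm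
  have hmlin : ∀ (y w : Pt) (t : ℝ), m (y + t • w) = m y + t * (d.1 * w.2 - d.2 * w.1) := by
    intro y w t
    simp only [hm, Prod.fst_add, Prod.snd_add, Prod.smul_fst, Prod.smul_snd, smul_eq_mul]
    ring
  have hm0 : m x = 0 := by simp [hm]
  have hmcont : Continuous m := by
    simp only [hm]
    fun_prop
  have hconvp : Convex ℝ {y : Pt | 0 < m y} := by
    intro y hy z hz a b ha hb hab
    simp only [mem_ofPred_eq] at hy hz ⊢
    have : m (a • y + b • z) = a * m y + b * m z := by
      have hb' : b = 1 - a := by linarith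
      subst hb'
      simp only [hm, Prod.fst_add, Prod.snd_add, Prod.smul_fst, Prod.smul_snd, smul_eq_mul]
      ring
    rw [this]
    rcases ha.lt_or_eq with h | h
    · have := mul_pos h hy
      have := mul_nonneg hb hz.le
      linarith
    · subst h
      have : b = 1 := by linarith
      subst this
      linarith
  have hconvn : Convex ℝ {y : Pt | m y < 0} := by
    intro y hy z hz a b ha hb hab
    simp only [mem_ofPred_eq] at hy hz ⊢
    have : m (a • y + b • z) = a * m y + b * m z := by
      have hb' : b = 1 - a := by linarith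
      subst hb'
      simp only [hm, Prod.fst_add, Prod.snd_add, Prod.smul_fst, Prod.smul_snd, smul_eq_mul]
      ring
    rw [this]
    rcases ha.lt_or_eq with h | h
    · have := mul_neg_of_pos_of_neg h hy
      have := mul_nonpos_of_nonneg_of_nonpos hb hz.le
      linarith
    · subst h
      have : b = 1 := by linarith
      subst this
      linarith
  have hHp : IsPreconnected (Metric.ball x r ∩ {y : Pt | 0 < m y}) :=
    ((convex_ball x r).inter hconvp).isPreconnected
  have hHn : IsPreconnected (Metric.ball x r ∩ {y : Pt | m y < 0}) :=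
    ((convex_ball x r).inter hconvn).isPreconnected
  -- each half ball is in `S` or disjoint from `S`
  have key : ∀ H : Set Pt, IsPreconnected H → (∀ y ∈ H, y ∉ frontier S) →
      (H ∩ S).Nonempty → H ⊆ S := by
    intro H hH hf hne y hy
    by_contra hyS
    have hcov : H ⊆ interior S ∪ Sᶜ := by
      intro z hz
      by_cases hzS : z ∈ S
      · left
        by_contra hzi
        exact hf z hz ⟨subset_closure hzS, hzi⟩
      · right
        exact hzS
    obtain ⟨z0, hz0, hz0S⟩ := hne
    have h1 : (H ∩ interior S).Nonempty := by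
      refine ⟨z0, hz0, ?_⟩
      rcases hcov hz0 with h | h
      · exact h
      · exact absurd hz0S h
    obtain ⟨z, hz, hz1, hz2⟩ := hH (interior S) Sᶜ isOpen_interior hS.isOpen_compl hcov h1
      ⟨y, hy, hyS⟩
    exact hz2 (interior_subset hz1)
  have hfp : ∀ y ∈ Metric.ball x r ∩ {y : Pt | 0 < m y}, y ∉ frontier S := by
    intro y hy hyf
    have := hloc y hy.1 hyf
    have h2 : 0 < m y := hy.2
    simp only [hm] at h2
    linarith
  have hfn : ∀ y ∈ Metric.ball x r ∩ {y : Pt | m y < 0}, y ∉ frontier S := by
    intro y hy hyf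
    have := hloc y hy.1 hyf
    have h2 : m y < 0 := hy.2
    simp only [hm] at h2
    linarith
  have hor : (Metric.ball x r ∩ {y : Pt | 0 < m y}) ∩ S = ∅ ∨
      (Metric.ball x r ∩ {y : Pt | m y < 0}) ∩ S = ∅ := by
    by_contra hcon
    push Not at hcon
    obtain ⟨h1, h2⟩ := hcon
    have h1' := key _ hHp hfp h1
    have h2' := key _ hHn hfn h2
    have hball : Metric.ball x r ⊆ S := by
      intro y hy
      rcases lt_trichotomy (m y) 0 with h | h | h
      · exact h2' ⟨hy, h⟩
      · -- limit of points with positive `m`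
        have hcont : Continuous fun t : ℝ => y + t • ((-d.2, d.1) : Pt) := by fun_prop
        have ht0 : Filter.Tendsto (fun t : ℝ => y + t • ((-d.2, d.1) : Pt))
            (nhdsWithin 0 (Ioi 0)) (nhds y) := by
          have := hcont.tendsto 0
          simp only [zero_smul, add_zero] at this
          exact this.mono_left nhdsWithin_le_nhds
        have hev : ∀ᶠ t in nhdsWithin (0 : ℝ) (Ioi 0), y + t • ((-d.2, d.1) : Pt) ∈ S := by
          have hb := ht0.eventually (Metric.isOpen_ball.mem_nhds hy)
          filter_upwards [hb, self_mem_nhdsWithin] with t ht ht0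
          apply h1'
          refine ⟨ht, ?_⟩
          simp only [mem_ofPred_eq, mem_Ioi] at ht0 ⊢
          rw [hmlin, h]
          have hd : 0 < d.1 * d.1 + d.2 * d.2 := by
            have h0 : ¬ (d.1 = 0 ∧ d.2 = 0) := by
              rintro ⟨ha, hb⟩
              apply hdu
              rw [ha, hb]
              ring
            by_contra hneg
            apply h0
            constructor <;> nlinarith [mul_self_nonneg d.1, mul_self_nonneg d.2]
          have := mul_pos ht0 hd
          simp only
          nlinarith
        exact hS.mem_of_tendsto ht0 hev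
      · exact h1' ⟨hy, h⟩
    have : x ∈ interior S := mem_interior.2 ⟨Metric.ball x r, hball, Metric.isOpen_ball,
      Metric.mem_ball_self hr⟩
    exact hx.2 this
  -- smallness
  have hsmall : ∀ (s : ℝ), |s| = 1 → ∃ δ > 0, ∀ ε : ℝ, 0 < ε → ε < δ →
      x + (s * ε) • u ∈ Metric.ball x r := by
    intro s hs
    refine ⟨r / (‖u‖ + 1), by positivity, ?_⟩
    intro ε h0 h1
    rw [Metric.mem_ball, dist_eq_norm]
    have h2 : x + (s * ε) • u - x = (s * ε) • u := by abel
    rw [h2, norm_smul, Real.norm_eq_abs, abs_mul, hs, one_mul, abs_of_pos h0]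
    rw [lt_div_iff₀ (by positivity)] at h1
    have : ε * ‖u‖ < ε * (‖u‖ + 1) := by nlinarith
    linarith
  -- conclusion
  rcases hor with hp | hn
  · -- positive side empty
    rcases lt_or_gt_of_ne hdu with hneg | hpos
    · refine ⟨false, ?_⟩
      obtain ⟨δ, hδ, h⟩ := hsmall (-1) (by norm_num)
      refine ⟨δ, hδ, fun ε h0 h1 hS' => ?_⟩
      have hb := h ε h0 h1
      have : x + (-1 * ε) • u ∈ (Metric.ball x r ∩ {y : Pt | 0 < m y}) ∩ S := by
        refine ⟨⟨hb, ?_⟩, by simpa using hS'⟩
        simp only [mem_ofPred_eq]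
        rw [hmlin, hm0]
        nlinarith
      rw [hp] at this
      exact this
    · refine ⟨true, ?_⟩
      obtain ⟨δ, hδ, h⟩ := hsmall 1 (by norm_num)
      refine ⟨δ, hδ, fun ε h0 h1 hS' => ?_⟩
      have hb := h ε h0 h1
      have : x + (1 * ε) • u ∈ (Metric.ball x r ∩ {y : Pt | 0 < m y}) ∩ S := by
        refine ⟨⟨hb, ?_⟩, by simpa using hS'⟩
        simp only [mem_ofPred_eq]
        rw [hmlin, hm0]
        nlinarith
      rw [hp] at this
      exact this
  · rcases lt_or_gt_of_ne hdu with hneg | hpos
    · refine ⟨true, ?_⟩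
      obtain ⟨δ, hδ, h⟩ := hsmall 1 (by norm_num)
      refine ⟨δ, hδ, fun ε h0 h1 hS' => ?_⟩
      have hb := h ε h0 h1
      have : x + (1 * ε) • u ∈ (Metric.ball x r ∩ {y : Pt | m y < 0}) ∩ S := by
        refine ⟨⟨hb, ?_⟩, by simpa using hS'⟩
        simp only [mem_ofPred_eq]
        rw [hmlin, hm0]
        nlinarith
      rw [hn] at this
      exact this
    · refine ⟨false, ?_⟩
      obtain ⟨δ, hδ, h⟩ := hsmall (-1) (by norm_num)
      refine ⟨δ, hδ, fun ε h0 h1 hS' => ?_⟩
      have hb := h ε h0 h1
      have : x + (-1 * ε) • u ∈ (Metric.ball x r ∩ {y : Pt | m y < 0}) ∩ S := by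
        refine ⟨⟨hb, ?_⟩, by simpa using hS'⟩
        simp only [mem_ofPred_eq]
        rw [hmlin, hm0]
        nlinarith
      rw [hn] at this
      exact this

/-- A line avoiding the vertices crosses at most `2 k` edges of a `k`-convex polygon. -/
theorem crossing_generic {n : ℕ} {v : Fin n → Pt} {S : Set Pt} (hP : IsPolygon n v S) {k : ℕ}
    (hk : KConvexRegion k S) (a b c : ℝ) (hab : ¬ (a = 0 ∧ b = 0))
    (hc : ∀ i, lin a b (v i) ≠ c) :
    (Finset.univ.filter (fun i : Fin n =>
      ¬ (c < lin a b (v i) ↔ c < lin a b (v (finRotate n i))))).card ≤ 2 * k := by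
  classical
  set I := Finset.univ.filter (fun i : Fin n =>
      ¬ (c < lin a b (v i) ↔ c < lin a b (v (finRotate n i)))) with hI
  have hD : 0 < a * a + b * b := by
    by_contra hneg
    apply hab
    constructor <;> nlinarith [mul_self_nonneg a, mul_self_nonneg b]
  set D := a * a + b * b with hDdef
  set u : Pt := (-b, a) with hu
  set p : Pt := (a * c / D, b * c / D) with hp
  have hu0 : u ≠ 0 := by
    intro h
    apply hab
    have h1 : -b = 0 := congrArg Prod.fst h
    have h2 : a = 0 := congrArg Prod.snd h
    exact ⟨h2, by linarith⟩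
  -- parameter on the line
  set s : Pt → ℝ := fun x => lin (-b) a x / D with hs
  have hscont : Continuous s := (continuous_lin _ _).div_const _
  have hsp : ∀ t : ℝ, s (p + t • u) = t := by
    intro t
    simp only [hs, hp, hu, lin, Prod.fst_add, Prod.snd_add, Prod.smul_fst, Prod.smul_snd,
      smul_eq_mul]
    field_simp
    ring
  have hline : ∀ x : Pt, lin a b x = c → x = p + s x • u := by
    intro x hx
    unfold lin at hx
    ext
    · simp only [hs, hp, hu, lin, Prod.fst_add, Prod.smul_fst, smul_eq_mul]
      field_simp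
      rw [← hx, hDdef]
      ring
    · simp only [hs, hp, hu, lin, Prod.snd_add, Prod.smul_snd, smul_eq_mul]
      field_simp
      rw [← hx, hDdef]
      ring
  have hpl : ∀ t : ℝ, lin a b (p + t • u) = c := by
    intro t
    simp only [hp, hu, lin, Prod.fst_add, Prod.snd_add, Prod.smul_fst, Prod.smul_snd,
      smul_eq_mul]
    field_simp
    rw [hDdef]
    ring
  have hmemline : ∀ x : Pt, x ∈ line p u ↔ lin a b x = c := by
    intro x
    constructor
    · rintro ⟨t, rfl⟩
      exact hpl t
    · intro h
      exact ⟨s x, hline x h⟩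
  -- crossing points
  have hcross : ∀ i ∈ I, ∃ x : Pt, x ∈ edge v i ∧ lin a b x = c := by
    intro i hi
    simp only [hI, Finset.mem_filter, Finset.mem_univ, true_and] at hi
    have h1 := hc i
    have h2 := hc (finRotate n i)
    have hconv : ∀ t : ℝ, lin a b (AffineMap.lineMap (v i) (v (finRotate n i)) t) =
        lin a b (v i) + t * (lin a b (v (finRotate n i)) - lin a b (v i)) := by
      intro t
      simp only [lin, AffineMap.lineMap_apply, vsub_eq_sub, vadd_eq_add, Prod.fst_add,
        Prod.snd_add, Prod.smul_fst, Prod.smul_snd, Prod.fst_sub, Prod.snd_sub, smul_eq_mul]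
      ring
    have hne : lin a b (v (finRotate n i)) - lin a b (v i) ≠ 0 := by
      intro h
      apply hi
      have : lin a b (v (finRotate n i)) = lin a b (v i) := by linarith
      rw [this]
    refine ⟨AffineMap.lineMap (v i) (v (finRotate n i))
      ((c - lin a b (v i)) / (lin a b (v (finRotate n i)) - lin a b (v i))), ?_, ?_⟩
    · unfold edge
      rw [segment_eq_image_lineMap]
      refine mem_image_of_mem _ ?_
      rw [mem_Icc]
      by_cases hlt : c < lin a b (v i)
      · have hlt2 : lin a b (v (finRotate n i)) < c := by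
          by_contra hge
          apply hi
          constructor
          · intro _
            exact lt_of_le_of_ne (not_lt.1 hge) (Ne.symm h2)
          · intro _
            exact hlt
        have hneg : lin a b (v (finRotate n i)) - lin a b (v i) < 0 := by linarith
        constructor
        · exact div_nonneg_of_nonpos (by linarith) hneg.le
        · rw [div_le_one_of_neg hneg]
          linarith
      · have hlt2 : c < lin a b (v (finRotate n i)) := by
          by_contra hge
          apply hi
          constructor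
          · intro h
            exact absurd h hlt
          · intro h
            exact absurd h hge
        have hlt3 : lin a b (v i) < c := lt_of_le_of_ne (not_lt.1 hlt) h1
        have hpos : 0 < lin a b (v (finRotate n i)) - lin a b (v i) := by linarith
        constructor
        · exact div_nonneg (by linarith) hpos.le
        · rw [div_le_one hpos]
          linarith
    · rw [hconv, div_mul_cancel₀ _ hne]
      ring
  choose! x hxe hxc using hcross
  have hSc : IsClosed S := hP.compact.isClosed
  have hxfr : ∀ i ∈ I, x i ∈ frontier S := by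
    intro i hi
    rw [hP.frontier_eq]
    exact mem_iUnion.2 ⟨i, hxe i hi⟩
  have hxS : ∀ i ∈ I, x i ∈ S := fun i hi => hSc.frontier_subset (hxfr i hi)
  have hxother : ∀ i ∈ I, ∀ j, j ≠ i → x i ∉ edge v j := by
    intro i hi j hji hxj
    have := hP.simple i j (Ne.symm hji) ⟨hxe i hi, hxj⟩
    rcases this.1 with h | h
    · exact hc i (h ▸ hxc i hi)
    · have h' : x i = v (finRotate n i) := h
      exact hc (finRotate n i) (h' ▸ hxc i hi)
  have hside : ∀ i ∈ I, ∃ σ : Bool, ∃ δ > 0, ∀ ε : ℝ, 0 < ε → ε < δ →
      x i + ((if σ then 1 else -1 : ℝ) * ε) • u ∉ S := by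
    intro i hi
    -- a ball which misses the other edges
    have hcl : IsClosed (⋃ j ∈ (Finset.univ.erase i : Finset (Fin n)), edge v j) := by
      refine Set.Finite.isClosed_biUnion (Finset.finite_toSet _) ?_
      intro j _
      unfold edge
      rw [segment_eq_image_lineMap]
      exact (isCompact_Icc.image (AffineMap.lineMap_continuous)).isClosed
    have hnot : x i ∈ (⋃ j ∈ (Finset.univ.erase i : Finset (Fin n)), edge v j)ᶜ := by
      intro h
      simp only [mem_iUnion] at h
      obtain ⟨j, hj, hxj⟩ := h
      exact hxother i hi j (Finset.ne_of_mem_erase hj) hxj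
    obtain ⟨r, hr, hball⟩ := Metric.isOpen_iff.1 hcl.isOpen_compl _ hnot
    refine exists_side (d := v (finRotate n i) - v i) hSc hr (hxfr i hi) ?_ ?_
    · intro y hy hyf
      rw [hP.frontier_eq, mem_iUnion] at hyf
      obtain ⟨j, hj⟩ := hyf
      by_cases hji : j = i
      · subst hji
        have hxj := hxe j hi
        unfold edge at hj hxj
        rw [segment_eq_image_lineMap] at hj hxj
        obtain ⟨t, _, rfl⟩ := hj
        obtain ⟨t', _, ht'⟩ := hxj
        rw [← ht']
        simp only [AffineMap.lineMap_apply, vsub_eq_sub, vadd_eq_add, Prod.fst_add,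
          Prod.snd_add, Prod.smul_fst, Prod.smul_snd, Prod.fst_sub, Prod.snd_sub, smul_eq_mul]
        ring
      · exfalso
        apply hball hy
        simp only [mem_iUnion]
        exact ⟨j, Finset.mem_erase.2 ⟨hji, Finset.mem_univ _⟩, hj⟩
    · simp only [hI, Finset.mem_filter, Finset.mem_univ, true_and] at hi
      intro h
      apply hi
      simp only [hu, Prod.fst_sub, Prod.snd_sub] at h
      have : lin a b (v (finRotate n i)) = lin a b (v i) := by
        unfold lin
        linarith
      rw [this]
  choose! σ δ hδ hσ using hside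
  -- the map to components
  set C : Fin n → Set Pt := fun i => connectedComponentIn (S ∩ line p u) (x i) with hC
  have hxmem : ∀ i ∈ I, x i ∈ S ∩ line p u := fun i hi =>
    ⟨hxS i hi, (hmemline _).2 (hxc i hi)⟩
  have hord : ∀ i ∈ I, ∀ t ∈ s '' C i, p + t • u ∈ C i := by
    intro i hi t ht
    obtain ⟨y, hy, rfl⟩ := ht
    have hyl : y ∈ line p u := (connectedComponentIn_subset _ _ hy).2
    rw [← hline y ((hmemline y).1 hyl)]
    exact hy
  have hbetween : ∀ i ∈ I, ∀ j ∈ I, C i = C j → ∀ t, s (x i) ≤ t → t ≤ s (x j) →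
      p + t • u ∈ S := by
    intro i hi j hj hij t h1 h2
    have hpre : IsPreconnected (s '' C i) :=
      isPreconnected_connectedComponentIn.image _ hscont.continuousOn
    have hi' : s (x i) ∈ s '' C i := mem_image_of_mem _ (mem_connectedComponentIn (hxmem i hi))
    have hj' : s (x j) ∈ s '' C i := by
      rw [hij]
      exact mem_image_of_mem _ (mem_connectedComponentIn (hxmem j hj))
    have ht : t ∈ s '' C i := hpre.ordConnected.out hi' hj' ⟨h1, h2⟩
    exact (connectedComponentIn_subset _ _ (hord i hi t ht)).1
  have hsne : ∀ i ∈ I, ∀ j ∈ I, i ≠ j → s (x i) ≠ s (x j) := by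
    intro i hi j hj hij h
    have h1 := hline (x i) (hxc i hi)
    have h2 := hline (x j) (hxc j hj)
    have : x i = x j := by rw [h1, h2, h]
    exact hxother i hi j (Ne.symm hij) (this ▸ hxe j hj)
  have hnolt : ∀ i ∈ I, ∀ j ∈ I, C i = C j → σ i = σ j → ¬ s (x i) < s (x j) := by
    intro i hi j hj hC' hσ' hlt
    cases hb : σ i with
    | true =>
      obtain ⟨ε, hε0, hε1, hε2⟩ : ∃ ε : ℝ, 0 < ε ∧ ε < δ i ∧ ε ≤ s (x j) - s (x i) := by
        have := hδ i hi
        exact ⟨min (δ i / 2) (s (x j) - s (x i)), lt_min (by linarith) (by linarith),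
          lt_of_le_of_lt (min_le_left _ _) (by linarith), min_le_right _ _⟩
      have h := hσ i hi ε hε0 hε1
      rw [hb] at h
      simp only [if_true, one_mul] at h
      apply h
      rw [hline (x i) (hxc i hi), add_assoc, ← add_smul]
      apply hbetween i hi j hj hC' <;> linarith
    | false =>
      rw [hb] at hσ'
      obtain ⟨ε, hε0, hε1, hε2⟩ : ∃ ε : ℝ, 0 < ε ∧ ε < δ j ∧ ε ≤ s (x j) - s (x i) := by
        have := hδ j hj
        exact ⟨min (δ j / 2) (s (x j) - s (x i)), lt_min (by linarith) (by linarith),
          lt_of_le_of_lt (min_le_left _ _) (by linarith), min_le_right _ _⟩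
      have h := hσ j hj ε hε0 hε1
      rw [← hσ'] at h
      simp only [Bool.false_eq_true, if_false] at h
      apply h
      rw [hline (x j) (hxc j hj), add_assoc, ← add_smul]
      apply hbetween i hi j hj hC' <;> linarith
  have hinj : ∀ i ∈ I, ∀ j ∈ I, C i = C j → σ i = σ j → i = j := by
    intro i hi j hj h1 h2
    by_contra hij
    rcases lt_or_gt_of_ne (hsne i hi j hj hij) with h | h
    · exact hnolt i hi j hj h1 h2 h
    · exact hnolt j hj i hi h1.symm h2.symm h
  have hfin : (comps (S ∩ line p u)).Finite :=
    Set.finite_of_encard_le_coe (hk p u hu0)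
  have hcardle : hfin.toFinset.card ≤ k := by
    have := hk p u hu0
    rw [hfin.encard_eq_coe_toFinset_card] at this
    exact_mod_cast this
  have hmaps : ∀ i ∈ I, (C i, σ i) ∈ hfin.toFinset ×ˢ (Finset.univ : Finset Bool) := by
    intro i hi
    rw [Finset.mem_product]
    refine ⟨?_, Finset.mem_univ _⟩
    rw [Set.Finite.mem_toFinset]
    exact ⟨x i, hxmem i hi, rfl⟩
  have hle := Finset.card_le_card_of_injOn (fun i => (C i, σ i)) hmaps (by
    intro i hi j hj hij
    simp only [Prod.mk.injEq] at hij
    exact hinj i hi j hj hij.1 hij.2)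
  rw [Finset.card_product] at hle
  simp only [Finset.card_univ, Fintype.card_bool] at hle
  calc I.card ≤ hfin.toFinset.card * 2 := hle
    _ ≤ k * 2 := Nat.mul_le_mul_right _ hcardle
    _ = 2 * k := by ring

/-- Version with arbitrary threshold. -/
theorem crossing_le {n : ℕ} {v : Fin n → Pt} {S : Set Pt} (hP : IsPolygon n v S) {k : ℕ}
    (hk : KConvexRegion k S) (a b c : ℝ) (hab : ¬ (a = 0 ∧ b = 0)) :
    (Finset.univ.filter (fun i : Fin n =>
      ¬ (c < lin a b (v i) ↔ c < lin a b (v (finRotate n i))))).card ≤ 2 * k := by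
  classical
  -- choose a slightly larger threshold
  obtain ⟨c', hcc', hc'⟩ : ∃ c' > c, ∀ i, c < lin a b (v i) → c' < lin a b (v i) := by
    by_cases hne : (Finset.univ.filter (fun i : Fin n => c < lin a b (v i))).Nonempty
    · obtain ⟨i0, hi0, hmin⟩ := Finset.exists_min_image _ (fun i => lin a b (v i)) hne
      simp only [Finset.mem_filter, Finset.mem_univ, true_and] at hi0 hmin
      refine ⟨(c + lin a b (v i0)) / 2, by linarith, ?_⟩
      intro i hi
      have := hmin i hi
      linarith
    · refine ⟨c + 1, by linarith, ?_⟩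
      intro i hi
      exfalso
      exact hne ⟨i, by simpa using hi⟩
  have hiff : ∀ i, c < lin a b (v i) ↔ c' < lin a b (v i) :=
    fun i => ⟨hc' i, fun h => lt_trans hcc' h⟩
  have h := crossing_generic hP hk a b c' hab (by
    intro i hi
    by_cases h : c < lin a b (v i)
    · exact absurd hi (ne_of_gt (hc' i h))
    · rw [hi] at h
      exact h hcc')
  simpa only [hiff] using h

end Pool.Agent.H29.KConv
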