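import Pool.Agent.H29.KConv.Leaves
import Pool.Agent.H29.KConv.Cross

/-!
# The construction for the upper bound
-/

namespace Pool.Agent.H29.KConv

open Set

/-- two different leaves of a complete binary tree have different colours -/
lemma col_true_or {D : ℕ} : ∀ (a b : List Bool), a.length = D → b.length = D → a ≠ b →
    col (List.replicate D true) a b = true ∨ col (List.replicate D true) b a = true := by
  induction D with
  | zero =>
    intro a b ha hb hne
    exfalso
    apply hne
    rw [List.length_eq_zero_iff.1 ha, List.length_eq_zero_iff.1 hb]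
  | succ D ih =>
    intro a b ha hb hne
    cases a with
    | nil => simp at ha
    | cons x a =>
      cases b with
      | nil => simp at hb
      | cons y b =>
        simp only [List.length_cons, add_left_inj] at ha hb
        rw [List.replicate_succ]
        by_cases hxy : x = y
        · subst hxy
          have hne' : a ≠ b := by
            rintro rfl
            exact hne rfl
          simpa [col] using ih a b ha hb hne'
        · have hy : y = !x := by
            cases x <;> cases y <;> simp_all
          subst hy
          cases x <;> simp [col]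

/-- sublist of colours -/
lemma filterMap_map_sublist {α β γ : Type*} (ψ : α → Option β) (g : β → γ) (h : α → γ) :
    ∀ (l : List α), (∀ p ∈ l, ∀ a, ψ p = some a → g a = h p) →
      ((l.filterMap ψ).map g).Sublist (l.map h)
  | [], _ => by simp
  | p :: l, hyp => by
    have ih := filterMap_map_sublist ψ g h l (fun q hq => hyp q (List.mem_cons_of_mem _ hq))
    cases hp : ψ p with
    | none =>
      rw [List.filterMap_cons_none hp, List.map_cons]
      exact ih.cons _
    | some a =>
      rw [List.filterMap_cons_some hp, List.map_cons, List.map_cons, hyp p (by simp) a hp]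
      exact ih.cons_cons _

lemma neq_decide (A B : Prop) [Decidable A] [Decidable B] :
    neq (decide A) (decide B) = if ¬ (A ↔ B) then 1 else 0 := by
  unfold neq
  by_cases h1 : A <;> by_cases h2 : B <;> simp [h1, h2]

/-- the number of colour changes along a `k`-convex polygon -/
lemma chg_ofFn_le {n : ℕ} {v : Fin n → Pt} {S : Set Pt} (hP : IsPolygon n v S) {k : ℕ}
    (hk : KConvexRegion k S) (a b c : ℝ) (hab : ¬ (a = 0 ∧ b = 0)) :
    chg ((List.ofFn v).map fun p => decide (c < lin a b p)) ≤ 2 * k := by
  classical
  have h := crossing_le hP hk a b c hab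
  refine le_trans ?_ h
  unfold chg
  rw [adj_map]
  refine (adj_ofFn_le _ v).trans (le_of_eq ?_)
  rw [Finset.card_filter]
  apply Finset.sum_congr rfl
  intro i _
  rw [neq_decide]

lemma map_sign_one {L : List ℕ} : L.map (fun x : ℕ => decide ((-1 : ℝ) < (x : ℝ))) =
    List.replicate L.length true := by
  induction L with
  | nil => rfl
  | cons s L ih =>
    rw [List.map_cons, ih, List.length_cons, List.replicate_succ]
    congr 1
    simp only [decide_eq_true_eq]
    have : (0 : ℝ) ≤ s := Nat.cast_nonneg s
    linarith

lemma length_altl : ∀ (b : Bool) (n : ℕ), (altl b n).length = n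
  | _, 0 => rfl
  | b, n + 1 => by simp [altl, length_altl (!b) n]

/-- The set of leaves of a `j`-convex set is small. -/
theorem leaves_small {m R T j : ℕ} (hm : 1 ≤ m) (hT : T = m ^ (2 * R))
    {Q : Finset (List Bool)} (hQ : ∀ b ∈ Q, b.length = T) {n : ℕ} {v : Fin n → Pt} {S : Set Pt}
    (hP : IsPolygon n v S) (hk : KConvexRegion j S)
    (hsub : ∀ b ∈ Q, pt (base T) b (labs m R) ∈ Set.range v) :
    Q.card ≤ (T + 1) ^ (nb m R (4 * j + 1)) := by
  classical
  by_contra hcon
  rw [not_le] at hcon
  set L := labs m R with hLdef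
  have hLlen : L.length = T := by
    rw [hLdef, length_labs, hT]
  have hQ' : ∀ b ∈ Q, b.length = L.length := by
    rw [hLlen]
    exact hQ
  have hLT : ∀ x ∈ L, x < T := fun x hx => hT ▸ labs_lt m R x hx
  set s := nb m R (4 * j + 1) with hs
  -- a large order-shattered set
  obtain ⟨M, hM, hMs⟩ : ∃ M ∈ osh L.length Q, s < M.count true := by
    by_contra hno
    push Not at hno
    have hsubset : osh L.length Q ⊆
        ((allB L.length).filter fun S => decide (S.count true ≤ s)).toFinset := by
      intro M hM
      rw [List.mem_toFinset, List.mem_filter, mem_allB]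
      exact ⟨osh_length _ _ hQ' M hM, by simpa using hno M hM⟩
    have h1 := Finset.card_le_card hsubset
    rw [card_osh _ _ hQ'] at h1
    have h2 := List.toFinset_card_le ((allB L.length).filter fun S => decide (S.count true ≤ s))
    have h3 := count_masks L.length s
    rw [hLlen] at h1 h2 h3
    omega
  have hShM := sh_of_osh L Q hQ' M hM
  have hselsub : (sel L M).Sublist (labs m R) := sel_sublist L M
  have hsellen : s < (sel L M).length := by
    rw [length_sel L M (osh_length _ _ hQ' M hM)]
    exact hMs
  have hAlt : Alt (sel L M) (4 * j + 1) := by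
    by_contra hna
    have := length_le_of_not_alt hm R (4 * j + 1) (sel L M) hselsub hna
    omega
  obtain ⟨u, hu, Z, hZ, hZalt, hZne⟩ := hAlt
  have huT : u < T := hLT u ((sel_sublist L M).subset hu)
  set D := 2 * (4 * j + 1) with hD
  have hZlen : Z.length = D := by
    have := congrArg List.length hZalt
    rwa [List.length_map, length_altl] at this
  have hZL : ∀ x ∈ Z, x ∈ L := fun x hx => (sel_sublist L M).subset (hZ.subset hx)
  obtain ⟨φ, hφQ, hφ⟩ := (hShM.sublist hZ).embed (T := T) hQ'
  rw [hZlen] at hφQ
  -- slopes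
  have hL1 : ∀ x ∈ L, |(x : ℝ) - (-1)| ≤ T := by
    intro x hx
    have h' : (x : ℝ) + 1 ≤ T := by exact_mod_cast hLT x hx
    have h0 : (0 : ℝ) ≤ x := Nat.cast_nonneg x
    rw [abs_le]
    constructor <;> linarith
  have hZ1 : ∀ x ∈ Z, 1 ≤ |(x : ℝ) - (-1)| := by
    intro x _
    have h0 : (0 : ℝ) ≤ x := Nat.cast_nonneg x
    rw [abs_of_nonneg (by linarith)]
    linarith
  have hL2 : ∀ x ∈ L, |(x : ℝ) - (u : ℝ)| ≤ T := by
    intro x hx
    have hx' : (x : ℝ) < T := by exact_mod_cast hLT x hx
    have hu' : (u : ℝ) < T := by exact_mod_cast huT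
    have h1 : (0 : ℝ) ≤ x := Nat.cast_nonneg x
    have h2 : (0 : ℝ) ≤ u := Nat.cast_nonneg u
    rw [abs_le]
    constructor <;> linarith
  have hZ2 : ∀ x ∈ Z, 1 ≤ |(x : ℝ) - (u : ℝ)| := by
    intro x hx
    rcases lt_or_gt_of_ne (hZne x hx) with h | h
    · have h' : (x : ℝ) + 1 ≤ u := by exact_mod_cast h
      rw [abs_of_nonpos (by linarith)]
      linarith
    · have h' : (u : ℝ) + 1 ≤ x := by exact_mod_cast h
      rw [abs_of_nonneg (by linarith)]
      linarith
  have hc1 := hφ (-1) hL1 hZ1
  have hc2 := hφ (u : ℝ) hL2 hZ2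
  rw [map_sign_one, hZlen] at hc1
  have hZalt' : Z.map (fun x : ℕ => decide ((u : ℝ) < (x : ℝ))) = altl false D := by
    rw [← hZalt]
    apply List.map_congr_left
    intro x _
    simp
  rw [hZalt', hZlen] at hc2
  -- the point of a leaf of the tree
  set π : List Bool → Pt := fun a => pt (base T) (φ a) L with hπ
  have hlin : ∀ (σ : ℝ) (a : List Bool), lin (-σ) 1 (π a) = val (base T) σ (φ a) L := by
    intro σ a
    rw [hπ, ← val_eq]
    unfold lin
    ring
  have hπinj : ∀ a b : List Bool, a.length = D → b.length = D → π a = π b → a = b := by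
    intro a b ha hb hab
    by_contra hne
    have h1 := hlin (-1) a
    have h2 := hlin (-1) b
    rw [hab] at h1
    have h3 : val (base T) (-1) (φ a) L = val (base T) (-1) (φ b) L := by
      rw [← h1, ← h2]
    rcases col_true_or a b ha hb hne with h | h
    · rw [← hc1 a b ha hb, h3] at h
      exact lt_irrefl _ h
    · rw [← hc1 b a hb ha, h3] at h
      exact lt_irrefl _ h
  -- the order of the leaves along the polygon
  set ψ : Pt → Option (List Bool) := fun p =>
    if h : ∃ a, a.length = D ∧ π a = p then some h.choose else none with hψ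
  have hψspec : ∀ p a, ψ p = some a → a.length = D ∧ π a = p := by
    intro p a h
    simp only [hψ] at h
    split_ifs at h with hex
    · rw [Option.some.injEq] at h
      rw [← h]
      exact hex.choose_spec
  have hψπ : ∀ a, a.length = D → ψ (π a) = some a := by
    intro a ha
    have hex : ∃ a', a'.length = D ∧ π a' = π a := ⟨a, ha, rfl⟩
    simp only [hψ]
    rw [dif_pos hex, Option.some.injEq]
    exact hπinj _ _ hex.choose_spec.1 ha hex.choose_spec.2
  set La := (List.ofFn v).filterMap ψ with hLa
  have hcov : ∀ a ∈ allB D, a ∈ La := by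
    intro a ha
    rw [mem_allB] at ha
    rw [hLa, List.mem_filterMap]
    refine ⟨π a, ?_, hψπ a ha⟩
    rw [List.mem_ofFn]
    exact hsub _ (hφQ a ha)
  have hlen : ∀ a ∈ La, a.length = D := by
    intro a ha
    rw [hLa, List.mem_filterMap] at ha
    obtain ⟨p, _, hp⟩ := ha
    exact (hψspec p a hp).1
  have hchange : ∀ (σ : ℝ) (es : List Bool),
      (∀ a0 a : List Bool, a0.length = D → a.length = D →
        (val (base T) σ (φ a0) L < val (base T) σ (φ a) L ↔ col es a0 a = true)) →
      ∀ a0 ∈ allB D, chg (La.map (col es a0)) ≤ 2 * j := by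
    intro σ es hc a0 ha0
    rw [mem_allB] at ha0
    have hfin := chg_ofFn_le hP hk (-σ) 1 (lin (-σ) 1 (π a0)) (by simp)
    refine le_trans (chg_sublist ?_) hfin
    rw [hLa]
    apply filterMap_map_sublist
    intro p _ a ha
    obtain ⟨h1, h2⟩ := hψspec p a ha
    rw [← h2, hlin, hlin]
    have := hc a0 a ha0 h1
    by_cases hlt : val (base T) σ (φ a0) L < val (base T) σ (φ a) L
    · rw [this.1 hlt]
      simp [hlt]
    · have hne : ¬ col es a0 a = true := fun h => hlt (this.2 h)
      rw [Bool.not_eq_true] at hne
      rw [hne]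
      simp [hlt]
  exact averaging false (by omega : 8 * j + 2 ≤ D) La hcov hlen
    (hchange (-1) _ hc1) (hchange (u : ℝ) _ hc2)

/-- The construction. -/
theorem construction {m R T n : ℕ} (hm : 1 ≤ m) (hT : T = m ^ (2 * R)) (hn3 : 3 ≤ n)
    (hn : n ≤ 2 ^ T + 1) :
    ∃ P : Finset Pt, P.card = n ∧ (∀ k, 8 * R + 3 ≤ k → KConvexSet k P) ∧
      ∀ (j : ℕ) (Q : Finset Pt), Q ⊆ P → KConvexSet j Q →
        Q.card ≤ 1 + (T + 1) ^ (nb m R (4 * j + 1)) := by
  classical
  set L := labs m R with hLdef
  have hLlen : L.length = T := by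
    rw [hLdef, length_labs, hT]
  have hLT : ∀ x ∈ L, x < T := fun x hx => hT ▸ labs_lt m R x hx
  have hLnd : L.Nodup := labs_nodup m R
  obtain ⟨H, hH⟩ := exists_apex (T := T) L
  rw [hLlen] at hH
  set F := (allB T).take (n - 1) with hF
  have hFlen : F.length = n - 1 := by
    rw [hF, List.length_take, length_allB]
    omega
  have hFsub : F.Sublist (allB T) := List.take_sublist _ _
  have hFpw : F.Pairwise fun a b => (pt (base T) a L).1 < (pt (base T) b L).1 := by
    have := pt_pairwise (T := T) L
    rw [hLlen] at this
    exact this.sublist hFsub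
  set g : List Bool → Pt := fun b => pt (base T) b L with hg
  set l : List Pt := (-1, H) :: F.map g with hl
  set w : ℕ → Pt := fun i => l.getD i 0 with hw
  have hw0 : w 0 = (-1, H) := rfl
  have hwS : ∀ i (hi : i < F.length), w (i + 1) = g F[i] := by
    intro i hi
    simp only [hw, hl, List.getD_cons_succ]
    rw [List.getD_eq_getElem _ _ (by simpa using hi)]
    simp
  set N := n - 1 with hN
  have hmemF : ∀ i (hi : i < F.length), F[i] ∈ allB T := fun i hi =>
    hFsub.subset (List.getElem_mem hi)
  have hlenF : ∀ i (hi : i < F.length), (F[i]).length = L.length := by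
    intro i hi
    rw [hLlen, ← mem_allB]
    exact hmemF i hi
  have hxlt : ∀ i j (hi : i < F.length) (hj : j < F.length), i < j → (g F[i]).1 < (g F[j]).1 :=
    fun i j hi hj hij => (List.pairwise_iff_getElem.1 hFpw) i j hi hj hij
  have hFinj : ∀ i j (hi : i < F.length) (hj : j < F.length), i ≠ j → F[i] ≠ F[j] := by
    intro i j hi hj hij h
    rcases lt_or_gt_of_ne hij with h' | h'
    · have := hxlt i j hi hj h'
      rw [h] at this
      exact lt_irrefl _ this
    · have := hxlt j i hj hi h'
      rw [h] at this
      exact lt_irrefl _ this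
  have hchain : Chain N w := by
    refine ⟨by omega, ?_, ?_, ?_⟩
    · intro i hi
      rw [hwS i (by omega)]
      cases i with
      | zero =>
        rw [hw0]
        have := xc_nonneg (base_nonneg T) (F[0]'(by omega)) L
        simp only [hg]
        linarith
      | succ i =>
        rw [hwS i (by omega)]
        exact hxlt _ _ _ _ (by omega)
    · intro i h0 hi
      obtain ⟨i, rfl⟩ : ∃ i', i = i' + 1 := ⟨i - 1, by omega⟩
      obtain ⟨N', hN'⟩ : ∃ N', N = N' + 1 := ⟨N - 1, by omega⟩
      rw [hN', hwS i (by omega), hwS N' (by omega), hw0]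
      exact (hH _ (hmemF i (by omega)) _ (hmemF N' (by omega))
        (hxlt i N' (by omega) (by omega) (by omega))).2
    · have hapex : ∀ i j (hi : i < F.length) (hj : j < F.length), i ≠ j →
          det3 (-1, H) (g F[i]) (g F[j]) ≠ 0 := by
        intro i j hi hj hij
        rcases lt_or_gt_of_ne hij with h' | h'
        · exact (hH _ (hmemF i hi) _ (hmemF j hj) (hxlt i j hi hj h')).1
        · have := (hH _ (hmemF j hj) _ (hmemF i hi) (hxlt j i hj hi h')).1
          rw [det3_swap23]
          simpa using this
      intro i j k hi hj hk hij hik hjk hcol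
      have hdet := det3_eq_zero_of_collinear hcol
      rcases Nat.eq_zero_or_pos i with hi0 | hi0
      · subst hi0
        obtain ⟨j, rfl⟩ : ∃ j', j = j' + 1 := ⟨j - 1, by omega⟩
        obtain ⟨k, rfl⟩ : ∃ k', k = k' + 1 := ⟨k - 1, by omega⟩
        rw [hw0, hwS j (by omega), hwS k (by omega)] at hdet
        exact hapex j k _ _ (by omega) hdet
      · obtain ⟨i, rfl⟩ : ∃ i', i = i' + 1 := ⟨i - 1, by omega⟩
        rcases Nat.eq_zero_or_pos j with hj0 | hj0
        · subst hj0
          obtain ⟨k, rfl⟩ : ∃ k', k = k' + 1 := ⟨k - 1, by omega⟩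
          rw [hw0, hwS i (by omega), hwS k (by omega), det3_swap12, neg_eq_zero] at hdet
          exact hapex i k _ _ (by omega) hdet
        · obtain ⟨j, rfl⟩ : ∃ j', j = j' + 1 := ⟨j - 1, by omega⟩
          rcases Nat.eq_zero_or_pos k with hk0 | hk0
          · subst hk0
            rw [hw0, hwS i (by omega), hwS j (by omega), det3_swap23, det3_swap12,
              neg_neg] at hdet
            exact hapex i j _ _ (by omega) hdet
          · obtain ⟨k, rfl⟩ : ∃ k', k = k' + 1 := ⟨k - 1, by omega⟩
            rw [hwS i (by omega), hwS j (by omega), hwS k (by omega)] at hdet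
            exact det3_ne_zero L hLnd hLT _ _ _ (hlenF i (by omega)) (hlenF j (by omega))
              (hlenF k (by omega)) (hFinj i j _ _ (by omega)) (hFinj i k _ _ (by omega))
              (hFinj j k _ _ (by omega)) hdet
  have hpoly := hchain.isPolygon
  have hNn : N + 1 = n := by omega
  -- the point set
  set P : Finset Pt := Finset.univ.image (fun i : Fin (N + 1) => w i) with hPdef
  have hPcard : P.card = n := by
    rw [hPdef, Finset.card_image_of_injective _ hpoly.inj, Finset.card_univ, Fintype.card_fin, hNn]
  have hPrange : (P : Set Pt) = Set.range (fun i : Fin (N + 1) => w i) := by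
    rw [hPdef]
    simp
  -- number of runs
  have hruns : ∀ σ τ : ℝ, (runStarts N w σ τ).ncard ≤ 8 * R + 3 := by
    intro σ τ
    set lb : List Bool := l.map (fun p => decide (p.2 - σ * p.1 ≤ τ)) with hlb
    have hlblen : lb.length = N + 1 := by
      rw [hlb, List.length_map, hl, List.length_cons, List.length_map, hFlen]
    have hget : ∀ i, i ≤ N → lb.getD i false = decide ((w i).2 - σ * (w i).1 ≤ τ) := by
      intro i hi
      have hi1 : i < lb.length := by omega
      have hi2 : i < l.length := by
        rw [hlb, List.length_map] at hi1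
        exact hi1
      have e : w i = l[i] := List.getD_eq_getElem _ _ hi2
      rw [List.getD_eq_getElem _ _ hi1]
      simp only [hlb, List.getElem_map, e]
    have hsub : runStarts N w σ τ ⊆ starts false lb := by
      rintro i ⟨hi, h1, h2⟩
      refine ⟨?_, ?_⟩
      · rw [hget i hi]
        simpa using h1
      · split_ifs with h0
        · rfl
        · rw [hget (i - 1) (by omega)]
          rcases h2 with h2 | h2
          · exact absurd h2 h0
          · simpa using h2
    obtain ⟨hfin, hcard⟩ := starts_finite_ncard false lb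
    have h1 := (Set.ncard_le_ncard hsub hfin).trans hcard
    have h2 := two_rise_le false lb
    have h3 : chg (false :: lb) ≤ 2 + (3 + 16 * R) := by
      have e1 : lb = decide (H - σ * (-1) ≤ τ) ::
          F.map (fun b => decide (val (base T) σ b L ≤ τ)) := by
        rw [hlb, hl, List.map_cons, List.map_map]
        congr 1
        apply List.map_congr_left
        intro b _
        simp only [Function.comp_apply, hg, val_eq]
      have e2 := chg_cons_le false lb
      have e3 : chg lb ≤ 1 + chg (F.map (fun b => decide (val (base T) σ b L ≤ τ))) := by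
        rw [e1]
        exact chg_cons_le _ _
      have e4 : chg (F.map (fun b => decide (val (base T) σ b L ≤ τ))) ≤
          chg (TL (base T) σ τ L) := by
        apply chg_sublist
        unfold TL
        rw [hLlen]
        exact hFsub.map _
      have e5 := chg_TL_labs hT σ τ
      rw [← hLdef] at e5
      omega
    simp only [Bool.false_eq_true, if_false] at h2
    omega
  refine ⟨P, hPcard, ?_, ?_⟩
  · intro k hk
    refine ⟨N + 1, fun i : Fin (N + 1) => w i, region w N, hpoly, ?_, hPrange⟩
    exact hchain.kConvexRegion (by omega) (fun σ τ => (hruns σ τ).trans hk)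
  · rintro j Q hQP ⟨n', v, S, hpol, hreg, hQv⟩
    -- the leaves of `Q`
    set Ql : Finset (List Bool) := ((allB T).toFinset).filter fun b => g b ∈ Q with hQl
    have hQlen : ∀ b ∈ Ql, b.length = T := by
      intro b hb
      rw [hQl, Finset.mem_filter, List.mem_toFinset, mem_allB] at hb
      exact hb.1
    have hsmall : Ql.card ≤ (T + 1) ^ (nb m R (4 * j + 1)) := by
      apply leaves_small hm hT hQlen hpol hreg
      intro b hb
      rw [hQl, Finset.mem_filter] at hb
      rw [← hQv]
      exact hb.2
    have hcov : Q ⊆ insert ((-1, H) : Pt) (Ql.image g) := by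
      intro p hp
      have hpP := hQP hp
      rw [hPdef, Finset.mem_image] at hpP
      obtain ⟨i, _, hi⟩ := hpP
      rw [Finset.mem_insert]
      rcases Nat.eq_zero_or_pos (i : ℕ) with hi0 | hi0
      · left
        rw [← hi, hi0, hw0]
      · right
        have hi2 : (i : ℕ) < N + 1 := i.2
        obtain ⟨i', hi'⟩ : ∃ i', (i : ℕ) = i' + 1 := ⟨(i : ℕ) - 1, by omega⟩
        have hi3 : i' < F.length := by omega
        rw [hi', hwS i' hi3] at hi
        rw [Finset.mem_image]
        refine ⟨F[i'], ?_, hi⟩
        rw [hQl, Finset.mem_filter, List.mem_toFinset]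
        refine ⟨hmemF i' hi3, ?_⟩
        rw [hi]
        exact hp
    have h1 := Finset.card_le_card hcov
    have h2 := Finset.card_insert_le ((-1, H) : Pt) (Ql.image g)
    have h3 := Finset.card_image_le (s := Ql) (f := g)
    omega

/-- The combinatorial form of the upper bound. -/
theorem f_le {m R T n k j : ℕ} (hm : 1 ≤ m) (hT : T = m ^ (2 * R)) (hn3 : 3 ≤ n)
    (hn : n ≤ 2 ^ T + 1) (hk : 8 * R + 3 ≤ k) :
    f k j n ≤ 1 + (T + 1) ^ (nb m R (4 * j + 1)) := by
  obtain ⟨P, hPcard, hPk, hPj⟩ := construction hm hT hn3 hn
  unfold f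
  apply csSup_le'
  intro q hq
  obtain ⟨Q, hQP, hQcard, hQ⟩ := hq P hPcard (hPk k hk)
  rw [← hQcard]
  exact hPj j Q hQP hQ

end Pool.Agent.H29.KConv
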