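import Mathlib

/-!
# k-convex polygons and point sets: definitions

Points of the plane are elements of `ℝ × ℝ` (with the usual topology).
-/

namespace Pool.Agent.H29.KConv

/-- The plane. -/
abbrev Pt : Type := ℝ × ℝ

/-- The line through `p` with direction `u` (a line if `u ≠ 0`). -/
def line (p u : Pt) : Set Pt := {x | ∃ t : ℝ, x = p + t • u}

/-- The set of connected components of the set `A`. -/
def comps (A : Set Pt) : Set (Set Pt) := {C | ∃ x ∈ A, C = connectedComponentIn A x}

/-- Edge number `i` of the closed polygonal curve with vertices `v 0, …, v (n - 1)`: the segment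
from `v i` to the next vertex in the cyclic order. -/
def edge {n : ℕ} (v : Fin n → Pt) (i : Fin n) : Set Pt := segment ℝ (v i) (v (finRotate n i))

/-- `S` is the closed region bounded by the simple polygon with vertices `v 0, …, v (n - 1)`
(in this cyclic order), the vertices being in general position (no three collinear). -/
structure IsPolygon (n : ℕ) (v : Fin n → Pt) (S : Set Pt) : Prop where
  three_le : 3 ≤ n
  inj : Function.Injective v
  genpos : ∀ i j l : Fin n, i ≠ j → i ≠ l → j ≠ l → ¬ Collinear ℝ {v i, v j, v l}
  simple : ∀ i j : Fin n, i ≠ j →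
    edge v i ∩ edge v j ⊆ {v i, v (finRotate n i)} ∩ {v j, v (finRotate n j)}
  compact : IsCompact S
  closure_interior : closure (interior S) = S
  frontier_eq : frontier S = ⋃ i, edge v i

/-- Every line meets `S` in at most `k` connected components. -/
def KConvexRegion (k : ℕ) (S : Set Pt) : Prop :=
  ∀ p u : Pt, u ≠ 0 → (comps (S ∩ line p u)).encard ≤ k

/-- A finite point set is `k`-convex if it is the vertex set of a `k`-convex simple polygon. -/
def KConvexSet (k : ℕ) (P : Finset Pt) : Prop :=
  ∃ (n : ℕ) (v : Fin n → Pt) (S : Set Pt),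
    IsPolygon n v S ∧ KConvexRegion k S ∧ (P : Set Pt) = Set.range v

/-- `f k j n` is the largest `m` such that every `k`-convex set of `n` points contains a
`j`-convex subset of size `m`. -/
noncomputable def f (k j n : ℕ) : ℕ :=
  sSup {m : ℕ | ∀ P : Finset Pt, P.card = n → KConvexSet k P →
    ∃ Q : Finset Pt, Q ⊆ P ∧ Q.card = m ∧ KConvexSet j Q}

end Pool.Agent.H29.KConv
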