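import Pool.Agent.H29.KConv.Averaging

/-!
# The label sequence: alternately increasing and decreasing base `m` digits
-/

namespace Pool.Agent.H29.KConv

/-- The labels: written in base `m` with `2 R` digits, the `i`-th label is obtained from `i` by
replacing every second digit `d` by `m - 1 - d`. -/
def labs (m : ℕ) : ℕ → List ℕ
  | 0 => [0]
  | R + 1 => (List.range m).flatMap fun d1 => (List.range m).flatMap fun d2 =>
      (labs m R).map fun x => x + (d1 * m + (m - 1 - d2)) * m ^ (2 * R)

lemma length_labs (m : ℕ) : ∀ R, (labs m R).length = m ^ (2 * R)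
  | 0 => by simp [labs]
  | R + 1 => by
    simp only [labs, List.length_flatMap, List.length_map, length_labs m R, List.map_const',
      List.sum_replicate, List.length_range, smul_eq_mul]
    ring

lemma labs_lt (m : ℕ) : ∀ R, ∀ x ∈ labs m R, x < m ^ (2 * R)
  | 0 => by simp [labs]
  | R + 1 => by
    intro x hx
    simp only [labs, List.mem_flatMap, List.mem_range, List.mem_map] at hx
    obtain ⟨d1, hd1, d2, hd2, y, hy, rfl⟩ := hx
    have h1 := labs_lt m R y hy
    have h2 : d1 * m + (m - 1 - d2) + 1 ≤ m * m := by
      have : d1 * m + m ≤ m * m := by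
        have := Nat.mul_le_mul_right m (show d1 + 1 ≤ m from hd1)
        nlinarith
      omega
    calc y + (d1 * m + (m - 1 - d2)) * m ^ (2 * R)
        < m ^ (2 * R) + (d1 * m + (m - 1 - d2)) * m ^ (2 * R) := by omega
      _ = (d1 * m + (m - 1 - d2) + 1) * m ^ (2 * R) := by ring
      _ ≤ m * m * m ^ (2 * R) := Nat.mul_le_mul_right _ h2
      _ = m ^ (2 * (R + 1)) := by ring

lemma labs_nodup (m : ℕ) : ∀ R, (labs m R).Nodup
  | 0 => by simp [labs]
  | R + 1 => by
    have ih := labs_nodup m R
    simp only [labs]
    rw [List.nodup_flatMap]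
    constructor
    · intro d1 _
      rw [List.nodup_flatMap]
      constructor
      · intro d2 _
        exact ih.map (fun a b h => by simpa using h)
      · rw [List.pairwise_iff_getElem]
        intro i j hi hj hij
        simp only [List.getElem_range, List.length_range] at hi hj ⊢
        rw [Function.onFun, List.disjoint_left]
        intro a ha hb
        rw [List.mem_map] at ha hb
        obtain ⟨x, hx, rfl⟩ := ha
        obtain ⟨y, hy, hxy⟩ := hb
        have hx' := labs_lt m R x hx
        have hy' := labs_lt m R y hy
        have hlt : d1 * m + (m - 1 - j) + 1 ≤ d1 * m + (m - 1 - i) := by omega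
        have := Nat.mul_le_mul_right (m ^ (2 * R)) hlt
        rw [add_mul, one_mul] at this
        omega
    · rw [List.pairwise_iff_getElem]
      intro i j hi hj hij
      simp only [List.getElem_range, List.length_range] at hi hj ⊢
      rw [Function.onFun, List.disjoint_left]
      intro a ha hb
      rw [List.mem_flatMap] at ha hb
      obtain ⟨d2, hd2, ha⟩ := ha
      obtain ⟨d2', hd2', hb⟩ := hb
      rw [List.mem_range] at hd2 hd2'
      rw [List.mem_map] at ha hb
      obtain ⟨x, hx, rfl⟩ := ha
      obtain ⟨y, hy, hxy⟩ := hb
      have hx' := labs_lt m R x hx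
      have hy' := labs_lt m R y hy
      have hlt : i * m + (m - 1 - d2) + 1 ≤ j * m + (m - 1 - d2') := by
        have : i * m + m ≤ j * m := by
          have := Nat.mul_le_mul_right m (show i + 1 ≤ j from hij)
          nlinarith
        omega
      have := Nat.mul_le_mul_right (m ^ (2 * R)) hlt
      rw [add_mul, one_mul] at this
      omega

/-- blocks of which the earlier ones are constant `c1` and the later ones constant `c2` -/
lemma chg_blocks (m C : ℕ) (blk : ℕ → List Bool) (c1 c2 : Bool)
    (h : ∀ d d', d < d' → d' < m → (∀ x ∈ blk d, x = c1) ∨ (∀ x ∈ blk d', x = c2))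
    (hC : ∀ d < m, chg (blk d) ≤ C) : chg ((List.range m).flatMap blk) ≤ C + 2 := by
  classical
  by_cases hall : ∀ d < m, ∀ x ∈ blk d, x = c1
  · rw [chg_of_forall_eq (c := c1)]
    · omega
    · intro x hx
      rw [List.mem_flatMap] at hx
      obtain ⟨d, hd, hx⟩ := hx
      exact hall d (List.mem_range.1 hd) x hx
  · push Not at hall
    have hex : ∃ d, d < m ∧ ∃ x ∈ blk d, x ≠ c1 := hall
    obtain ⟨ds, ⟨hdm, x0, hx0, hx0c⟩, hdsmin⟩ : ∃ ds, (ds < m ∧ ∃ x ∈ blk ds, x ≠ c1) ∧
        ∀ d < ds, ¬ (d < m ∧ ∃ x ∈ blk d, x ≠ c1) :=
      ⟨Nat.find hex, Nat.find_spec hex, fun d hd => Nat.find_min hex hd⟩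
    have hmin : ∀ d < ds, ∀ x ∈ blk d, x = c1 := by
      intro d hd x hx
      by_contra hne
      exact hdsmin d hd ⟨lt_trans hd hdm, x, hx, hne⟩
    have hafter : ∀ d, ds < d → d < m → ∀ x ∈ blk d, x = c2 := by
      intro d h1 h2
      rcases h ds d h1 h2 with h' | h'
      · exact absurd (h' x0 hx0) hx0c
      · exact h'
    obtain ⟨b, rfl⟩ : ∃ b, m = ds + (1 + b) := ⟨m - ds - 1, by omega⟩
    rw [List.range_add, List.flatMap_append]
    rw [List.range_add, List.map_append, List.flatMap_append]
    have e1 : chg ((List.range ds).flatMap blk) = 0 := by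
      apply chg_of_forall_eq (c := c1)
      intro x hx
      rw [List.mem_flatMap] at hx
      obtain ⟨d, hd, hx⟩ := hx
      exact hmin d (List.mem_range.1 hd) x hx
    have e2 : ((List.range 1).map (fun x => ds + x)).flatMap blk = blk ds := by
      simp
    have e3 : chg (((List.range b).map (fun x => 1 + x) |>.map (fun x => ds + x)).flatMap blk)
        = 0 := by
      apply chg_of_forall_eq (c := c2)
      intro x hx
      rw [List.mem_flatMap] at hx
      obtain ⟨d, hd, hx⟩ := hx
      simp only [List.mem_map, List.mem_range] at hd
      obtain ⟨d', ⟨d'', hd'', rfl⟩, rfl⟩ := hd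
      exact hafter _ (by omega) (by omega) x hx
    rw [e2]
    have h1 := chg_append_le ((List.range ds).flatMap blk)
      (blk ds ++ ((List.range b).map (fun x => 1 + x) |>.map (fun x => ds + x)).flatMap blk)
    have h2 := chg_append_le (blk ds)
      (((List.range b).map (fun x => 1 + x) |>.map (fun x => ds + x)).flatMap blk)
    have h3 := hC ds hdm
    omega

/-- the labels cross any threshold at most `4 R` times -/
lemma chg_labs (m : ℕ) : ∀ (R : ℕ) (σ : ℝ),
    chg ((labs m R).map fun x : ℕ => decide (σ < (x : ℝ))) ≤ 4 * R
  | 0, σ => by simp [labs]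
  | R + 1, σ => by
    simp only [labs, List.map_flatMap, List.map_map]
    have : 4 * (R + 1) = (4 * R + 2) + 2 := by ring
    rw [this]
    apply chg_blocks m (4 * R + 2) _ false true
    · intro d d' hdd' hd'
      by_cases hall : ∀ x ∈ (List.range m).flatMap fun d2 => (labs m R).map
          ((fun x : ℕ => decide (σ < (x : ℝ))) ∘ fun x => x + (d * m + (m - 1 - d2)) * m ^ (2 * R)),
          x = false
      · left
        exact hall
      · right
        push Not at hall
        obtain ⟨c, hc, hct⟩ := hall
        rw [List.mem_flatMap] at hc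
        obtain ⟨d2, hd2, hc⟩ := hc
        rw [List.mem_range] at hd2
        rw [List.mem_map] at hc
        obtain ⟨x, hx, rfl⟩ := hc
        simp only [Function.comp_apply, Bool.not_eq_false, decide_eq_true_eq] at hct
        intro c hc
        rw [List.mem_flatMap] at hc
        obtain ⟨d2', hd2', hc⟩ := hc
        rw [List.mem_range] at hd2'
        rw [List.mem_map] at hc
        obtain ⟨y, hy, rfl⟩ := hc
        simp only [Function.comp_apply, decide_eq_true_eq]
        refine lt_of_lt_of_le hct ?_
        have hx' := labs_lt m R x hx
        have hlt : d * m + (m - 1 - d2) + 1 ≤ d' * m + (m - 1 - d2') := by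
          have : d * m + m ≤ d' * m := by
            have := Nat.mul_le_mul_right m (show d + 1 ≤ d' from hdd')
            nlinarith
          omega
        have := Nat.mul_le_mul_right (m ^ (2 * R)) hlt
        rw [add_mul, one_mul] at this
        exact_mod_cast (by omega)
    · intro d1 hd1
      apply chg_blocks m (4 * R) _ true false
      · intro d d' hdd' hd'
        by_cases hall : ∀ x ∈ (labs m R).map
          ((fun x : ℕ => decide (σ < (x : ℝ))) ∘ fun x => x + (d1 * m + (m - 1 - d)) * m ^ (2 * R)),
          x = true
        · left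
          exact hall
        · right
          push Not at hall
          obtain ⟨c, hc, hct⟩ := hall
          rw [List.mem_map] at hc
          obtain ⟨x, hx, rfl⟩ := hc
          simp only [Function.comp_apply, Bool.not_eq_true, decide_eq_false_iff_not,
            not_lt] at hct
          intro c hc
          rw [List.mem_map] at hc
          obtain ⟨y, hy, rfl⟩ := hc
          simp only [Function.comp_apply, decide_eq_false_iff_not, not_lt]
          refine le_trans ?_ hct
          have hy' := labs_lt m R y hy
          have hlt : d1 * m + (m - 1 - d') + 1 ≤ d1 * m + (m - 1 - d) := by omega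
          have := Nat.mul_le_mul_right (m ^ (2 * R)) hlt
          rw [add_mul, one_mul] at this
          exact_mod_cast (by omega)
      · intro d2 hd2
        have ih := chg_labs m R (σ - (((d1 * m + (m - 1 - d2)) * m ^ (2 * R) : ℕ) : ℝ))
        refine le_trans (le_of_eq ?_) ih
        congr 1
        apply List.map_congr_left
        intro x _
        simp only [Function.comp_apply]
        congr 1
        apply propext
        rw [Nat.cast_add]
        constructor <;> intro h <;> linarith

end Pool.Agent.H29.KConv
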