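import Pool.Agent.H29.KConv.Defs

/-!
# x-monotone polygons

The closed region between a piecewise linear function and the chord of its end points.
-/

namespace Pool.Agent.H29.KConv

open Set

/-- The vertices `w 0, …, w N` have increasing x-coordinates and the interior ones lie strictly
below the chord from `w 0` to `w N`. -/
structure Chain (N : ℕ) (w : ℕ → Pt) : Prop where
  two_le : 2 ≤ N
  lt : ∀ i, i < N → (w i).1 < (w (i + 1)).1
  below : ∀ i, 0 < i → i < N →
    (w i).2 < (w 0).2 + ((w N).2 - (w 0).2) / ((w N).1 - (w 0).1) * ((w i).1 - (w 0).1)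
  genpos : ∀ i j l, i ≤ N → j ≤ N → l ≤ N → i ≠ j → i ≠ l → j ≠ l →
    ¬ Collinear ℝ {w i, w j, w l}

/-- slope of the `i`-th side of the chain -/
noncomputable def slp (w : ℕ → Pt) (i : ℕ) : ℝ :=
  ((w (i + 1)).2 - (w i).2) / ((w (i + 1)).1 - (w i).1)

/-- the piecewise linear function through the points of the chain -/
noncomputable def gfun (w : ℕ → Pt) (M : ℕ) (x : ℝ) : ℝ :=
  (w 0).2 + ∑ i ∈ Finset.range M, slp w i * (max (w i).1 (min (w (i + 1)).1 x) - (w i).1)

/-- the chord -/
noncomputable def hfun (w : ℕ → Pt) (N : ℕ) (x : ℝ) : ℝ :=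
  (w 0).2 + ((w N).2 - (w 0).2) / ((w N).1 - (w 0).1) * (x - (w 0).1)

/-- the region between the chain and the chord -/
def region (w : ℕ → Pt) (N : ℕ) : Set Pt :=
  {p | (w 0).1 ≤ p.1 ∧ p.1 ≤ (w N).1 ∧ gfun w N p.1 ≤ p.2 ∧ p.2 ≤ hfun w N p.1}

/-- the open region between the chain and the chord -/
def region0 (w : ℕ → Pt) (N : ℕ) : Set Pt :=
  {p | (w 0).1 < p.1 ∧ p.1 < (w N).1 ∧ gfun w N p.1 < p.2 ∧ p.2 < hfun w N p.1}

lemma continuous_gfun (w : ℕ → Pt) (M : ℕ) : Continuous (gfun w M) := by
  unfold gfun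
  fun_prop

lemma continuous_hfun (w : ℕ → Pt) (N : ℕ) : Continuous (hfun w N) := by
  unfold hfun
  fun_prop

namespace Chain

variable {N : ℕ} {w : ℕ → Pt}

lemma mono (h : Chain N w) {i j : ℕ} (hij : i ≤ j) (hj : j ≤ N) : (w i).1 ≤ (w j).1 := by
  induction j, hij using Nat.le_induction with
  | base => exact le_rfl
  | succ j hij ih =>
    exact (ih (by omega)).trans (h.lt j (by omega)).le

lemma smono (h : Chain N w) {i j : ℕ} (hij : i < j) (hj : j ≤ N) : (w i).1 < (w j).1 :=
  lt_of_lt_of_le (h.lt i (by omega)) (h.mono hij hj)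

lemma inj (h : Chain N w) {i j : ℕ} (hi : i ≤ N) (hj : j ≤ N) (hij : (w i).1 = (w j).1) :
    i = j := by
  rcases lt_trichotomy i j with hlt | heq | hgt
  · exact absurd hij (h.smono hlt hj).ne
  · exact heq
  · exact absurd hij.symm (h.smono hgt hi).ne

lemma gfun_right (h : Chain N w) {M : ℕ} (hM : M ≤ N) {x : ℝ} (hx : (w M).1 ≤ x) :
    gfun w M x = (w M).2 := by
  induction M with
  | zero => simp [gfun]
  | succ M ih =>
    have hlt := h.lt M (by omega)
    have hx' : (w M).1 ≤ x := hlt.le.trans hx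
    have ih' := ih (by omega) hx'
    unfold gfun at ih' ⊢
    rw [Finset.sum_range_succ, ← add_assoc, ih', min_eq_left hx, max_eq_right hlt.le]
    unfold slp
    rw [div_mul_cancel₀ _ (by linarith)]
    ring

lemma gfun_stable (h : Chain N w) {M M' : ℕ} (hMM' : M ≤ M') (hM : M' ≤ N) {x : ℝ}
    (hx : x ≤ (w M).1) : gfun w M' x = gfun w M x := by
  induction M', hMM' using Nat.le_induction with
  | base => rfl
  | succ M' hMM' ih =>
    have hlt := h.lt M' (by omega)
    have hm := h.mono hMM' (by omega)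
    have ih' := ih (by omega)
    unfold gfun at ih' ⊢
    rw [Finset.sum_range_succ, ← add_assoc, ih', min_eq_right (by linarith),
      max_eq_left (by linarith)]
    ring

/-- the piecewise linear function on the `i`-th interval -/
lemma gfun_on (h : Chain N w) {i : ℕ} (hi : i < N) {x : ℝ} (h1 : (w i).1 ≤ x)
    (h2 : x ≤ (w (i + 1)).1) : gfun w N x = (w i).2 + slp w i * (x - (w i).1) := by
  rw [h.gfun_stable (M := i + 1) (by omega) le_rfl h2]
  have := h.gfun_right (M := i) (by omega) h1
  unfold gfun at this ⊢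
  rw [Finset.sum_range_succ, ← add_assoc, this, min_eq_right h2, max_eq_right h1]

lemma gfun_vertex (h : Chain N w) {i : ℕ} (hi : i ≤ N) : gfun w N (w i).1 = (w i).2 := by
  rw [h.gfun_stable (M := i) hi le_rfl le_rfl, h.gfun_right hi le_rfl]

lemma hfun_zero : hfun w N (w 0).1 = (w 0).2 := by
  simp [hfun]

lemma hfun_last (h : Chain N w) : hfun w N (w N).1 = (w N).2 := by
  have h1 := h.smono (i := 0) (j := N) (by have := h.two_le; omega) le_rfl
  unfold hfun
  rw [div_mul_cancel₀ _ (by linarith)]
  ring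

lemma exists_interval (h : Chain N w) {x : ℝ} (h0 : (w 0).1 ≤ x) (hN : x ≤ (w N).1) :
    ∃ i, i < N ∧ (w i).1 ≤ x ∧ x ≤ (w (i + 1)).1 := by
  have key : ∀ M, M ≤ N → x ≤ (w M).1 → 0 < M → ∃ i, i < N ∧ (w i).1 ≤ x ∧ x ≤ (w (i + 1)).1 := by
    intro M
    induction M with
    | zero =>
      intro _ _ h
      omega
    | succ M ih =>
      intro hM hx _
      by_cases hxM : (w M).1 ≤ x
      · exact ⟨M, by omega, hxM, hx⟩
      · rcases Nat.eq_zero_or_pos M with hz | hp
        · subst hz
          exact absurd h0 hxM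
        · exact ih (by omega) (not_le.1 hxM).le hp
  exact key N le_rfl hN (by have := h.two_le; omega)

lemma vertex_le (h : Chain N w) {i : ℕ} (hi : i ≤ N) : (w i).2 ≤ hfun w N (w i).1 := by
  rcases Nat.eq_zero_or_pos i with hz | hp
  · subst hz
    rw [hfun_zero]
  · rcases hi.lt_or_eq with hlt | heq
    · exact (h.below i hp hlt).le
    · subst heq
      rw [h.hfun_last]

lemma vertex_lt (h : Chain N w) {i : ℕ} (h0 : 0 < i) (hi : i < N) :
    (w i).2 < hfun w N (w i).1 := h.below i h0 hi

lemma gfun_lt_hfun (h : Chain N w) {x : ℝ} (h0 : (w 0).1 < x) (hN : x < (w N).1) :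
    gfun w N x < hfun w N x := by
  obtain ⟨i, hi, h1, h2⟩ := h.exists_interval h0.le hN.le
  have hlt := h.lt i hi
  rw [h.gfun_on hi h1 h2]
  have e1 := h.vertex_le (i := i) (by omega)
  have e2 := h.vertex_le (i := i + 1) (by omega)
  have hN2 := h.two_le
  -- write x as a convex combination
  set t : ℝ := (x - (w i).1) / ((w (i + 1)).1 - (w i).1) with ht
  have hd : 0 < (w (i + 1)).1 - (w i).1 := by linarith
  have hxt : x = (w i).1 + t * ((w (i + 1)).1 - (w i).1) := by
    rw [ht, div_mul_cancel₀ _ hd.ne']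
    ring
  have ht0 : 0 ≤ t := div_nonneg (by linarith) hd.le
  have ht1 : t ≤ 1 := by
    rw [ht, div_le_one hd]
    linarith
  have hg : (w i).2 + slp w i * (x - (w i).1) = (1 - t) * (w i).2 + t * (w (i + 1)).2 := by
    rw [hxt]
    unfold slp
    field_simp
    ring
  have hh : hfun w N x = (1 - t) * hfun w N (w i).1 + t * hfun w N (w (i + 1)).1 := by
    unfold hfun
    rw [hxt]
    ring
  rw [hg, hh]
  by_cases hti : t = 0
  · -- x is the vertex `w i`
    have hxi : x = (w i).1 := by
      rw [hxt, hti]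
      ring
    have hi0 : 0 < i := by
      rcases Nat.eq_zero_or_pos i with hz | hp
      · subst hz
        exact absurd hxi h0.ne'
      · exact hp
    have := h.vertex_lt hi0 hi
    rw [hti]
    linarith
  · have htp : 0 < t := lt_of_le_of_ne ht0 (Ne.symm hti)
    by_cases ht1' : t = 1
    · have hxi : x = (w (i + 1)).1 := by
        rw [hxt, ht1']
        ring
      have hi1 : i + 1 < N := by
        by_contra hcon
        have : i + 1 = N := by omega
        rw [this] at hxi
        exact absurd hxi hN.ne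
      have := h.vertex_lt (by omega) hi1
      rw [ht1']
      linarith
    · have htl : t < 1 := lt_of_le_of_ne ht1 ht1'
      by_cases hi0 : 0 < i
      · have e3 := h.vertex_lt hi0 hi
        have := mul_lt_mul_of_pos_left e3 (show 0 < 1 - t by linarith)
        have := mul_le_mul_of_nonneg_left e2 ht0
        linarith
      · have e3 := h.vertex_lt (i := i + 1) (by omega) (by omega)
        have := mul_lt_mul_of_pos_left e3 htp
        have := mul_le_mul_of_nonneg_left e1 (show 0 ≤ 1 - t by linarith)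
        linarith

lemma gfun_le_hfun (h : Chain N w) {x : ℝ} (h0 : (w 0).1 ≤ x) (hN : x ≤ (w N).1) :
    gfun w N x ≤ hfun w N x := by
  rcases h0.lt_or_eq with h0' | h0'
  · rcases hN.lt_or_eq with hN' | hN'
    · exact (h.gfun_lt_hfun h0' hN').le
    · rw [hN', h.gfun_vertex le_rfl, h.hfun_last]
  · rw [← h0', h.gfun_vertex (Nat.zero_le _), hfun_zero]

lemma eq_of_gfun_eq_hfun (h : Chain N w) {x : ℝ} (h0 : (w 0).1 ≤ x) (hN : x ≤ (w N).1)
    (he : gfun w N x = hfun w N x) : x = (w 0).1 ∨ x = (w N).1 := by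
  by_contra hcon
  push Not at hcon
  have := h.gfun_lt_hfun (lt_of_le_of_ne h0 (Ne.symm hcon.1)) (lt_of_le_of_ne hN hcon.2)
  exact this.ne he

end Chain

/-- a segment which is not vertical -/
lemma segment_eq_graph {a b : Pt} (hab : a.1 < b.1) :
    segment ℝ a b = {p : Pt | a.1 ≤ p.1 ∧ p.1 ≤ b.1 ∧
      p.2 = a.2 + (b.2 - a.2) / (b.1 - a.1) * (p.1 - a.1)} := by
  have hd : 0 < b.1 - a.1 := by linarith
  ext p
  rw [segment_eq_image_lineMap]
  constructor
  · rintro ⟨t, ht, rfl⟩
    simp only [mem_ofPred_eq, AffineMap.lineMap_apply, vsub_eq_sub, vadd_eq_add, Prod.fst_add,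
      Prod.snd_add, Prod.smul_fst, Prod.smul_snd, Prod.fst_sub, Prod.snd_sub, smul_eq_mul]
    refine ⟨?_, ?_, ?_⟩
    · nlinarith [ht.1, ht.2]
    · nlinarith [ht.1, ht.2]
    · field_simp
      ring
  · rintro ⟨h1, h2, h3⟩
    refine ⟨(p.1 - a.1) / (b.1 - a.1), ⟨div_nonneg (by linarith) hd.le, ?_⟩, ?_⟩
    · rw [div_le_one hd]
      linarith
    · ext
      · simp only [AffineMap.lineMap_apply, vsub_eq_sub, vadd_eq_add, Prod.fst_add,
          Prod.smul_fst, Prod.fst_sub, smul_eq_mul]
        field_simp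
        ring
      · simp only [AffineMap.lineMap_apply, vsub_eq_sub, vadd_eq_add, Prod.snd_add,
          Prod.smul_snd, Prod.snd_sub, smul_eq_mul]
        rw [h3]
        field_simp
        ring

/-- moving a little from an interior point -/
lemma exists_pos_mem_of_interior {S : Set Pt} {p : Pt} (hp : p ∈ interior S) (u : Pt) :
    ∃ ε : ℝ, 0 < ε ∧ p + ε • u ∈ S := by
  have hcont : Continuous fun t : ℝ => p + t • u := by fun_prop
  have ht0 : Filter.Tendsto (fun t : ℝ => p + t • u) (nhdsWithin 0 (Ioi 0)) (nhds p) := by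
    have := hcont.tendsto 0
    simp only [zero_smul, add_zero] at this
    exact this.mono_left nhdsWithin_le_nhds
  have hev := ht0.eventually (isOpen_interior.mem_nhds hp)
  obtain ⟨t, ht, ht0⟩ := (hev.and self_mem_nhdsWithin).exists
  exact ⟨t, ht0, interior_subset ht⟩

namespace Chain

variable {N : ℕ} {w : ℕ → Pt}

lemma isOpen_region0 : IsOpen (region0 w N) := by
  have hg := continuous_gfun w N
  have hh := continuous_hfun w N
  have h1 : IsOpen {p : Pt | (w 0).1 < p.1} := isOpen_lt continuous_const continuous_fst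
  have h2 : IsOpen {p : Pt | p.1 < (w N).1} := isOpen_lt continuous_fst continuous_const
  have h3 : IsOpen {p : Pt | gfun w N p.1 < p.2} :=
    isOpen_lt (hg.comp continuous_fst) continuous_snd
  have h4 : IsOpen {p : Pt | p.2 < hfun w N p.1} :=
    isOpen_lt continuous_snd (hh.comp continuous_fst)
  exact h1.inter (h2.inter (h3.inter h4))

lemma isClosed_region : IsClosed (region w N) := by
  have hg := continuous_gfun w N
  have hh := continuous_hfun w N
  have h1 : IsClosed {p : Pt | (w 0).1 ≤ p.1} := isClosed_le continuous_const continuous_fst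
  have h2 : IsClosed {p : Pt | p.1 ≤ (w N).1} := isClosed_le continuous_fst continuous_const
  have h3 : IsClosed {p : Pt | gfun w N p.1 ≤ p.2} :=
    isClosed_le (hg.comp continuous_fst) continuous_snd
  have h4 : IsClosed {p : Pt | p.2 ≤ hfun w N p.1} :=
    isClosed_le continuous_snd (hh.comp continuous_fst)
  exact h1.inter (h2.inter (h3.inter h4))

lemma isCompact_region : IsCompact (region w N) := by
  have hg := continuous_gfun w N
  have hh := continuous_hfun w N
  -- bounded
  obtain ⟨A, hA⟩ := (isCompact_Icc (a := (w 0).1) (b := (w N).1)).bddBelow_image hg.continuousOn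
  obtain ⟨B, hB⟩ := (isCompact_Icc (a := (w 0).1) (b := (w N).1)).bddAbove_image hh.continuousOn
  refine IsCompact.of_isClosed_subset (isCompact_Icc (a := (((w 0).1, A) : Pt))
    (b := (((w N).1, B) : Pt))) isClosed_region ?_
  intro p hp
  obtain ⟨h1, h2, h3, h4⟩ := hp
  have hA' := hA (mem_image_of_mem _ (⟨h1, h2⟩ : p.1 ∈ Icc (w 0).1 (w N).1))
  have hB' := hB (mem_image_of_mem _ (⟨h1, h2⟩ : p.1 ∈ Icc (w 0).1 (w N).1))
  exact ⟨⟨h1, by simpa using hA'.trans h3⟩, ⟨h2, by simpa using h4.trans hB'⟩⟩

lemma region_subset_closure (h : Chain N w) : region w N ⊆ closure (region0 w N) := by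
  rintro p ⟨h1, h2, h3, h4⟩
  have hg := continuous_gfun w N
  have hh := continuous_hfun w N
  have hlt : (w 0).1 < (w N).1 := h.smono (by have := h.two_le; omega) le_rfl
  obtain ⟨s, hs0, hs1, hs⟩ : ∃ s : ℝ, 0 ≤ s ∧ s ≤ 1 ∧
      p.2 = (1 - s) * gfun w N p.1 + s * hfun w N p.1 := by
    rcases (h3.trans h4).lt_or_eq with hl | he
    · have hd : 0 < hfun w N p.1 - gfun w N p.1 := by linarith
      refine ⟨(p.2 - gfun w N p.1) / (hfun w N p.1 - gfun w N p.1),
        div_nonneg (by linarith) hd.le, ?_, ?_⟩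
      · rw [div_le_one hd]
        linarith
      · field_simp
        ring
    · refine ⟨0, le_rfl, zero_le_one, ?_⟩
      have : p.2 = gfun w N p.1 := by linarith
      rw [this]
      ring
  set c : ℝ := ((w 0).1 + (w N).1) / 2 with hc
  set γ : ℝ → Pt := fun t => ((1 - t) * p.1 + t * c,
    (1 - ((1 - t) * s + t / 2)) * gfun w N ((1 - t) * p.1 + t * c) +
      ((1 - t) * s + t / 2) * hfun w N ((1 - t) * p.1 + t * c)) with hγ
  have hγc : Continuous γ := by
    simp only [hγ]
    have e1 : Continuous fun t : ℝ => gfun w N ((1 - t) * p.1 + t * c) :=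
      hg.comp (by fun_prop)
    have e2 : Continuous fun t : ℝ => hfun w N ((1 - t) * p.1 + t * c) :=
      hh.comp (by fun_prop)
    fun_prop
  have hγ0 : γ 0 = p := by
    simp only [hγ]
    ext
    · simp
    · simp only [sub_zero, one_mul, zero_mul, add_zero, zero_div]
      exact hs.symm
  have ht0 : Filter.Tendsto γ (nhdsWithin 0 (Ioi 0)) (nhds p) := by
    have := hγc.tendsto 0
    rw [hγ0] at this
    exact this.mono_left nhdsWithin_le_nhds
  refine mem_closure_of_tendsto ht0 ?_
  have hmem : Ioo (0 : ℝ) 1 ∈ nhdsWithin (0 : ℝ) (Ioi 0) := Ioo_mem_nhdsGT zero_lt_one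
  filter_upwards [hmem] with t ht
  obtain ⟨ht0, ht1⟩ := ht
  have hx0 : (w 0).1 < (1 - t) * p.1 + t * c := by
    have h5 : (1 - t) * (w 0).1 ≤ (1 - t) * p.1 := mul_le_mul_of_nonneg_left h1 (by linarith)
    have h6 : t * (w 0).1 < t * c := mul_lt_mul_of_pos_left (by linarith) ht0
    linarith
  have hxN : (1 - t) * p.1 + t * c < (w N).1 := by
    have h5 : (1 - t) * p.1 ≤ (1 - t) * (w N).1 := mul_le_mul_of_nonneg_left h2 (by linarith)
    have h6 : t * c < t * (w N).1 := mul_lt_mul_of_pos_left (by linarith) ht0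
    linarith
  have hgh := h.gfun_lt_hfun hx0 hxN
  have hs0' : 0 < (1 - t) * s + t / 2 := by
    have := mul_nonneg (show 0 ≤ 1 - t by linarith) hs0
    linarith
  have hs1' : (1 - t) * s + t / 2 < 1 := by
    have := mul_le_mul_of_nonneg_left hs1 (show 0 ≤ 1 - t by linarith)
    linarith
  refine ⟨hx0, hxN, ?_, ?_⟩
  · simp only [hγ]
    have := mul_pos hs0' (sub_pos.2 hgh)
    linarith
  · simp only [hγ]
    have := mul_pos (sub_pos.2 hs1') (sub_pos.2 hgh)
    linarith

lemma region0_subset : region0 w N ⊆ region w N :=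
  fun _ hp => ⟨hp.1.le, hp.2.1.le, hp.2.2.1.le, hp.2.2.2.le⟩

lemma interior_region (_h : Chain N w) : interior (region w N) = region0 w N := by
  apply Subset.antisymm
  · intro p hp
    have hpS := interior_subset hp
    obtain ⟨h1, h2, h3, h4⟩ := hpS
    refine ⟨?_, ?_, ?_, ?_⟩
    · obtain ⟨ε, hε, hm⟩ := exists_pos_mem_of_interior hp ((-1, 0) : Pt)
      have := hm.1
      simp only [Prod.fst_add, Prod.smul_fst, smul_eq_mul] at this
      linarith
    · obtain ⟨ε, hε, hm⟩ := exists_pos_mem_of_interior hp ((1, 0) : Pt)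
      have := hm.2.1
      simp only [Prod.fst_add, Prod.smul_fst, smul_eq_mul] at this
      linarith
    · obtain ⟨ε, hε, hm⟩ := exists_pos_mem_of_interior hp ((0, -1) : Pt)
      have := hm.2.2.1
      simp only [Prod.fst_add, Prod.smul_fst, Prod.snd_add, Prod.smul_snd, smul_eq_mul,
        mul_zero, add_zero] at this
      linarith
    · obtain ⟨ε, hε, hm⟩ := exists_pos_mem_of_interior hp ((0, 1) : Pt)
      have := hm.2.2.2
      simp only [Prod.fst_add, Prod.smul_fst, Prod.snd_add, Prod.smul_snd, smul_eq_mul,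
        mul_zero, add_zero] at this
      linarith
  · exact interior_maximal region0_subset isOpen_region0

lemma closure_interior_region (h : Chain N w) :
    closure (interior (region w N)) = region w N := by
  rw [h.interior_region]
  apply Subset.antisymm
  · exact closure_minimal region0_subset isClosed_region
  · exact h.region_subset_closure

/-- edges of the chain -/
lemma edge_chain (h : Chain N w) {i : ℕ} (hi : i < N) :
    segment ℝ (w i) (w (i + 1)) =
      {p : Pt | (w i).1 ≤ p.1 ∧ p.1 ≤ (w (i + 1)).1 ∧ p.2 = gfun w N p.1} := by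
  rw [segment_eq_graph (h.lt i hi)]
  ext p
  simp only [mem_ofPred_eq]
  constructor
  · rintro ⟨h1, h2, h3⟩
    refine ⟨h1, h2, ?_⟩
    rw [h.gfun_on hi h1 h2, h3]
    rfl
  · rintro ⟨h1, h2, h3⟩
    refine ⟨h1, h2, ?_⟩
    rw [h3, h.gfun_on hi h1 h2]
    rfl

/-- the closing edge -/
lemma edge_chord (h : Chain N w) :
    segment ℝ (w N) (w 0) =
      {p : Pt | (w 0).1 ≤ p.1 ∧ p.1 ≤ (w N).1 ∧ p.2 = hfun w N p.1} := by
  rw [segment_symm, segment_eq_graph (h.smono (by have := h.two_le; omega) le_rfl)]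
  rfl

/-- edges of the closed polygon -/
lemma edge_eq_of_lt (i : Fin (N + 1)) (hi : (i : ℕ) < N) :
    edge (fun i : Fin (N + 1) => w i) i = segment ℝ (w i) (w (i + 1)) := by
  unfold edge
  have : ((finRotate (N + 1) i : Fin (N + 1)) : ℕ) = (i : ℕ) + 1 := by
    rw [finRotate_of_lt hi]
  simp only [this]

lemma edge_eq_last (i : Fin (N + 1)) (hi : ¬ (i : ℕ) < N) :
    edge (fun i : Fin (N + 1) => w i) i = segment ℝ (w N) (w 0) := by
  have hi' : i = Fin.last N := by
    ext
    have := i.2
    simp only [Fin.val_last]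
    omega
  subst hi'
  unfold edge
  rw [finRotate_last]
  simp

lemma frontier_region (h : Chain N w) :
    frontier (region w N) = ⋃ i, edge (fun i : Fin (N + 1) => w i) i := by
  have hlt : (w 0).1 < (w N).1 := h.smono (by have := h.two_le; omega) le_rfl
  rw [isClosed_region.frontier_eq, h.interior_region]
  apply Subset.antisymm
  · rintro p ⟨⟨h1, h2, h3, h4⟩, hn⟩
    rw [mem_iUnion]
    have hchord : p.2 = hfun w N p.1 → ∃ i, p ∈ edge (fun i : Fin (N + 1) => w i) i := by
      intro hp
      refine ⟨Fin.last N, ?_⟩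
      rw [edge_eq_last _ (by simp), h.edge_chord]
      exact ⟨h1, h2, hp⟩
    by_cases e1 : (w 0).1 < p.1
    · by_cases e2 : p.1 < (w N).1
      · by_cases e3 : gfun w N p.1 < p.2
        · by_cases e4 : p.2 < hfun w N p.1
          · exact absurd ⟨e1, e2, e3, e4⟩ hn
          · exact hchord (le_antisymm h4 (not_lt.1 e4))
        · obtain ⟨i, hi, hi1, hi2⟩ := h.exists_interval h1 h2
          refine ⟨⟨i, by omega⟩, ?_⟩
          rw [edge_eq_of_lt _ (by simpa using hi), h.edge_chain hi]
          exact ⟨hi1, hi2, le_antisymm (not_lt.1 e3) h3⟩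
      · apply hchord
        have : p.1 = (w N).1 := le_antisymm h2 (not_lt.1 e2)
        rw [this, h.gfun_vertex le_rfl] at h3
        rw [this, h.hfun_last] at h4
        rw [this, h.hfun_last]
        exact le_antisymm h4 h3
    · apply hchord
      have : p.1 = (w 0).1 := le_antisymm (not_lt.1 e1) h1
      rw [this, h.gfun_vertex (Nat.zero_le _)] at h3
      rw [this, hfun_zero] at h4
      rw [this, hfun_zero]
      exact le_antisymm h4 h3
  · intro p hp
    rw [mem_iUnion] at hp
    obtain ⟨i, hi⟩ := hp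
    by_cases hiN : (i : ℕ) < N
    · rw [edge_eq_of_lt i hiN, h.edge_chain hiN] at hi
      obtain ⟨h1, h2, h3⟩ := hi
      have e1 : (w 0).1 ≤ p.1 := (h.mono (Nat.zero_le _) hiN.le).trans h1
      have e2 : p.1 ≤ (w N).1 := h2.trans (h.mono hiN le_rfl)
      refine ⟨⟨e1, e2, h3.ge, ?_⟩, ?_⟩
      · rw [h3]
        exact h.gfun_le_hfun e1 e2
      · intro hn
        exact hn.2.2.1.ne h3.symm
    · rw [edge_eq_last i hiN, h.edge_chord] at hi
      obtain ⟨h1, h2, h3⟩ := hi
      refine ⟨⟨h1, h2, ?_, h3.le⟩, ?_⟩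
      · rw [h3]
        exact h.gfun_le_hfun h1 h2
      · intro hn
        exact hn.2.2.2.ne h3

/-- two distinct sides of the chain meet only in a common vertex -/
lemma chain_simple (h : Chain N w) {i j : ℕ} (hij : i < j) (hj : j < N) {p : Pt}
    (hpi : p ∈ segment ℝ (w i) (w (i + 1))) (hpj : p ∈ segment ℝ (w j) (w (j + 1))) :
    p = w (i + 1) ∧ p = w j := by
  rw [h.edge_chain (by omega)] at hpi
  rw [h.edge_chain hj] at hpj
  obtain ⟨h1, h2, h3⟩ := hpi
  obtain ⟨h4, h5, h6⟩ := hpj
  have hm : (w (i + 1)).1 ≤ (w j).1 := h.mono (by omega) (by omega)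
  have e1 : p.1 = (w (i + 1)).1 := le_antisymm h2 (hm.trans h4)
  have e2 : p.1 = (w j).1 := le_antisymm (h2.trans hm) h4
  have e3 : i + 1 = j := h.inj (by omega) (by omega) (e1.symm.trans e2)
  have e4 : p = w (i + 1) := by
    ext
    · exact e1
    · rw [h3, e1, h.gfun_vertex (by omega)]
  exact ⟨e4, e3 ▸ e4⟩

lemma chord_simple (h : Chain N w) {i : ℕ} (hi : i < N) {p : Pt}
    (hpi : p ∈ segment ℝ (w i) (w (i + 1))) (hpj : p ∈ segment ℝ (w N) (w 0)) :
    (p = w i ∧ p = w 0) ∨ (p = w (i + 1) ∧ p = w N) := by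
  rw [h.edge_chain hi] at hpi
  rw [h.edge_chord] at hpj
  obtain ⟨h1, h2, h3⟩ := hpi
  obtain ⟨h4, h5, h6⟩ := hpj
  rcases h.eq_of_gfun_eq_hfun h4 h5 (h3.symm.trans h6) with h0 | hN
  · left
    have e : p = w 0 := by
      ext
      · exact h0
      · rw [h6, h0, hfun_zero]
    have hi0 : i = 0 := by
      apply h.inj (by omega) (by omega)
      apply le_antisymm
      · rw [← h0]
        exact h1
      · exact h.mono (Nat.zero_le _) (by omega)
    subst hi0
    exact ⟨e, e⟩
  · right
    have e : p = w N := by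
      ext
      · exact hN
      · rw [h6, hN, h.hfun_last]
    have hi0 : i + 1 = N := by
      apply h.inj (by omega) (by omega)
      apply le_antisymm
      · exact h.mono (by omega) le_rfl
      · rw [← hN]
        exact h2
    rw [hi0]
    exact ⟨e, e⟩

theorem isPolygon (h : Chain N w) :
    IsPolygon (N + 1) (fun i : Fin (N + 1) => w i) (region w N) where
  three_le := by
    have := h.two_le
    omega
  inj := by
    intro i j hij
    have : (w i).1 = (w j).1 := congrArg Prod.fst hij
    exact Fin.ext (h.inj (by omega) (by omega) this)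
  genpos := by
    intro i j l hij hil hjl
    exact h.genpos i j l (by omega) (by omega) (by omega)
      (fun e => hij (Fin.ext e)) (fun e => hil (Fin.ext e)) (fun e => hjl (Fin.ext e))
  simple := by
    have hN2 := h.two_le
    have hrl : ∀ i : Fin (N + 1), (i : ℕ) < N →
        w ((finRotate (N + 1) i : Fin (N + 1)) : ℕ) = w (i + 1) := by
      intro i hi
      rw [finRotate_of_lt hi]
    have hrN : ∀ i : Fin (N + 1), ¬ (i : ℕ) < N →
        w ((finRotate (N + 1) i : Fin (N + 1)) : ℕ) = w 0 ∧ w (i : ℕ) = w N := by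
      intro i hi
      have hi' : i = Fin.last N := by
        ext
        have := i.2
        simp only [Fin.val_last]
        omega
      subst hi'
      rw [finRotate_last]
      simp
    rintro i j hij p ⟨hpi, hpj⟩
    have hij' : (i : ℕ) ≠ j := fun e => hij (Fin.ext e)
    simp only [mem_inter_iff, mem_insert_iff, mem_singleton_iff]
    by_cases hiN : (i : ℕ) < N
    · rw [edge_eq_of_lt i hiN] at hpi
      rw [hrl i hiN]
      by_cases hjN : (j : ℕ) < N
      · rw [edge_eq_of_lt j hjN] at hpj
        rw [hrl j hjN]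
        rcases lt_or_gt_of_ne hij' with hlt | hgt
        · have := h.chain_simple hlt hjN hpi hpj
          exact ⟨Or.inr this.1, Or.inl this.2⟩
        · have := h.chain_simple hgt hiN hpj hpi
          exact ⟨Or.inl this.2, Or.inr this.1⟩
      · rw [edge_eq_last j hjN] at hpj
        rw [(hrN j hjN).1, (hrN j hjN).2]
        rcases h.chord_simple hiN hpi hpj with h' | h'
        · exact ⟨Or.inl h'.1, Or.inr h'.2⟩
        · exact ⟨Or.inr h'.1, Or.inl h'.2⟩
    · have hjN : (j : ℕ) < N := by omega
      rw [edge_eq_last i hiN] at hpi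
      rw [edge_eq_of_lt j hjN] at hpj
      rw [(hrN i hiN).1, (hrN i hiN).2, hrl j hjN]
      rcases h.chord_simple hjN hpj hpi with h' | h'
      · exact ⟨Or.inr h'.2, Or.inl h'.1⟩
      · exact ⟨Or.inl h'.2, Or.inr h'.1⟩
  compact := isCompact_region
  closure_interior := h.closure_interior_region
  frontier_eq := h.frontier_region

end Chain

/-- a set covered by `m` preconnected subsets has at most `m` components -/
lemma comps_encard_le {ι : Type*} {A : Set Pt} (I : Finset ι) (C : ι → Set Pt)
    (hC : ∀ i ∈ I, IsPreconnected (C i)) (hsub : ∀ i ∈ I, C i ⊆ A)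
    (hcov : ∀ x ∈ A, ∃ i ∈ I, x ∈ C i) : (comps A).encard ≤ (I.card : ℕ) := by
  classical
  have hch : ∀ D ∈ comps A, ∃ i ∈ I, ∃ x ∈ C i, D = connectedComponentIn A x := by
    rintro D ⟨x, hx, rfl⟩
    obtain ⟨i, hi, hxi⟩ := hcov x hx
    exact ⟨i, hi, x, hxi, rfl⟩
  by_cases hne : I.Nonempty
  · obtain ⟨i0, hi0⟩ := hne
    have : Nonempty ι := ⟨i0⟩
    choose! φ hφ x hx hD using hch
    rw [← Set.encard_coe_eq_coe_finsetCard]
    refine Set.encard_le_encard_of_injOn (f := φ) (fun D hD' => hφ D hD') ?_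
    intro D hDm D' hDm' hDD'
    have h1 := hx D hDm
    have h2 := hx D' hDm'
    rw [← hDD'] at h2
    have h3 : x D' ∈ connectedComponentIn A (x D) :=
      (hC _ (hφ D hDm)).subset_connectedComponentIn h1 (hsub _ (hφ D hDm)) h2
    have h4 := connectedComponentIn_eq h3
    rw [hD D hDm, hD D' hDm', h4]
  · have : comps A = ∅ := by
      rw [Set.eq_empty_iff_forall_notMem]
      intro D hD
      obtain ⟨i, hi, _⟩ := hch D hD
      exact hne ⟨i, hi⟩
    rw [this]
    simp

/-- the starts of the runs of vertices on or below the line `y = σ x + τ` -/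
def runStarts (N : ℕ) (w : ℕ → Pt) (σ τ : ℝ) : Set ℕ :=
  {i | i ≤ N ∧ (w i).2 - σ * (w i).1 ≤ τ ∧
    (i = 0 ∨ ¬ ((w (i - 1)).2 - σ * (w (i - 1)).1 ≤ τ))}

lemma runStarts_finite (N : ℕ) (w : ℕ → Pt) (σ τ : ℝ) : (runStarts N w σ τ).Finite :=
  (Set.finite_Iic N).subset fun _ hi => hi.1

namespace Chain

variable {N : ℕ} {w : ℕ → Pt}

lemma seg_le (h : Chain N w) {i : ℕ} (hi : i < N) {σ τ p y q : ℝ} (h1 : (w i).1 ≤ p)
    (hpy : p ≤ y) (hyq : y ≤ q) (h2 : q ≤ (w (i + 1)).1)
    (hp : gfun w N p - σ * p ≤ τ) (hq : gfun w N q - σ * q ≤ τ) :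
    gfun w N y - σ * y ≤ τ := by
  rw [h.gfun_on hi h1 (by linarith)] at hp
  rw [h.gfun_on hi (by linarith) h2] at hq
  rw [h.gfun_on hi (by linarith) (by linarith)]
  rcases le_total 0 (slp w i - σ) with hb | hb
  · have := mul_le_mul_of_nonneg_left hyq hb
    linarith
  · have := mul_le_mul_of_nonpos_left hpy hb
    linarith

theorem kConvexRegion (h : Chain N w) {k : ℕ} (hk1 : 1 ≤ k)
    (hk : ∀ σ τ : ℝ, (runStarts N w σ τ).ncard ≤ k) : KConvexRegion k (region w N) := by
  classical
  intro p u hu
  by_cases hu1 : u.1 = 0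
  · -- vertical line
    have hu2 : u.2 ≠ 0 := by
      intro h2
      apply hu
      ext
      · exact hu1
      · exact h2
    have hconv : IsPreconnected (region w N ∩ line p u) := by
      have : region w N ∩ line p u = {q : Pt | q.1 = p.1 ∧ (w 0).1 ≤ p.1 ∧ p.1 ≤ (w N).1 ∧
          gfun w N p.1 ≤ q.2 ∧ q.2 ≤ hfun w N p.1} := by
        ext q
        constructor
        · rintro ⟨⟨h1, h2, h3, h4⟩, t, rfl⟩
          have e : (p + t • u).1 = p.1 := by
            simp [hu1]
          rw [e] at h1 h2 h3 h4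
          exact ⟨e, h1, h2, h3, h4⟩
        · rintro ⟨h0, h1, h2, h3, h4⟩
          refine ⟨⟨?_, ?_, ?_, ?_⟩, (q.2 - p.2) / u.2, ?_⟩
          · rw [h0]; exact h1
          · rw [h0]; exact h2
          · rw [h0]; exact h3
          · rw [h0]; exact h4
          · ext
            · simp [hu1, h0]
            · simp only [Prod.snd_add, Prod.smul_snd, smul_eq_mul]
              field_simp
              ring
      rw [this]
      refine Convex.isPreconnected ?_
      intro a ha b hb s t hs ht hst
      obtain ⟨a0, a1, a2, a3, a4⟩ := ha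
      obtain ⟨b0, _, _, b3, b4⟩ := hb
      refine ⟨?_, a1, a2, ?_, ?_⟩
      · simp only [Prod.fst_add, Prod.smul_fst, smul_eq_mul, a0, b0]
        rw [← add_mul, hst, one_mul]
      · simp only [Prod.snd_add, Prod.smul_snd, smul_eq_mul]
        have e1 := mul_le_mul_of_nonneg_left a3 hs
        have e2 := mul_le_mul_of_nonneg_left b3 ht
        have e3 : s * gfun w N p.1 + t * gfun w N p.1 = gfun w N p.1 := by
          rw [← add_mul, hst, one_mul]
        linarith
      · simp only [Prod.snd_add, Prod.smul_snd, smul_eq_mul]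
        have e1 := mul_le_mul_of_nonneg_left a4 hs
        have e2 := mul_le_mul_of_nonneg_left b4 ht
        have e3 : s * hfun w N p.1 + t * hfun w N p.1 = hfun w N p.1 := by
          rw [← add_mul, hst, one_mul]
        linarith
    have := comps_encard_le (A := region w N ∩ line p u) ({0} : Finset ℕ)
      (fun _ => region w N ∩ line p u) (fun _ _ => hconv) (fun _ _ => Subset.rfl)
      (fun x hx => ⟨0, Finset.mem_singleton_self _, hx⟩)
    rw [Finset.card_singleton] at this
    exact this.trans (by exact_mod_cast hk1)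
  · -- line `y = σ x + τ`
    set σ : ℝ := u.2 / u.1 with hσ
    set τ : ℝ := p.2 - σ * p.1 with hτ
    have hline : ∀ q : Pt, q ∈ line p u ↔ q.2 = σ * q.1 + τ := by
      intro q
      constructor
      · rintro ⟨t, rfl⟩
        simp only [hτ, hσ, Prod.fst_add, Prod.snd_add, Prod.smul_fst, Prod.smul_snd, smul_eq_mul]
        field_simp
        ring
      · intro hq
        refine ⟨(q.1 - p.1) / u.1, ?_⟩
        ext
        · simp only [Prod.fst_add, Prod.smul_fst, smul_eq_mul]
          field_simp
          ring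
        · simp only [Prod.snd_add, Prod.smul_snd, smul_eq_mul]
          rw [hq, hτ, hσ]
          field_simp
          ring
    set A0 : Set ℝ := {x | (w 0).1 ≤ x ∧ x ≤ (w N).1 ∧ gfun w N x - σ * x ≤ τ} with hA0
    set J : Set ℝ := {x | σ * x + τ ≤ hfun w N x} with hJ
    have hJord : J.OrdConnected := by
      refine Convex.ordConnected ?_
      intro a ha b hb s t hs ht hst
      simp only [hJ, mem_ofPred_eq, hfun, smul_eq_mul] at ha hb ⊢
      have e1 := mul_le_mul_of_nonneg_left ha hs
      have e2 := mul_le_mul_of_nonneg_left hb ht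
      have hs' : s = 1 - t := by linarith
      subst hs'
      linarith
    set I : Finset ℕ := (runStarts_finite N w σ τ).toFinset with hI
    have hIcard : I.card ≤ k := by
      rw [hI, ← Set.ncard_eq_toFinset_card _ (runStarts_finite N w σ τ)]
      exact hk σ τ
    have hmemA0 : ∀ i ≤ N, (w i).2 - σ * (w i).1 ≤ τ → (w i).1 ∈ A0 := by
      intro i hi hle
      refine ⟨h.mono (Nat.zero_le _) hi, h.mono hi le_rfl, ?_⟩
      rw [h.gfun_vertex hi]
      exact hle
    have hval : ∀ i ≤ N, gfun w N (w i).1 - σ * (w i).1 = (w i).2 - σ * (w i).1 := by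
      intro i hi
      rw [h.gfun_vertex hi]
    have claim1 : ∀ m, m ≤ N → (w m).2 - σ * (w m).1 ≤ τ →
        ∃ i ∈ I, (w m).1 ∈ connectedComponentIn A0 (w i).1 := by
      intro m
      induction m with
      | zero =>
        intro hm hle
        refine ⟨0, ?_, mem_connectedComponentIn (hmemA0 0 hm hle)⟩
        rw [hI, Set.Finite.mem_toFinset]
        exact ⟨hm, hle, Or.inl rfl⟩
      | succ m ih =>
        intro hm hle
        by_cases hprev : (w m).2 - σ * (w m).1 ≤ τ
        · obtain ⟨i, hi, hmi⟩ := ih (by omega) hprev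
          refine ⟨i, hi, ?_⟩
          rw [connectedComponentIn_eq hmi]
          have hlt := h.lt m (by omega)
          refine isPreconnected_Icc.subset_connectedComponentIn
            (left_mem_Icc.2 hlt.le) ?_ (right_mem_Icc.2 hlt.le)
          intro y hy
          refine ⟨(h.mono (Nat.zero_le _) (by omega)).trans hy.1,
            hy.2.trans (h.mono hm le_rfl), ?_⟩
          refine h.seg_le (i := m) (by omega) le_rfl hy.1 hy.2 le_rfl ?_ ?_
          · rw [hval m (by omega)]
            exact hprev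
          · rw [hval (m + 1) hm]
            exact hle
        · refine ⟨m + 1, ?_, mem_connectedComponentIn (hmemA0 (m + 1) hm hle)⟩
          rw [hI, Set.Finite.mem_toFinset]
          exact ⟨hm, hle, Or.inr (by simpa using hprev)⟩
    have claim2 : ∀ x ∈ A0, ∃ i ∈ I, x ∈ connectedComponentIn A0 (w i).1 := by
      intro x hx
      obtain ⟨h1, h2, h3⟩ := hx
      obtain ⟨i, hi, hi1, hi2⟩ := h.exists_interval h1 h2
      have hlt := h.lt i hi
      by_cases hprev : (w i).2 - σ * (w i).1 ≤ τ
      · obtain ⟨i', hi', hmi⟩ := claim1 i hi.le hprev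
        refine ⟨i', hi', ?_⟩
        rw [connectedComponentIn_eq hmi]
        refine isPreconnected_Icc.subset_connectedComponentIn
            (left_mem_Icc.2 hi1) ?_ (right_mem_Icc.2 hi1)
        intro y hy
        refine ⟨(h.mono (Nat.zero_le _) (by omega)).trans hy.1, hy.2.trans h2, ?_⟩
        refine h.seg_le (i := i) hi le_rfl hy.1 hy.2 hi2 ?_ h3
        rw [hval i hi.le]
        exact hprev
      · have hnext : (w (i + 1)).2 - σ * (w (i + 1)).1 ≤ τ := by
          by_contra hcon
          rw [not_le] at hprev hcon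
          -- contradiction by linear interpolation
          rw [h.gfun_on hi hi1 hi2] at h3
          have hd : 0 < (w (i + 1)).1 - (w i).1 := by linarith
          have e1 : slp w i * ((w (i + 1)).1 - (w i).1) = (w (i + 1)).2 - (w i).2 := by
            unfold slp
            rw [div_mul_cancel₀ _ hd.ne']
          rcases le_total 0 (slp w i - σ) with hb | hb
          · have := mul_le_mul_of_nonneg_left hi1 hb
            linarith
          · have := mul_le_mul_of_nonpos_left hi2 hb
            linarith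
        obtain ⟨i', hi', hmi⟩ := claim1 (i + 1) hi hnext
        refine ⟨i', hi', ?_⟩
        rw [connectedComponentIn_eq hmi]
        refine isPreconnected_Icc.subset_connectedComponentIn
            (right_mem_Icc.2 hi2) ?_ (left_mem_Icc.2 hi2)
        intro y hy
        refine ⟨h1.trans hy.1, hy.2.trans (h.mono hi le_rfl), ?_⟩
        refine h.seg_le (i := i) hi hi1 hy.1 hy.2 le_rfl h3 ?_
        rw [hval (i + 1) hi]
        exact hnext
    have hcont : Continuous fun x : ℝ => ((x, σ * x + τ) : Pt) := by fun_prop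
    have hfinal := comps_encard_le (A := region w N ∩ line p u) I
      (fun i => (fun x : ℝ => ((x, σ * x + τ) : Pt)) ''
        (connectedComponentIn A0 (w i).1 ∩ J)) ?_ ?_ ?_
    · exact hfinal.trans (by exact_mod_cast hIcard)
    · intro i _
      have h1 : (connectedComponentIn A0 (w i).1).OrdConnected :=
        isPreconnected_connectedComponentIn.ordConnected
      exact ((h1.inter hJord).isPreconnected).image _ hcont.continuousOn
    · intro i _
      rintro q ⟨x, ⟨hx1, hx2⟩, rfl⟩
      have hx3 := connectedComponentIn_subset _ _ hx1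
      obtain ⟨e1, e2, e3⟩ := hx3
      refine ⟨⟨e1, e2, ?_, hx2⟩, (hline _).2 rfl⟩
      simp only
      linarith
    · rintro q ⟨⟨h1, h2, h3, h4⟩, hq⟩
      rw [hline] at hq
      have hqA : q.1 ∈ A0 := ⟨h1, h2, by linarith⟩
      obtain ⟨i, hi, hxi⟩ := claim2 _ hqA
      refine ⟨i, hi, q.1, ⟨hxi, ?_⟩, ?_⟩
      · simp only [hJ, mem_ofPred_eq]
        rw [← hq]
        exact h4
      · ext
        · rfl
        · exact hq.symm

end Chain

end Pool.Agent.H29.KConv
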