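import Pool.Agent.H29.KConv.Changes
import Pool.Agent.H29.KConv.Mono

/-!
# The leaf points are in general position; adding an apex
-/

namespace Pool.Agent.H29.KConv

open Filter

/-- twice the signed area of a triangle -/
def det3 (p q r : Pt) : ℝ := (q.1 - p.1) * (r.2 - p.2) - (q.2 - p.2) * (r.1 - p.1)

lemma det3_eq_zero_of_collinear {p q r : Pt} (h : Collinear ℝ {p, q, r}) : det3 p q r = 0 := by
  rw [collinear_iff_of_mem (p₀ := p) (by simp)] at h
  obtain ⟨v, hv⟩ := h
  obtain ⟨s, hs⟩ := hv q (by simp)
  obtain ⟨t, ht⟩ := hv r (by simp)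
  simp only [vadd_eq_add] at hs ht
  unfold det3
  rw [hs, ht]
  simp only [Prod.fst_add, Prod.snd_add, Prod.smul_fst, Prod.smul_snd, smul_eq_mul]
  ring

lemma pt_pairwise {T : ℕ} : ∀ (L : List ℕ),
    (allB L.length).Pairwise fun a b => (pt (base T) a L).1 < (pt (base T) b L).1
  | [] => by simp [allB]
  | s :: L => by
    have ih := pt_pairwise (T := T) L
    rw [List.length_cons, allB, List.pairwise_append]
    refine ⟨?_, ?_, ?_⟩
    · rw [List.pairwise_map]
      simpa [pt] using ih
    · rw [List.pairwise_map]
      simpa [pt] using ih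
    · intro a ha b hb
      rw [List.mem_map] at ha hb
      obtain ⟨a', _, rfl⟩ := ha
      obtain ⟨b', _, rfl⟩ := hb
      simp only [pt, Bool.false_eq_true, if_false, zero_add, if_true, Prod.fst_add]
      have h1 := xc_le (base_nonneg T) a' L
      have h2 := xc_nonneg (base_nonneg T) b' L
      have h3 := G_lt T L.length
      have h4 := G_nonneg (base_nonneg T) L.length
      have h5 : (0 : ℝ) ≤ T := Nat.cast_nonneg T
      nlinarith [mul_nonneg h5 h4]

/-- the slope between `a` and `b` is within `1 / 2` of `s` -/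
def Near (T : ℕ) (s : ℕ) (a b : List Bool) (L : List ℕ) : Prop :=
  2 * |val (base T) s a L - val (base T) s b L| < |(pt (base T) a L).1 - (pt (base T) b L).1|

lemma Near.symm {T s : ℕ} {a b : List Bool} {L : List ℕ} (h : Near T s a b L) :
    Near T s b a L := by
  unfold Near at h ⊢
  rw [abs_sub_comm, abs_sub_comm (pt (base T) b L).1]
  exact h

lemma near_head {T s : ℕ} {L : List ℕ} (hs : s < T) (hL : ∀ x ∈ L, x < T) (a b : List Bool) :
    Near T s (true :: a) (false :: b) (s :: L) := by
  unfold Near
  simp only [val, pt, if_true, Bool.false_eq_true, if_false, zero_add, sub_self, mul_zero,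
    Prod.fst_add]
  have hbound : ∀ x ∈ L, |(x : ℝ) - s| ≤ T := by
    intro x hx
    have hx' : (x : ℝ) < T := by exact_mod_cast hL x hx
    have hs' : (s : ℝ) < T := by exact_mod_cast hs
    have h1 : (0 : ℝ) ≤ x := Nat.cast_nonneg x
    have h2 : (0 : ℝ) ≤ s := Nat.cast_nonneg s
    rw [abs_le]
    constructor <;> linarith
  have hT0 : (0 : ℝ) ≤ T := Nat.cast_nonneg T
  have h1 := abs_val_le (base_nonneg T) hT0 a L hbound
  have h2 := abs_val_le (base_nonneg T) hT0 b L hbound
  have h3 := abs_sub (val (base T) s a L) (val (base T) s b L)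
  have h4 := xc_nonneg (base_nonneg T) a L
  have h5 := xc_le (base_nonneg T) b L
  have h6 := G_lt T L.length
  have h7 := G_nonneg (base_nonneg T) L.length
  have h8 := le_abs_self (base T ^ L.length + (pt (base T) a L).1 - (pt (base T) b L).1)
  nlinarith [mul_nonneg hT0 h7]

lemma near_exists {T : ℕ} : ∀ (L : List ℕ), (∀ x ∈ L, x < T) → ∀ a b : List Bool,
    a.length = L.length → b.length = L.length → a ≠ b → ∃ s ∈ L, Near T s a b L
  | [], _, a, b, ha, hb, hne => by
    exfalso
    apply hne
    rw [List.length_eq_zero_iff.1 ha, List.length_eq_zero_iff.1 hb]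
  | s :: L, hL, [], b, ha, hb, hne => by simp at ha
  | s :: L, hL, x :: a, [], ha, hb, hne => by simp at hb
  | s :: L, hL, x :: a, y :: b, ha, hb, hne => by
    have hs := hL s (by simp)
    have hL' : ∀ x ∈ L, x < T := fun x hx => hL x (List.mem_cons_of_mem _ hx)
    simp only [List.length_cons, add_left_inj] at ha hb
    by_cases hxy : x = y
    · subst hxy
      have hne' : a ≠ b := by
        rintro rfl
        exact hne rfl
      obtain ⟨s', hs', h⟩ := near_exists L hL' a b ha hb hne'
      refine ⟨s', List.mem_cons_of_mem _ hs', ?_⟩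
      unfold Near at h ⊢
      cases x
      · simpa [val, pt] using h
      · simpa [val, pt] using h
    · refine ⟨s, by simp, ?_⟩
      cases x <;> cases y
      · exact absurd rfl hxy
      · exact (near_head hs hL' b a).symm
      · exact near_head hs hL' a b
      · exact absurd rfl hxy

/-- two different labels near the slopes of two segments with a common end -/
lemma det3_ne_zero_of_near {T s s' : ℕ} (hss' : s ≠ s') {a b c : List Bool} {L : List ℕ}
    (h1 : Near T s a b L) (h2 : Near T s' a c L) :
    det3 (pt (base T) a L) (pt (base T) b L) (pt (base T) c L) ≠ 0 := by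
  unfold Near at h1 h2
  rw [← val_eq, ← val_eq] at h1 h2
  set p := pt (base T) a L
  set q := pt (base T) b L
  set r := pt (base T) c L
  intro hdet
  unfold det3 at hdet
  have hX1 : 0 < |p.1 - q.1| := lt_of_le_of_lt (by positivity) h1
  have hX2 : 0 < |p.1 - r.1| := lt_of_le_of_lt (by positivity) h2
  -- multiply the inequalities
  have e1 : |p.2 - (s : ℝ) * p.1 - (q.2 - (s : ℝ) * q.1)| * |p.1 - r.1| * 2 <
      |p.1 - q.1| * |p.1 - r.1| := by
    have := mul_lt_mul_of_pos_right h1 hX2
    linarith
  have e2 : |p.2 - (s' : ℝ) * p.1 - (r.2 - (s' : ℝ) * r.1)| * |p.1 - q.1| * 2 <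
      |p.1 - q.1| * |p.1 - r.1| := by
    have := mul_lt_mul_of_pos_right h2 hX1
    linarith
  rw [← abs_mul, ← abs_mul] at e1
  rw [← abs_mul, ← abs_mul] at e2
  have e3 : (p.2 - (s : ℝ) * p.1 - (q.2 - (s : ℝ) * q.1)) * (p.1 - r.1) -
      (p.2 - (s' : ℝ) * p.1 - (r.2 - (s' : ℝ) * r.1)) * (p.1 - q.1) =
      ((s' : ℝ) - s) * ((p.1 - q.1) * (p.1 - r.1)) := by
    linear_combination (-1 : ℝ) * hdet
  have e4 := abs_sub ((p.2 - (s : ℝ) * p.1 - (q.2 - (s : ℝ) * q.1)) * (p.1 - r.1))
    ((p.2 - (s' : ℝ) * p.1 - (r.2 - (s' : ℝ) * r.1)) * (p.1 - q.1))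
  rw [e3, abs_mul] at e4
  have e5 : (1 : ℝ) ≤ |(s' : ℝ) - s| := by
    rcases lt_or_gt_of_ne hss' with h | h
    · have h' : (s : ℝ) + 1 ≤ s' := by exact_mod_cast h
      rw [abs_of_nonneg (by linarith)]
      linarith
    · have h' : (s' : ℝ) + 1 ≤ s := by exact_mod_cast h
      rw [abs_of_nonpos (by linarith)]
      linarith
  have e6 : 0 ≤ |(p.1 - q.1) * (p.1 - r.1)| := abs_nonneg _
  have e7 := mul_le_mul_of_nonneg_right e5 e6
  linarith

lemma det3_swap12 (p q r : Pt) : det3 q p r = - det3 p q r := by
  unfold det3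
  ring

lemma det3_swap23 (p q r : Pt) : det3 p r q = - det3 p q r := by
  unfold det3
  ring

lemma det3_translate (p q r w : Pt) : det3 (w + p) (w + q) (w + r) = det3 p q r := by
  unfold det3
  simp only [Prod.fst_add, Prod.snd_add]
  ring

/-- `a`, `b` share the first bit and `c` does not -/
lemma det3_core {T s : ℕ} {L : List ℕ} (hs : s < T) (hL : ∀ x ∈ L, x < T) (hsL : s ∉ L)
    (x : Bool) (a b c : List Bool) (ha : a.length = L.length) (hb : b.length = L.length)
    (hab : a ≠ b) :
    det3 (pt (base T) (x :: a) (s :: L)) (pt (base T) (x :: b) (s :: L))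
      (pt (base T) ((!x) :: c) (s :: L)) ≠ 0 := by
  obtain ⟨s', hs', h⟩ := near_exists L hL a b ha hb hab
  have hne : s' ≠ s := by
    rintro rfl
    exact hsL hs'
  apply det3_ne_zero_of_near (T := T) hne
  · unfold Near at h ⊢
    cases x
    · simpa [val, pt] using h
    · simpa [val, pt] using h
  · cases x
    · exact (near_head hs hL c a).symm
    · exact near_head hs hL a c

lemma det3_ne_zero {T : ℕ} : ∀ (L : List ℕ), L.Nodup → (∀ x ∈ L, x < T) →
    ∀ a b c : List Bool, a.length = L.length → b.length = L.length → c.length = L.length →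
    a ≠ b → a ≠ c → b ≠ c →
    det3 (pt (base T) a L) (pt (base T) b L) (pt (base T) c L) ≠ 0
  | [], _, _, a, b, c, ha, hb, hc, hab, _, _ => by
    exfalso
    apply hab
    rw [List.length_eq_zero_iff.1 ha, List.length_eq_zero_iff.1 hb]
  | s :: L, hnd, hL, [], b, c, ha, hb, hc, hab, hac, hbc => by simp at ha
  | s :: L, hnd, hL, x :: a, [], c, ha, hb, hc, hab, hac, hbc => by simp at hb
  | s :: L, hnd, hL, x :: a, y :: b, [], ha, hb, hc, hab, hac, hbc => by simp at hc
  | s :: L, hnd, hL, x :: a, y :: b, z :: c, ha, hb, hc, hab, hac, hbc => by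
    have hs := hL s (by simp)
    have hL' : ∀ x ∈ L, x < T := fun x hx => hL x (List.mem_cons_of_mem _ hx)
    rw [List.nodup_cons] at hnd
    simp only [List.length_cons, add_left_inj] at ha hb hc
    by_cases hxy : x = y
    · subst hxy
      have hab' : a ≠ b := by
        rintro rfl
        exact hab rfl
      by_cases hxz : x = z
      · subst hxz
        have hac' : a ≠ c := by
          rintro rfl
          exact hac rfl
        have hbc' : b ≠ c := by
          rintro rfl
          exact hbc rfl
        simp only [pt]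
        rw [det3_translate]
        exact det3_ne_zero L hnd.2 hL' a b c ha hb hc hab' hac' hbc'
      · have hz : z = !x := by
          cases x <;> cases z <;> simp_all
        subst hz
        exact det3_core hs hL' hnd.1 x a b c ha hb hab'
    · have hy : y = !x := by
        cases x <;> cases y <;> simp_all
      subst hy
      by_cases hxz : x = z
      · subst hxz
        have hac' : a ≠ c := by
          rintro rfl
          exact hac rfl
        have := det3_core hs hL' hnd.1 x a c b ha hc hac'
        rw [det3_swap23]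
        simpa using this
      · have hz : z = !x := by
          cases x <;> cases z <;> simp_all
        subst hz
        have hbc' : b ≠ c := by
          rintro rfl
          exact hbc rfl
        have := det3_core hs hL' hnd.1 (!x) b c a hb hc hbc'
        rw [Bool.not_not] at this
        have e : det3 (pt (base T) (x :: a) (s :: L)) (pt (base T) ((!x) :: b) (s :: L))
            (pt (base T) ((!x) :: c) (s :: L)) =
            det3 (pt (base T) ((!x) :: b) (s :: L)) (pt (base T) ((!x) :: c) (s :: L))
            (pt (base T) (x :: a) (s :: L)) := by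
          rw [det3_swap12, det3_swap23, neg_neg]
        rw [e]
        exact this

/-- the apex can be chosen far above everything -/
lemma exists_apex {T : ℕ} (L : List ℕ) : ∃ H : ℝ,
    (∀ a ∈ allB L.length, ∀ b ∈ allB L.length, (pt (base T) a L).1 < (pt (base T) b L).1 →
      det3 (-1, H) (pt (base T) a L) (pt (base T) b L) ≠ 0 ∧
      (pt (base T) a L).2 < H + ((pt (base T) b L).2 - H) / ((pt (base T) b L).1 - (-1)) *
        ((pt (base T) a L).1 - (-1))) := by
  have key : ∀ᶠ H : ℝ in atTop, ∀ a ∈ (allB L.length).toFinset, ∀ b ∈ (allB L.length).toFinset,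
      (pt (base T) a L).1 < (pt (base T) b L).1 →
      det3 (-1, H) (pt (base T) a L) (pt (base T) b L) ≠ 0 ∧
      (pt (base T) a L).2 < H + ((pt (base T) b L).2 - H) / ((pt (base T) b L).1 - (-1)) *
        ((pt (base T) a L).1 - (-1)) := by
    rw [Filter.eventually_all_finset]
    intro a _
    rw [Filter.eventually_all_finset]
    intro b _
    have ha0 := xc_nonneg (base_nonneg T) a L
    have hb0 := xc_nonneg (base_nonneg T) b L
    set p := pt (base T) a L
    set q := pt (base T) b L
    by_cases hlt : p.1 < q.1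
    · have hd : 0 < q.1 - p.1 := by linarith
      have hd1 : 0 < q.1 + 1 := by linarith
      filter_upwards [eventually_gt_atTop ((p.2 * (q.1 + 1) - q.2 * (p.1 + 1)) / (q.1 - p.1))]
        with H hH _
      rw [div_lt_iff₀ hd] at hH
      constructor
      · intro h
        unfold det3 at h
        simp only at h
        nlinarith
      · have e : H + (q.2 - H) / (q.1 - (-1)) * (p.1 - (-1)) - p.2 =
            (H * (q.1 - p.1) - (p.2 * (q.1 + 1) - q.2 * (p.1 + 1))) / (q.1 + 1) := by
          have : q.1 - (-1) = q.1 + 1 := by ring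
          rw [this]
          field_simp
          ring
        have h2 : 0 < (H * (q.1 - p.1) - (p.2 * (q.1 + 1) - q.2 * (p.1 + 1))) / (q.1 + 1) :=
          div_pos (by linarith) hd1
        rw [← e] at h2
        linarith
    · exact Filter.Eventually.of_forall fun H h => absurd h hlt
  obtain ⟨H, hH⟩ := key.exists
  refine ⟨H, fun a ha b hb hab => hH a (List.mem_toFinset.2 ha) b (List.mem_toFinset.2 hb) hab⟩

end Pool.Agent.H29.KConv
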