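import Pool.Agent.H29.KConv.Alt
import Pool.Agent.H29.KConv.Defs

/-!
# The leaf points
-/

namespace Pool.Agent.H29.KConv

/-- the point of the leaf `b`, for the list `L` of labels -/
def pt (B : ℝ) : List Bool → List ℕ → Pt
  | b :: bs, s :: L => (if b then ((B ^ L.length, B ^ L.length * (s : ℝ)) : Pt) else 0) + pt B bs L
  | _, _ => 0

/-- the value of `y - σ x` at the leaf `b` -/
def val (B σ : ℝ) : List Bool → List ℕ → ℝ
  | b :: bs, s :: L => (if b then B ^ L.length * ((s : ℝ) - σ) else 0) + val B σ bs L
  | _, _ => 0

/-- geometric sum -/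
def G (B : ℝ) : ℕ → ℝ
  | 0 => 0
  | m + 1 => B ^ m + G B m

lemma G_eq (B : ℝ) : ∀ m, (B - 1) * G B m = B ^ m - 1
  | 0 => by simp [G]
  | m + 1 => by
    have ih := G_eq B m
    simp only [G, mul_add, ih]
    ring

lemma G_nonneg {B : ℝ} (hB : 0 ≤ B) : ∀ m, 0 ≤ G B m
  | 0 => le_rfl
  | m + 1 => by
    have := G_nonneg hB m
    have := pow_nonneg hB m
    simp only [G]
    linarith

lemma val_eq (B σ : ℝ) : ∀ (b : List Bool) (L : List ℕ),
    (pt B b L).2 - σ * (pt B b L).1 = val B σ b L
  | [], _ => by simp [pt, val]
  | _ :: _, [] => by simp [pt, val]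
  | x :: b, s :: L => by
    have ih := val_eq B σ b L
    cases x
    · simp only [pt, val, Bool.false_eq_true, if_false, zero_add]
      exact ih
    · simp only [pt, val, if_true, Prod.fst_add, Prod.snd_add]
      linarith

lemma abs_val_le {B σ C : ℝ} (hB : 0 ≤ B) (hC : 0 ≤ C) : ∀ (b : List Bool) (L : List ℕ),
    (∀ s ∈ L, |(s : ℝ) - σ| ≤ C) → |val B σ b L| ≤ C * G B L.length
  | [], L, _ => by
    simp only [val, abs_zero]
    exact mul_nonneg hC (G_nonneg hB _)
  | _ :: _, [], _ => by simp [val, G]
  | x :: b, s :: L, h => by
    have ih := abs_val_le hB hC b L (fun s hs => h s (List.mem_cons_of_mem _ hs))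
    have h1 := h s (by simp)
    have h2 : |(if x then B ^ L.length * ((s : ℝ) - σ) else 0)| ≤ C * B ^ L.length := by
      split_ifs
      · rw [abs_mul, abs_of_nonneg (pow_nonneg hB _), mul_comm]
        exact mul_le_mul_of_nonneg_right h1 (pow_nonneg hB _)
      · rw [abs_zero]
        exact mul_nonneg hC (pow_nonneg hB _)
    simp only [val, List.length_cons, G]
    calc _ ≤ |(if x then B ^ L.length * ((s : ℝ) - σ) else 0)| + |val B σ b L| := abs_add_le _ _
      _ ≤ C * B ^ L.length + C * G B L.length := add_le_add h2 ih
      _ = _ := by ring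

lemma xc_nonneg {B : ℝ} (hB : 0 ≤ B) : ∀ (b : List Bool) (L : List ℕ), 0 ≤ (pt B b L).1
  | [], _ => by simp [pt]
  | _ :: _, [] => by simp [pt]
  | x :: b, s :: L => by
    have ih := xc_nonneg hB b L
    cases x
    · simp only [pt, Bool.false_eq_true, if_false, zero_add]
      exact ih
    · simp only [pt, if_true, Prod.fst_add]
      have := pow_nonneg hB L.length
      linarith

lemma xc_le {B : ℝ} (hB : 0 ≤ B) : ∀ (b : List Bool) (L : List ℕ), (pt B b L).1 ≤ G B L.length
  | [], L => by
    simp only [pt, Prod.fst_zero]
    exact G_nonneg hB _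
  | _ :: _, [] => by simp [pt, G]
  | x :: b, s :: L => by
    have ih := xc_le hB b L
    simp only [List.length_cons, G]
    cases x
    · simp only [pt, Bool.false_eq_true, if_false, zero_add]
      have := pow_nonneg hB L.length
      linarith
    · simp only [pt, if_true, Prod.fst_add]
      linarith

/-- The base belonging to `T` labels. -/
def base (T : ℕ) : ℝ := 4 * (T : ℝ) + 4

lemma base_pos (T : ℕ) : 0 < base T := by
  unfold base
  positivity

lemma base_nonneg (T : ℕ) : 0 ≤ base T := (base_pos T).le

lemma G_lt (T m : ℕ) : (4 * (T : ℝ) + 3) * G (base T) m < base T ^ m := by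
  have := G_eq (base T) m
  have e : base T - 1 = 4 * (T : ℝ) + 3 := by
    unfold base
    ring
  rw [e] at this
  linarith

/-- dominance for an integral (or at least far from all labels) slope -/
lemma val_lt_iff {T : ℕ} {σ : ℝ} {s : ℕ} {L : List ℕ} (hL : ∀ x ∈ L, |(x : ℝ) - σ| ≤ T)
    (hs : 1 ≤ |(s : ℝ) - σ|) (a b : List Bool) :
    (val (base T) σ a L < base T ^ L.length * ((s : ℝ) - σ) + val (base T) σ b L ↔ σ < s) ∧
    (base T ^ L.length * ((s : ℝ) - σ) + val (base T) σ a L < val (base T) σ b L ↔ ¬ σ < s) := by
  have ha := abs_le.1 (abs_val_le (base_nonneg T) (Nat.cast_nonneg T) a L hL)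
  have hb := abs_le.1 (abs_val_le (base_nonneg T) (Nat.cast_nonneg T) b L hL)
  have hG := G_lt T L.length
  have hG0 := G_nonneg (base_nonneg T) L.length
  have hTG : 2 * ((T : ℝ) * G (base T) L.length) < base T ^ L.length := by
    have : (0 : ℝ) ≤ (T : ℝ) * G (base T) L.length := mul_nonneg (Nat.cast_nonneg T) hG0
    nlinarith
  have hpow : 0 < base T ^ L.length := pow_pos (base_pos T) _
  rcases le_abs.1 hs with h | h
  · have h1 : base T ^ L.length * 1 ≤ base T ^ L.length * ((s : ℝ) - σ) :=
      mul_le_mul_of_nonneg_left h hpow.le
    constructor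
    · constructor
      · intro _
        linarith
      · intro _
        linarith
    · constructor
      · intro h2
        linarith
      · intro h2
        exact absurd (by linarith) h2
  · have h1 : base T ^ L.length * ((s : ℝ) - σ) ≤ base T ^ L.length * (-1) :=
      mul_le_mul_of_nonneg_left (by linarith) hpow.le
    constructor
    · constructor
      · intro h2
        linarith
      · intro h2
        linarith
    · constructor
      · intro _ h2
        linarith
      · intro _
        linarith

/-! ### Order-shattered sets of levels -/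

/-- the members of `Q` with first bit `x`, with this bit removed -/
noncomputable def child (x : Bool) (Q : Finset (List Bool)) : Finset (List Bool) :=
  Q.preimage (List.cons x) (Function.Injective.injOn (List.cons_injective))

lemma mem_child {x : Bool} {Q : Finset (List Bool)} {b : List Bool} :
    b ∈ child x Q ↔ x :: b ∈ Q := Finset.mem_preimage

/-- masks of the order-shattered sets of levels of a set of leaves -/
noncomputable def osh : ℕ → Finset (List Bool) → Finset (List Bool)
  | 0, Q => Q
  | n + 1, Q =>
    (osh n (child false Q) ∪ osh n (child true Q)).image (List.cons false) ∪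
      (osh n (child false Q) ∩ osh n (child true Q)).image (List.cons true)

lemma osh_length : ∀ (n : ℕ) (Q : Finset (List Bool)), (∀ b ∈ Q, b.length = n) →
    ∀ S ∈ osh n Q, S.length = n
  | 0, Q, h => h
  | n + 1, Q, h => by
    intro S hS
    have h0 : ∀ x, ∀ b ∈ child x Q, b.length = n := by
      intro x b hb
      rw [mem_child] at hb
      have := h _ hb
      simpa using this
    simp only [osh, Finset.mem_union, Finset.mem_image, Finset.mem_inter] at hS
    rcases hS with ⟨S', hS' | hS', rfl⟩ | ⟨S', ⟨hS', _⟩, rfl⟩
    · simp [osh_length n _ (h0 false) S' hS']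
    · simp [osh_length n _ (h0 true) S' hS']
    · simp [osh_length n _ (h0 false) S' hS']

lemma card_osh : ∀ (n : ℕ) (Q : Finset (List Bool)), (∀ b ∈ Q, b.length = n) →
    (osh n Q).card = Q.card
  | 0, Q, h => rfl
  | n + 1, Q, h => by
    classical
    have h0 : ∀ x, ∀ b ∈ child x Q, b.length = n := by
      intro x b hb
      rw [mem_child] at hb
      have := h _ hb
      simpa using this
    have inj : ∀ x : Bool, Function.Injective (List.cons x : List Bool → List Bool) := by
      intro x a b hab
      simpa using hab
    have hdisj : ∀ A A' : Finset (List Bool),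
        Disjoint (A.image (List.cons false)) (A'.image (List.cons true)) := by
      intro A A'
      rw [Finset.disjoint_left]
      intro a ha hb
      rw [Finset.mem_image] at ha hb
      obtain ⟨a', _, rfl⟩ := ha
      obtain ⟨b', _, hb'⟩ := hb
      simp at hb'
    simp only [osh]
    rw [Finset.card_union_of_disjoint (hdisj _ _), Finset.card_image_of_injective _ (inj _),
      Finset.card_image_of_injective _ (inj _), Finset.card_union_add_card_inter,
      card_osh n _ (h0 false), card_osh n _ (h0 true)]
    have hQ : Q = (child false Q).image (List.cons false) ∪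
        (child true Q).image (List.cons true) := by
      ext b
      simp only [Finset.mem_union, Finset.mem_image, mem_child]
      constructor
      · intro hb
        cases b with
        | nil =>
          have := h _ hb
          simp at this
        | cons x b =>
          cases x
          · left
            exact ⟨b, hb, rfl⟩
          · right
            exact ⟨b, hb, rfl⟩
      · rintro (⟨b', hb', rfl⟩ | ⟨b', hb', rfl⟩) <;> exact hb'
    conv_rhs => rw [hQ]
    rw [Finset.card_union_of_disjoint (hdisj _ _), Finset.card_image_of_injective _ (inj _),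
      Finset.card_image_of_injective _ (inj _)]

/-- number of masks with at most `s` ones -/
lemma count_masks : ∀ (n s : ℕ),
    ((allB n).filter fun S => decide (S.count true ≤ s)).length ≤ (n + 1) ^ s
  | 0, s => by
    simp [allB]
  | n + 1, s => by
    have e1 : (fun S : List Bool => decide (S.count true ≤ s)) ∘ (List.cons false) =
        fun S => decide (S.count true ≤ s) := by
      funext S
      simp
    simp only [allB, List.filter_append, List.length_append, List.filter_map, List.length_map, e1]
    have ih := count_masks n s
    cases s with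
    | zero =>
      have e2 : (fun S : List Bool => decide (S.count true ≤ 0)) ∘ (List.cons true) =
          fun _ => false := by
        funext S
        simp
      rw [e2]
      simpa using ih
    | succ s =>
      have ih' := count_masks n s
      have e2 : (fun S : List Bool => decide (S.count true ≤ s + 1)) ∘ (List.cons true) =
          fun S => decide (S.count true ≤ s) := by
        funext S
        simp
      rw [e2]
      have h1 : (n + 1) ^ s ≤ (n + 1 + 1) ^ s := Nat.pow_le_pow_left (by omega) s
      have h2 : (n + 1) ^ (s + 1) = (n + 1) ^ s * (n + 1) := pow_succ _ _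
      have h3 : (n + 1 + 1) ^ (s + 1) = (n + 1 + 1) ^ s * (n + 1 + 1) := pow_succ _ _
      rw [h3]
      rw [h2] at ih
      nlinarith

/-- labels selected by a mask -/
def sel : List ℕ → List Bool → List ℕ
  | s :: L, b :: S => if b then s :: sel L S else sel L S
  | _, _ => []

lemma sel_sublist : ∀ (L : List ℕ) (S : List Bool), (sel L S).Sublist L
  | [], S => by cases S <;> simp [sel]
  | s :: L, [] => by simp [sel]
  | s :: L, b :: S => by
    have ih := sel_sublist L S
    simp only [sel]
    split_ifs
    · exact ih.cons_cons _
    · exact ih.cons _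

lemma length_sel : ∀ (L : List ℕ) (S : List Bool), S.length = L.length →
    (sel L S).length = S.count true
  | [], S, h => by
    have : S = [] := List.length_eq_zero_iff.1 h
    subst this
    rfl
  | s :: L, [], h => by simp at h
  | s :: L, b :: S, h => by
    have ih := length_sel L S (by simpa using h)
    cases b <;> simp [sel, ih]

/-- A list `Z` of labels of levels is order-shattered by the set `Q` of leaves. -/
def Sh : List ℕ → Finset (List Bool) → List ℕ → Prop
  | [], Q, Z => Z = [] ∧ [] ∈ Q
  | s :: L, Q, Z => Sh L (child false Q) Z ∨ Sh L (child true Q) Z ∨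
      ∃ Z', Z = s :: Z' ∧ Sh L (child false Q) Z' ∧ Sh L (child true Q) Z'

lemma sh_of_osh : ∀ (L : List ℕ) (Q : Finset (List Bool)), (∀ b ∈ Q, b.length = L.length) →
    ∀ S ∈ osh L.length Q, Sh L Q (sel L S)
  | [], Q, h, S, hS => by
    have hS' : S ∈ Q := hS
    have : S = [] := List.length_eq_zero_iff.1 (h S hS')
    subst this
    exact ⟨rfl, hS'⟩
  | s :: L, Q, h, S, hS => by
    have h0 : ∀ x, ∀ b ∈ child x Q, b.length = L.length := by
      intro x b hb
      rw [mem_child] at hb
      have := h _ hb
      simpa using this
    simp only [List.length_cons, osh, Finset.mem_union, Finset.mem_image, Finset.mem_inter] at hS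
    rcases hS with ⟨S', hS' | hS', rfl⟩ | ⟨S', ⟨hS1, hS2⟩, rfl⟩
    · left
      simpa [sel] using sh_of_osh L _ (h0 false) S' hS'
    · right
      left
      simpa [sel] using sh_of_osh L _ (h0 true) S' hS'
    · right
      right
      exact ⟨sel L S', by simp [sel], sh_of_osh L _ (h0 false) S' hS1,
        sh_of_osh L _ (h0 true) S' hS2⟩

lemma Sh.sublist : ∀ {L : List ℕ} {Q : Finset (List Bool)} {Z Z' : List ℕ}, Sh L Q Z →
    Z'.Sublist Z → Sh L Q Z'
  | [], Q, Z, Z', h, hZ => by
    obtain ⟨rfl, h2⟩ := h
    rw [List.sublist_nil] at hZ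
    exact ⟨hZ, h2⟩
  | s :: L, Q, Z, Z', h, hZ => by
    rcases h with h | h | ⟨Y, rfl, h1, h2⟩
    · exact Or.inl (h.sublist hZ)
    · exact Or.inr (Or.inl (h.sublist hZ))
    · rcases List.sublist_cons_iff.1 hZ with hZ | ⟨Y', rfl, hY'⟩
      · exact Or.inl (h1.sublist hZ)
      · exact Or.inr (Or.inr ⟨Y', rfl, h1.sublist hY', h2.sublist hY'⟩)

/-- the embedding of a complete binary tree given by an order-shattered list -/
lemma Sh.embed {T : ℕ} : ∀ {L : List ℕ} {Q : Finset (List Bool)} {Z : List ℕ}, Sh L Q Z →
    (∀ b ∈ Q, b.length = L.length) →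
    ∃ φ : List Bool → List Bool, (∀ a, a.length = Z.length → φ a ∈ Q) ∧
      ∀ σ : ℝ, (∀ x ∈ L, |(x : ℝ) - σ| ≤ T) → (∀ s ∈ Z, 1 ≤ |(s : ℝ) - σ|) →
        ∀ a0 a : List Bool, a0.length = Z.length → a.length = Z.length →
          (val (base T) σ (φ a0) L < val (base T) σ (φ a) L ↔
            col (Z.map fun x : ℕ => decide (σ < (x : ℝ))) a0 a = true)
  | [], Q, Z, h, hQ => by
    obtain ⟨rfl, h2⟩ := h
    refine ⟨fun _ => [], fun a _ => h2, ?_⟩
    intro σ _ _ a0 a _ _
    simp [val, col]
  | s :: L, Q, Z, h, hQ => by
    have h0 : ∀ x, ∀ b ∈ child x Q, b.length = L.length := by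
      intro x b hb
      rw [mem_child] at hb
      have := hQ _ hb
      simpa using this
    rcases h with h | h | ⟨Y, rfl, h1, h2⟩
    · obtain ⟨φ, h3, h4⟩ := h.embed (h0 false)
      refine ⟨fun a => false :: φ a, fun a ha => mem_child.1 (h3 a ha), ?_⟩
      intro σ hL hs a0 a ha0 ha
      have := h4 σ (fun x hx => hL x (List.mem_cons_of_mem _ hx)) hs a0 a ha0 ha
      simpa only [val, Bool.false_eq_true, if_false, zero_add] using this
    · obtain ⟨φ, h3, h4⟩ := h.embed (h0 true)
      refine ⟨fun a => true :: φ a, fun a ha => mem_child.1 (h3 a ha), ?_⟩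
      intro σ hL hs a0 a ha0 ha
      have := h4 σ (fun x hx => hL x (List.mem_cons_of_mem _ hx)) hs a0 a ha0 ha
      simpa only [val, if_true, add_lt_add_iff_left] using this
    · obtain ⟨φ0, h3, h4⟩ := h1.embed (h0 false)
      obtain ⟨φ1, h5, h6⟩ := h2.embed (h0 true)
      refine ⟨fun a => match a with
        | [] => []
        | c :: a => if c then true :: φ1 a else false :: φ0 a, ?_, ?_⟩
      · intro a ha
        cases a with
        | nil => simp at ha
        | cons c a =>
          simp only [List.length_cons, add_left_inj] at ha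
          cases c
          · simp only [Bool.false_eq_true, if_false]
            exact mem_child.1 (h3 a ha)
          · simp only [if_true]
            exact mem_child.1 (h5 a ha)
      · intro σ hL hs a0 a ha0 ha
        have hL' : ∀ x ∈ L, |(x : ℝ) - σ| ≤ T := fun x hx => hL x (List.mem_cons_of_mem _ hx)
        have hs' : ∀ x ∈ Y, 1 ≤ |(x : ℝ) - σ| := fun x hx => hs x (List.mem_cons_of_mem _ hx)
        have hs1 : 1 ≤ |(s : ℝ) - σ| := hs s (by simp)
        cases a0 with
        | nil => simp at ha0
        | cons c0 a0 =>
          cases a with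
          | nil => simp at ha
          | cons c a =>
            simp only [List.length_cons, add_left_inj] at ha0 ha
            cases c0 <;> cases c
            · simp only [Bool.false_eq_true, if_false, val, zero_add, List.map_cons, col,
                if_true]
              exact h4 σ hL' hs' a0 a ha0 ha
            · simp only [Bool.false_eq_true, if_false, if_true, val, zero_add, List.map_cons, col]
              rw [(val_lt_iff hL' hs1 (φ0 a0) (φ1 a)).1]
              simp
            · simp only [Bool.false_eq_true, if_false, if_true, val, zero_add, List.map_cons, col]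
              rw [(val_lt_iff hL' hs1 (φ1 a0) (φ0 a)).2]
              simp
            · simp only [if_true, val, List.map_cons, col, add_lt_add_iff_left]
              exact h6 σ hL' hs' a0 a ha0 ha

end Pool.Agent.H29.KConv
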