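import Pool.Agent.H29.KConv.Construct

/-!
# The upper bound for `f k j n`
-/

namespace Pool.Agent.H29.KConv

open Filter Real

/-- the analytic estimate -/
lemma analytic {a δ C1 C2 : ℝ} (ha : 0 ≤ a) (hδ : 0 < δ) (hC1 : 0 ≤ C1) (hC2 : 1 ≤ C2) :
    ∀ᶠ x : ℝ in atTop, 1 + C1 * x ^ a * Real.log (C2 * x) ≤ x ^ (a + δ) := by
  have h1 : ∀ᶠ x : ℝ in atTop, Real.log x ≤ x ^ (δ / 2) := by
    have := (isLittleO_log_rpow_atTop (show 0 < δ / 2 by linarith)).bound
      (show (0 : ℝ) < 1 by norm_num)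
    filter_upwards [this, eventually_ge_atTop (1 : ℝ)] with x hx hx1
    rw [one_mul, Real.norm_eq_abs, Real.norm_eq_abs] at hx
    have h2 : 0 ≤ x ^ (δ / 2) := Real.rpow_nonneg (by linarith) _
    rw [abs_of_nonneg h2] at hx
    exact (le_abs_self _).trans hx
  have h2 : ∀ᶠ x : ℝ in atTop, 1 + C1 * (Real.log C2 + 1) ≤ x ^ (δ / 2) :=
    (tendsto_rpow_atTop (show 0 < δ / 2 by linarith)).eventually_ge_atTop _
  filter_upwards [h1, h2, eventually_ge_atTop (1 : ℝ)] with x hx1 hx2 hx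
  have hx0 : 0 < x := by linarith
  have e1 : 1 ≤ x ^ a := Real.one_le_rpow hx ha
  have e2 : 1 ≤ x ^ (δ / 2) := Real.one_le_rpow hx (by linarith)
  have e3 : Real.log (C2 * x) = Real.log C2 + Real.log x :=
    Real.log_mul (by linarith) hx0.ne'
  have e4 : 0 ≤ Real.log C2 := Real.log_nonneg hC2
  have e5 : x ^ (a + δ) = x ^ a * (x ^ (δ / 2) * x ^ (δ / 2)) := by
    rw [← Real.rpow_add hx0, ← Real.rpow_add hx0]
    congr 1
    ring
  rw [e3, e5]
  have e6 : Real.log C2 + Real.log x ≤ (Real.log C2 + 1) * x ^ (δ / 2) := by nlinarith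
  have e7 : C1 * x ^ a * (Real.log C2 + Real.log x) ≤
      C1 * x ^ a * ((Real.log C2 + 1) * x ^ (δ / 2)) :=
    mul_le_mul_of_nonneg_left e6 (mul_nonneg hC1 (by linarith))
  have e8 : 1 ≤ x ^ a * x ^ (δ / 2) := by nlinarith
  have e9 : x ^ a * x ^ (δ / 2) * (1 + C1 * (Real.log C2 + 1)) ≤
      x ^ a * x ^ (δ / 2) * x ^ (δ / 2) :=
    mul_le_mul_of_nonneg_left hx2 (by linarith)
  calc 1 + C1 * x ^ a * (Real.log C2 + Real.log x)
      ≤ x ^ a * x ^ (δ / 2) + C1 * x ^ a * ((Real.log C2 + 1) * x ^ (δ / 2)) :=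
        add_le_add e8 e7
    _ = x ^ a * x ^ (δ / 2) * (1 + C1 * (Real.log C2 + 1)) := by ring
    _ ≤ x ^ a * x ^ (δ / 2) * x ^ (δ / 2) := e9
    _ = _ := by ring

/-- Upper bound, with the number `R` of pairs of digits as a parameter. -/
theorem upper_R {R j : ℕ} (hR : 1 ≤ R) {ε : ℝ} (hε : 2 * (j : ℝ) / R < ε) :
    ∃ N : ℕ, ∀ n ≥ N, ∀ k, 8 * R + 3 ≤ k →
      (f k j n : ℝ) ≤ Real.exp (Real.log n ^ (1 / 2 + ε)) := by
  have hR0 : (0 : ℝ) < R := by exact_mod_cast hR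
  set a : ℝ := 1 / 2 + 2 * (j : ℝ) / R with ha
  have ha0 : 0 ≤ a := by positivity
  set C1 : ℝ := 3 ^ R * 2 ^ (R + 4 * j) * 2 ^ a with hC1
  have hC10 : 0 ≤ C1 := by positivity
  set C2 : ℝ := 2 ^ (2 * R) * 2 + 1 with hC2
  have hC21 : 1 ≤ C2 := by
    have : (0 : ℝ) ≤ 2 ^ (2 * R) * 2 := by positivity
    linarith
  have hev := analytic (a := a) (δ := ε - 2 * (j : ℝ) / R) ha0 (by linarith) hC10 hC21
  have hlog : Tendsto (fun n : ℕ => Real.log (n : ℝ)) atTop atTop :=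
    Real.tendsto_log_atTop.comp tendsto_natCast_atTop_atTop
  have hev2 := (hlog.eventually hev).and ((hlog.eventually_ge_atTop 1).and
    (eventually_ge_atTop 3))
  obtain ⟨N, hN⟩ := eventually_atTop.1 hev2
  refine ⟨N, fun n hn k hk => ?_⟩
  obtain ⟨hmain, hx1, hn3⟩ := hN n hn
  set x : ℝ := Real.log n with hx
  have hn0 : (0 : ℝ) < n := by
    have : (0 : ℕ) < n := by omega
    exact_mod_cast this
  have hexp : Real.exp x = n := Real.exp_log hn0
  -- choice of `m`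
  set r : ℝ := (2 * x) ^ (1 / (2 * (R : ℝ))) with hr
  have hr1 : 1 ≤ r := Real.one_le_rpow (by linarith) (by positivity)
  set m : ℕ := ⌈r⌉₊ with hm
  have hmr : r ≤ m := Nat.le_ceil r
  have hmr2 : (m : ℝ) ≤ 2 * r := by
    have := Nat.ceil_lt_add_one (show 0 ≤ r by linarith)
    rw [← hm] at this
    linarith
  have hm1 : 1 ≤ m := by
    have : (1 : ℝ) ≤ m := hr1.trans hmr
    exact_mod_cast this
  have hrpow : r ^ (2 * R) = 2 * x := by
    rw [hr, ← Real.rpow_natCast, ← Real.rpow_mul (by linarith)]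
    have : 1 / (2 * (R : ℝ)) * ((2 * R : ℕ) : ℝ) = 1 := by
      push_cast
      field_simp
    rw [this, Real.rpow_one]
  set T : ℕ := m ^ (2 * R) with hT
  have hT1 : 2 * x ≤ (T : ℝ) := by
    rw [← hrpow, hT]
    push_cast
    exact pow_le_pow_left₀ (by linarith) hmr _
  have hT2 : (T : ℝ) + 1 ≤ C2 * x := by
    have h1 : (T : ℝ) ≤ (2 * r) ^ (2 * R) := by
      rw [hT]
      push_cast
      exact pow_le_pow_left₀ (Nat.cast_nonneg m) hmr2 _
    rw [mul_pow, hrpow] at h1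
    rw [hC2]
    have : (0 : ℝ) ≤ 2 ^ (2 * R) := by positivity
    nlinarith
  have hn2T : n ≤ 2 ^ T + 1 := by
    have h1 : (n : ℝ) ≤ 2 ^ T := by
      rw [← hexp, ← Real.rpow_natCast, Real.rpow_def_of_pos (by norm_num)]
      apply Real.exp_le_exp.2
      have hl2 : (1 : ℝ) / 2 ≤ Real.log 2 := by
        have := Real.log_two_gt_d9
        linarith
      have : 1 / 2 * (2 * x) ≤ Real.log 2 * (T : ℝ) :=
        mul_le_mul hl2 hT1 (by linarith) (by linarith)
      linarith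
    have h2 : n ≤ 2 ^ T := by exact_mod_cast h1
    omega
  have hf := f_le (m := m) (R := R) (T := T) (n := n) (k := k) (j := j) hm1 rfl hn3 hn2T hk
  -- the exponent
  set s : ℕ := nb m R (4 * j + 1) with hs
  have hs1 : (s : ℝ) ≤ C1 * x ^ a := by
    have h1 : (s : ℝ) = 3 ^ R * (m : ℝ) ^ (R + 4 * j) := by
      rw [hs]
      simp only [nb]
      push_cast
      rfl
    rw [h1]
    have h2 : (m : ℝ) ^ (R + 4 * j) ≤ (2 * r) ^ (R + 4 * j) :=
      pow_le_pow_left₀ (Nat.cast_nonneg m) hmr2 _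
    have h3 : r ^ (R + 4 * j) = (2 * x) ^ a := by
      rw [hr, ← Real.rpow_natCast, ← Real.rpow_mul (by linarith)]
      congr 1
      rw [ha]
      push_cast
      field_simp
      ring
    rw [mul_pow, h3, Real.mul_rpow (by norm_num) (by linarith)] at h2
    have h4 : (0 : ℝ) ≤ 3 ^ R := by positivity
    calc (3 : ℝ) ^ R * (m : ℝ) ^ (R + 4 * j)
        ≤ 3 ^ R * (2 ^ (R + 4 * j) * (2 ^ a * x ^ a)) := mul_le_mul_of_nonneg_left h2 h4
      _ = C1 * x ^ a := by rw [hC1]; ring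
  have hTpos : (0 : ℝ) < (T : ℝ) + 1 := by positivity
  have hfin : (1 + (T + 1) ^ s : ℝ) ≤ Real.exp (1 + s * Real.log ((T : ℝ) + 1)) := by
    have h1 : ((T : ℝ) + 1) ^ s = Real.exp (s * Real.log ((T : ℝ) + 1)) := by
      rw [← Real.rpow_natCast, Real.rpow_def_of_pos hTpos, mul_comm]
    rw [h1, Real.exp_add]
    have h2 : (2 : ℝ) ≤ Real.exp 1 := by
      have := Real.add_one_le_exp (1 : ℝ)
      linarith
    have h3 : 1 ≤ Real.exp (s * Real.log ((T : ℝ) + 1)) := by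
      apply Real.one_le_exp
      apply mul_nonneg (Nat.cast_nonneg s)
      apply Real.log_nonneg
      have : (0 : ℝ) ≤ T := Nat.cast_nonneg T
      linarith
    nlinarith
  have hlogT : 0 ≤ Real.log ((T : ℝ) + 1) := by
    apply Real.log_nonneg
    have : (0 : ℝ) ≤ T := Nat.cast_nonneg T
    linarith
  have hfinal : 1 + (s : ℝ) * Real.log ((T : ℝ) + 1) ≤ x ^ (1 / 2 + ε) := by
    have h1 : Real.log ((T : ℝ) + 1) ≤ Real.log (C2 * x) := Real.log_le_log hTpos hT2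
    have h2 : (s : ℝ) * Real.log ((T : ℝ) + 1) ≤ C1 * x ^ a * Real.log (C2 * x) :=
      mul_le_mul hs1 h1 hlogT (mul_nonneg hC10 (Real.rpow_nonneg (by linarith) _))
    have h3 : a + (ε - 2 * (j : ℝ) / R) = 1 / 2 + ε := by
      rw [ha]
      ring
    rw [h3] at hmain
    linarith
  have hcast : (f k j n : ℝ) ≤ 1 + ((T : ℝ) + 1) ^ s := by
    have : ((f k j n : ℕ) : ℝ) ≤ ((1 + (T + 1) ^ s : ℕ) : ℝ) := by exact_mod_cast hf
    simpa using this
  exact hcast.trans (hfin.trans (Real.exp_le_exp.2 hfinal))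

/-- the trivial bound -/
lemma f_le_self (k j n : ℕ) : f k j n ≤ n := by
  unfold f
  by_cases h : ∃ P : Finset Pt, P.card = n ∧ KConvexSet k P
  · obtain ⟨P, hP, hk⟩ := h
    apply csSup_le'
    intro q hq
    obtain ⟨Q, hQP, hQcard, _⟩ := hq P hP hk
    rw [← hQcard, ← hP]
    exact Finset.card_le_card hQP
  · have hset : {m : ℕ | ∀ P : Finset Pt, P.card = n → KConvexSet k P →
        ∃ Q : Finset Pt, Q ⊆ P ∧ Q.card = m ∧ KConvexSet j Q} = Set.univ := by
      ext q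
      simp only [Set.mem_univ, iff_true]
      intro P hP hk
      exact absurd ⟨P, hP, hk⟩ h
    rw [hset]
    have : ¬ BddAbove (Set.univ : Set ℕ) := not_bddAbove_univ
    rw [Nat.sSup_of_not_bddAbove this]
    exact Nat.zero_le _

/-- **Upper bound**: `f(k, j, n) ≤ exp((log n)^(1/2 + 25 j / k))` for all large `n`. -/
theorem upper (k j : ℕ) (hk : 1 ≤ k) (hj : 1 ≤ j) :
    ∃ N : ℕ, ∀ n ≥ N,
      (f k j n : ℝ) ≤ Real.exp (Real.log n ^ (1 / 2 + 25 * (j : ℝ) / k)) := by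
  have hk0 : (0 : ℝ) < k := by exact_mod_cast hk
  have hj1 : (1 : ℝ) ≤ j := by exact_mod_cast hj
  by_cases hk50 : k ≤ 50
  · refine ⟨3, fun n hn => ?_⟩
    have hn0 : (0 : ℝ) < n := by
      have : (0 : ℕ) < n := by omega
      exact_mod_cast this
    have hlog1 : 1 ≤ Real.log n := by
      rw [Real.le_log_iff_exp_le hn0]
      have h3 : (3 : ℝ) ≤ n := by exact_mod_cast hn
      have := Real.exp_one_lt_d9
      linarith
    have hexpo : 1 ≤ 1 / 2 + 25 * (j : ℝ) / k := by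
      have hk' : (k : ℝ) ≤ 50 := by exact_mod_cast hk50
      have : 1 / 2 ≤ 25 * (j : ℝ) / k := by
        rw [le_div_iff₀ hk0]
        nlinarith
      linarith
    have h1 : Real.log n ≤ Real.log n ^ (1 / 2 + 25 * (j : ℝ) / k) := by
      conv_lhs => rw [← Real.rpow_one (Real.log n)]
      exact Real.rpow_le_rpow_of_exponent_le hlog1 hexpo
    calc (f k j n : ℝ) ≤ n := by exact_mod_cast f_le_self k j n
      _ = Real.exp (Real.log n) := (Real.exp_log hn0).symm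
      _ ≤ _ := Real.exp_le_exp.2 h1
  · set R : ℕ := (k - 3) / 8 with hR
    have hR1 : 1 ≤ R := by omega
    have hRk : 8 * R + 3 ≤ k := by omega
    have hRk2 : k ≤ 8 * R + 10 := by omega
    have hε : 2 * (j : ℝ) / R < 25 * (j : ℝ) / k := by
      have hR0 : (0 : ℝ) < R := by exact_mod_cast hR1
      rw [div_lt_div_iff₀ hR0 hk0]
      have h1 : (k : ℝ) ≤ 8 * R + 10 := by exact_mod_cast hRk2
      have h2 : (50 : ℝ) < k := by exact_mod_cast (not_le.1 hk50)
      nlinarith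
    obtain ⟨N, hN⟩ := upper_R hR1 hε
    exact ⟨N, fun n hn => hN n hn k hRk⟩

end Pool.Agent.H29.KConv
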